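import Mathlib
import Pool.Agent.W25.UN.Stm
import Pool.Agent.H362R2.CM.PairQ

/-! Project UN (helper25), second wave of statements. -/

set_option autoImplicit false

namespace Pool.Agent.W25.UN

open Finset Filter Topology
open Pool.Agent.H410R2 hiding GP GP_prof GP_cut_some GP_cut_none GP_lip gg_pos gg_le_one gg_anti ee_bound ee_nonneg gg_lip LB_gg LB_ee Sums exists_sums yx wx wxi Br sum_GP_none sum_GP_some sum_GP_some_ee sum_GP_some_one sum_GPr_none sum_GPr_some S1_final QI_final S2_final w_abs_le wmax gg ee I1 I2 IE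
open Pool.Agent.H361R2.GM
open Pool.Agent.H362R2.CM

/-- (SU) all one-dimensional sums, uniformly -/
def SumsU : Prop := ∀ (Q : SPar) (K : ℕ) (ε ρ C' : ℝ), 0 < ε → 0 < ρ → ρ ≤ 1 / 16 →
  ∀ᶠ l : ℝ in atTop, ∀ (D' : ℕ) (Cl P : Finset ℕ), D' = ⌊l ^ 3⌋₊ → (Cl.card : ℝ) ≤ C' * l →
    (∀ p ∈ P, p.Prime ∧ D' < p) →
    (∀ p : ℕ, p.Prime → D' < p → (p : ℝ) ≤ Real.exp (l / 4) → p ∉ Cl → p ∈ P) →
    Sums Q D' ε K (ρ * l) (ρ * l / 48) P ∧ Sums2 Q D' ε (ρ * l) ((1 / 4 - 2 * ρ) * l) P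

/-! ### affine forms -/

/-- natural number valued affine forms -/
def LZ {J : Type} (u w : J → ℤ) (j : J) (n : ℕ) : ℕ := (u j * n + w j).natAbs

/-- coefficients of the system `n`, `N + α i * n + h i` -/
def uB {k : ℕ} (α : Fin k → ℤ) : Option (Fin k) → ℤ
  | none => 1
  | some i => α i

/-- constant terms of the system -/
def wB {k : ℕ} (h : Fin k → ℤ) (N : ℕ) : Option (Fin k) → ℤ
  | none => 0
  | some i => N + h i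

/-- (SD) sieve data of affine forms -/
def SdLZ : Prop := ∀ (k : ℕ) (u w : Option (Fin k) → ℤ) (P : Finset ℕ), (∀ p ∈ P, p.Prime) →
  (∀ p ∈ P, ∀ j, ¬ (p : ℤ) ∣ u j) →
  (∀ p ∈ P, ∀ j l, j ≠ l → ¬ (p : ℤ) ∣ u j * w l - u l * w j) →
  SieveData (IP P) (Option (Fin k)) (prP P) (LZ u w) 1

open Classical in
/-- root classes -/
noncomputable def Om {k : ℕ} (u w : Option (Fin k) → ℤ) (p : ℕ) : Finset ℕ :=
  (range p).filter (fun r => ∃ j, p ∣ LZ u w j r)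

open Classical in
/-- root classes outside the root of the form `i` -/
noncomputable def OmI {k : ℕ} (i : Option (Fin k)) (u w : Option (Fin k) → ℤ) (p : ℕ) : Finset ℕ :=
  (range p).filter (fun r => (∃ j, p ∣ LZ u w j r) ∧ ¬ p ∣ LZ u w i r)

/-- (RC) counting the root classes -/
def RootsCount : Prop := ∀ (k : ℕ) (u w : Option (Fin k) → ℤ) (p : ℕ), p.Prime →
  (∀ j, ¬ (p : ℤ) ∣ u j) →
  (∀ i, (OmI i u w p).card + 1 = (Om u w p).card) ∧ (Om u w p).card ≤ k + 1 ∧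
  (∀ (j : Option (Fin k)) (m n : ℕ), m ≡ n [MOD p] → (p ∣ LZ u w j m ↔ p ∣ LZ u w j n)) ∧
  (∀ s t : ℤ, (s = 1 ∨ s = -1) →
    (Om (fun j => u j * s) (fun j => u j * t + w j) p).card = (Om u w p).card)

/-- primes at which two forms collide -/
noncomputable def CL {k : ℕ} (u w : Option (Fin k) → ℤ) : Finset ℕ :=
  (∏ j, ∏ l, if j = l then (1 : ℤ) else u j * w l - u l * w j).natAbs.primeFactors

/-- (CC) few collisions -/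
def CLcard : Prop := ∀ (k : ℕ) (α h : Fin k → ℤ), (∀ i, α i ≠ 0) →
  (∀ i j, i ≠ j → ¬ (α i = α j ∧ h i = h j)) → ∃ C' : ℝ, ∀ᶠ N : ℕ in atTop,
    (∀ j l, j ≠ l → uB α j * wB h N l - uB α l * wB h N j ≠ 0) ∧
    ((CL (uB α) (wB h N)).card : ℝ) ≤ C' * Real.log N

/-! ### weights -/

variable {k : ℕ}

/-- the sieve weight of affine forms -/
noncomputable def wZ (Q : SPar) (u w : Option (Fin k) → ℤ) (P : Finset ℕ) (L : ℝ) (n : ℕ) : ℝ :=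
  ∑ σ, cw (prP P) (yP Q k P L) σ * hN (LZ u w) (prP P) σ n

/-- the sieve weight when the form `i` is free of sieve primes, arbitrary `y` -/
noncomputable def wIZ (u w : Option (Fin k) → ℤ) (P : Finset ℕ) (i : Fin k)
    (y : (IP P → Option (Option (Fin k))) → ℝ) (n : ℕ) : ℝ :=
  ∑ σ, cw (prP P) y σ * hNI (some i) (LZ u w) (prP P) σ n

/-- (PT) pointwise bound of the weights -/
def PtwU : Prop := ∀ (k : ℕ) (α h : Fin k → ℤ) (Q : SPar) (e : ℝ), 0 < e →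
  ∀ᶠ N : ℕ in atTop, ∀ (P : Finset ℕ) (L : ℝ), 0 < L → (∀ p ∈ P, p.Prime ∧ p ≤ N) →
    SieveData (IP P) (Option (Fin k)) (prP P) (LZ (uB α) (wB h N)) 1 →
    ∀ n : ℕ, 1 ≤ n → n ≤ N → (∀ i, N + α i * n + h i ≠ 0) →
      (wZ Q (uB α) (wB h N) P L n) ^ 2 ≤ (N : ℝ) ^ e ∧
      ∀ i, (wIZ (uB α) (wB h N) P i (yP Q k P L) n) ^ 2 ≤ (N : ℝ) ^ e

/-- (WE) the weights coincide on primes -/
def WEq : Prop := ∀ (k : ℕ) (Q : SPar) (u w u' w' : Option (Fin k) → ℤ) (P : Finset ℕ) (L Λ : ℝ)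
  (n n' : ℕ) (i j : Fin k), (∀ p ∈ P, 2 ≤ p) → 0 ≤ Λ → i ≠ j →
  (∀ l, LZ u w l n = LZ u' w' l n') → (∀ p ∈ P, ¬ p ∣ LZ u w (some i) n) →
    wIZ u' w' P i (yP Q k P L) n' = wZ Q u w P L n ∧
    ((∀ p ∈ P, ¬ p ∣ LZ u w (some j) n) →
      wIZ u' w' P i (zP Q k P L Λ j) n' = wZ Q u w P L n)

/-! ### primes in progressions, tents -/

open Classical in
/-- worst deviation over the coprime classes -/
noncomputable def Est (X : ℝ) (M : ℕ) : ℝ :=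
  (range (M + 1)).sup' ⟨0, by simp⟩ (fun r => if r.Coprime M then
    |psiLogAP X M r - psiLog1 X / (Nat.totient M : ℝ)| else 0)

/-- mass of the tent against the primes `a y + b` -/
noncomputable def Mt (a : ℕ) (x0 κ : ℝ) : ℝ :=
  1 / κ * (psiLog1 (a * (x0 * Real.exp κ)) - 2 * psiLog1 (a * x0) +
    psiLog1 (a * (x0 * Real.exp (-κ)))) / a

/-- deviation for the modulus `m` -/
noncomputable def Dev (a b : ℕ) (x0 κ : ℝ) (m : ℕ) : ℝ :=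
  1 / κ * (Est (a * (x0 * Real.exp κ)) (a * m) + 2 * Est (a * x0) (a * m) +
    Est (a * (x0 * Real.exp (-κ))) (a * m) +
    4 * (((a : ℝ) + b) ^ 2 * (Real.log (a * (x0 * Real.exp κ)) + 1)))

/-- (EQ) the primes `a y + b` with a tent weight in a residue class -/
def Eq2 : Prop := ∀ (a b W : ℕ) (x0 κ : ℝ) (X : ℕ), 1 ≤ a → 1 ≤ b → 1 ≤ W →
  (∀ p : ℕ, p.Prime → p ∣ a → p ∣ W) → 0 < κ → 1 ≤ x0 * Real.exp (-κ) →
  x0 * Real.exp κ ≤ X →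
  (∀ m, 0 ≤ Dev a b x0 κ m) ∧
  ∀ m r : ℕ, W ∣ m → 1 ≤ m → (a * r + b).Coprime m →
    |∑ y ∈ (Icc 1 X).filter (fun y => y ≡ r [MOD m]),
        tn x0 κ (((a * y + b : ℕ) : ℝ) / a) * ArithmeticFunction.vonMangoldt (a * y + b) -
      Mt a x0 κ / (Nat.totient m : ℝ)| ≤ Dev a b x0 κ m

/-- (PN) the mass of the tent, prime number theorem -/
def PntT : Prop := ∀ (a : ℕ) (ε κ1 : ℝ), 1 ≤ a → 0 < ε → 0 < κ1 → ∀ᶠ x0 : ℝ in atTop,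
  ∀ κ : ℝ, κ1 ≤ κ → κ ≤ 1 → |Mt a x0 κ - ts x0 κ| ≤ ε * (κ * x0)

/-- (ER) total error of the second sums -/
def ErrU : Prop := ∀ (k a W : ℕ) (ρ κ1 c1 c2 : ℝ) (A B : ℕ), 1 ≤ a → 1 ≤ W → 0 < ρ →
  ρ ≤ 1 / 16 → 0 < κ1 → 0 < c1 → ∀ᶠ N : ℕ in atTop, ∀ (P : Finset ℕ),
    (∀ p ∈ P, p.Prime ∧ (p : ℝ) ≤ N) → ∀ (b : ℕ) (x0 κ Y : ℝ), b ≤ a → c1 * N ≤ x0 →
    x0 ≤ c2 * N → κ1 ≤ κ → κ ≤ 1 → 0 ≤ Y → Y ≤ (Real.log N) ^ B →
    (Real.log N) ^ B *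
      ((∏ t : IP P, (1 + ((k + 1 : ℕ) : ℝ) / ((prP P t : ℝ) - 1)) *
        ((prP P t : ℝ) / ((prP P t : ℝ) - 1))) ^ 2 *
      ∑ m ∈ (Icc 1 ⌊Y * (Real.exp ((1 / 4 - ρ / 2) * Real.log N)) ^ 2⌋₊).filter Squarefree,
        (3 * ((k + 1 : ℕ) : ℝ)) ^ m.primeFactors.card * Dev a b x0 κ (W * m)) ≤
      N / (Real.log N) ^ A

/-! ### the quadratic forms -/

/-- (S1P) diagonal bounds for the first sum -/
def S1Parts : Prop := ∀ (Q : SPar) (k D' : ℕ) (ε L : ℝ) (P : Finset ℕ), 0 < ε → 0 < L →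
  0 < Q.I2 → 0 < BD D' → (∀ p ∈ P, p.Prime ∧ D' < p) → Sums Q D' ε (k + 1) L (L / 48) P →
  ∑ σ, cw (prP P) (yP Q k P L) σ ^ 2 * mulc (prP P) (fun p => (p : ℝ)) σ ≤
    (BD D' * (L / 48) * (1 / 3 + ε)) * (BD D' * L * (Q.I2 + ε)) ^ k ∧
  ∑ σ, |cw (prP P) (yP Q k P L) σ| * mulc (prP P) (fun p => (p : ℝ) + 1) σ ≤
    Real.exp (L / 48 + L) * ∏ t : IP P, (1 + 3 * ((k + 1 : ℕ) : ℝ) / (prP P t : ℝ))

/-- (QL) lower bound of the model form (from `QI_P_lower` with a dummy context) -/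
def QLow : Prop := ∀ k : ℕ, ∃ D₀ : ℕ, ∀ (D' : ℕ) (Q : SPar) (ε : ℝ), D₀ ≤ D' → 0 < ε →
  ε < 1 / 3 → ε < Q.I1 → ε < Q.I2 → 0 < Br Q k ε → ∀ (L : ℝ) (P : Finset ℕ), 0 < L →
  (∀ p ∈ P, p.Prime ∧ D' < p) →
  (∏ t : IP P, (1 + ((k + 1 : ℕ) : ℝ) / ((prP P t : ℝ) - 1) ^ 2) ≤ 1 + ε) →
  (((k + 1 : ℕ) : ℝ) ^ 2 * ∑ t : IP P, (hb (k + 1) (prP P t)) ^ 2 ≤ ε) →
  Sums Q D' ε (k + 1) L (L / 48) P → ∀ i : Fin k,
    (1 - ε) ^ 2 * (BD D' * L * (Q.I1 - ε)) ^ 2 *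
      (BD D' * (L / 48) * (BD D' * L) ^ (k - 1) * Br Q k ε) ≤
      QI (some i) (prP P) (cw (prP P) (yP Q k P L))

/-- (WD) facts on the small modulus -/
def WFacts : Prop := ∃ D₀ : ℕ, ∀ D : ℕ, D₀ ≤ D → 1 ≤ WW D ∧
  ((Nat.totient (WW D) : ℝ) = WW D * BD D) ∧ 0 < BD D ∧
  (∀ p : ℕ, p.Prime → (p ∣ WW D ↔ p ≤ D)) ∧
  ∀ (N : ℕ) (k : ℕ) (α h : Fin k → ℤ),
    (∀ p : ℕ, p.Prime → ∃ n : ℤ, ¬ (p : ℤ) ∣ n ∧ ∀ i, ¬ (p : ℤ) ∣ Fm α h N i n) →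
    ∃ v : ℕ, ∀ j, ∀ n : ℤ, n ≡ v [ZMOD (WW D)] →
      IsCoprime (uB α j * n + wB h N j) ((WW D : ℕ) : ℤ)

end Pool.Agent.W25.UN
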