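import Mathlib
import Pool.Agent.W25.UN.Stm2

/-! Project UN: own coordinates of a form. -/

set_option autoImplicit false

namespace Pool.Agent.W25.UN

open Finset Filter Topology

variable {k : ℕ}

/-- direction of the own coordinate -/
def sI (α : Fin k → ℤ) (i : Fin k) : ℤ := (α i).sign

/-- shift of the own coordinate -/
def qI (α h : Fin k → ℤ) (N : ℕ) (i : Fin k) : ℤ := (N + h i - 1) / |α i|

/-- offset of the own coordinate -/
def tI (α h : Fin k → ℤ) (N : ℕ) (i : Fin k) : ℤ := -(sI α i * qI α h N i)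

/-- modulus of the slope -/
def aI (α : Fin k → ℤ) (i : Fin k) : ℕ := (α i).natAbs

/-- constant term in the own coordinate -/
def bI (α h : Fin k → ℤ) (N : ℕ) (i : Fin k) : ℕ := (N + h i - |α i| * qI α h N i).toNat

def uO (α : Fin k → ℤ) (i : Fin k) : Option (Fin k) → ℤ := fun j => uB α j * sI α i

def wO (α h : Fin k → ℤ) (N : ℕ) (i : Fin k) : Option (Fin k) → ℤ :=
  fun j => uB α j * tI α h N i + wB h N j

theorem sI_or (α : Fin k → ℤ) (hα : ∀ i, α i ≠ 0) (i : Fin k) : sI α i = 1 ∨ sI α i = -1 := by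
  unfold sI
  rcases lt_or_gt_of_ne (hα i) with h | h
  · right; exact Int.sign_eq_neg_one_of_neg h
  · left; exact Int.sign_eq_one_of_pos h

theorem sI_sq (α : Fin k → ℤ) (hα : ∀ i, α i ≠ 0) (i : Fin k) : sI α i * sI α i = 1 := by
  rcases sI_or α hα i with h | h <;> rw [h] <;> norm_num

theorem aI_pos (α : Fin k → ℤ) (hα : ∀ i, α i ≠ 0) (i : Fin k) : 1 ≤ aI α i := by
  unfold aI
  have := Int.natAbs_pos.2 (hα i)
  omega

theorem aI_abs (α : Fin k → ℤ) (i : Fin k) : ((aI α i : ℕ) : ℤ) = |α i| := by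
  unfold aI
  exact Int.natCast_natAbs (α i)

theorem bI_spec (α h : Fin k → ℤ) (hα : ∀ i, α i ≠ 0) (N : ℕ) (i : Fin k) :
    1 ≤ bI α h N i ∧ bI α h N i ≤ aI α i ∧
      ((bI α h N i : ℕ) : ℤ) = N + h i - |α i| * qI α h N i := by
  have ha : 0 < |α i| := abs_pos.2 (hα i)
  have h1 := Int.emod_add_mul_ediv ((N : ℤ) + h i - 1) |α i|
  have h2 := Int.emod_nonneg ((N : ℤ) + h i - 1) ha.ne'
  have h3 := Int.emod_lt_of_pos ((N : ℤ) + h i - 1) ha
  have h4 : (N : ℤ) + h i - |α i| * qI α h N i = ((N : ℤ) + h i - 1) % |α i| + 1 := by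
    unfold qI
    linarith
  have h5 : 0 ≤ (N : ℤ) + h i - |α i| * qI α h N i := by rw [h4]; linarith
  have h6 : ((bI α h N i : ℕ) : ℤ) = N + h i - |α i| * qI α h N i := by
    unfold bI
    exact Int.toNat_of_nonneg h5
  have h7 := aI_abs α i
  refine ⟨?_, ?_, h6⟩
  · have : (1 : ℤ) ≤ (bI α h N i : ℕ) := by rw [h6, h4]; linarith
    exact_mod_cast this
  · have : ((bI α h N i : ℕ) : ℤ) ≤ (aI α i : ℕ) := by rw [h6, h4, h7]; linarith
    exact_mod_cast this

/-- the form `i` in its own coordinate -/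
theorem LZ_own (α h : Fin k → ℤ) (hα : ∀ i, α i ≠ 0) (N : ℕ) (i : Fin k) (y : ℕ) :
    LZ (uO α i) (wO α h N i) (some i) y = aI α i * y + bI α h N i := by
  have h1 := (bI_spec α h hα N i).2.2
  have h2 := aI_abs α i
  have h3 : uO α i (some i) * y + wO α h N i (some i) = ((aI α i * y + bI α h N i : ℕ) : ℤ) := by
    push_cast
    rw [h1, h2]
    unfold uO wO uB wB tI sI
    simp only
    have h4 : α i * (α i).sign = |α i| := by
      rw [mul_comm]
      exact Int.sign_mul_self_eq_abs (α i)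
    have h5 : α i * -((α i).sign * qI α h N i) = -(|α i| * qI α h N i) := by
      rw [← h4]; ring
    rw [h4, h5]
    ring
  unfold LZ
  rw [h3, Int.natAbs_natCast]

/-- value of the forms at corresponding points -/
theorem LZ_corr (α h : Fin k → ℤ) (N : ℕ) (i : Fin k) (n y : ℕ)
    (hny : (n : ℤ) = sI α i * y + tI α h N i) (j : Option (Fin k)) :
    LZ (uB α) (wB h N) j n = LZ (uO α i) (wO α h N i) j y := by
  unfold LZ uO wO
  rw [hny]
  congr 1
  ring

/-- the form `i` at corresponding points -/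
theorem Fm_corr (α h : Fin k → ℤ) (hα : ∀ i, α i ≠ 0) (N : ℕ) (i : Fin k) (n y : ℕ)
    (hny : (n : ℤ) = sI α i * y + tI α h N i) :
    Fm α h N i n = ((aI α i * y + bI α h N i : ℕ) : ℤ) := by
  have h1 := (bI_spec α h hα N i).2.2
  have h2 := aI_abs α i
  push_cast
  rw [h1, h2]
  unfold Fm
  rw [hny]
  unfold tI sI
  have h4 : α i * (α i).sign = |α i| := by
    rw [mul_comm]
    exact Int.sign_mul_self_eq_abs (α i)
  calc (N : ℤ) + α i * ((α i).sign * y + -((α i).sign * qI α h N i)) + h i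
      = (α i * (α i).sign) * y - (α i * (α i).sign) * qI α h N i + N + h i := by ring
    _ = _ := by rw [h4]; ring

theorem res_own (α h : Fin k → ℤ) (N : ℕ) (i : Fin k) (j l : Option (Fin k)) :
    uO α i j * wO α h N i l - uO α i l * wO α h N i j =
      sI α i * (uB α j * wB h N l - uB α l * wB h N j) := by
  unfold uO wO
  ring

end Pool.Agent.W25.UN
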