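import Mathlib
import Pool.Agent.W25.UN.Own
import Pool.Agent.H361R2.T3

/-! Project UN: the sieve at a fixed `N`. -/

set_option autoImplicit false

namespace Pool.Agent.W25.UN

open Finset Filter Topology
open Pool.Agent.H410R2 hiding GP GP_prof GP_cut_some GP_cut_none GP_lip gg_pos gg_le_one gg_anti ee_bound ee_nonneg gg_lip LB_gg LB_ee Sums exists_sums yx wx wxi Br sum_GP_none sum_GP_some sum_GP_some_ee sum_GP_some_one sum_GPr_none sum_GPr_some S1_final QI_final S2_final w_abs_le wmax gg ee I1 I2 IE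
open Pool.Agent.H361R2.GM
open Pool.Agent.H362R2.CM

open Classical in
/-- the statement of `PS1` for fixed constants -/
def PS1At (κ C0 : ℕ) : Prop := ∀ (ι J : Type) [Fintype ι] [Fintype J]
  (pr : ι → ℕ) (L : J → ℕ → ℕ) (b Jj z0 : ℕ) (P : Finset ℕ) (Om : ℕ → Finset ℕ) (W v : ℕ),
  SieveData ι J pr L 1 → C0 ≤ b → C0 ≤ z0 → (∀ p ∈ P, p.Prime ∧ z0 < p ∧ p ≤ 2 ^ 2 ^ Jj) →
  (∀ p ∈ P, (Om p).card ≤ κ ∧ ∀ c ∈ Om p, c < p) → 1 ≤ W → (∀ p ∈ P, p.Coprime W) →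
  (∀ t, pr t ∉ P ∧ (pr t).Coprime W) →
  ∀ (c : (ι → Option J) → ℝ) (S : Finset ℕ) (wt : ℕ → ℝ) (K Dv : ℝ), (∀ n ∈ S, 0 ≤ wt n) →
    0 ≤ K → 0 ≤ Dv →
    (∀ m : ℕ, 1 ≤ m → ∀ r : ℕ, |∑ n ∈ S.filter (fun n => n ≡ r [MOD m]), wt n - K / m| ≤ Dv) →
    |∑ n ∈ S.filter (fun n => n ≡ v [MOD W] ∧ ∀ p ∈ P, n % p ∉ Om p),
        wt n * (∑ σ, c σ * hN L pr σ n) ^ 2 -
      K / W * Q1f pr c * ∏ p ∈ P, (1 - ((Om p).card : ℝ) / p)| ≤
      (1 / 2 : ℝ) ^ b * (K / W * Q1f pr c * ∏ p ∈ P, (1 - ((Om p).card : ℝ) / p)) +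
        ((Jj : ℝ) + 2) * ((2 : ℝ) ^ 2 ^ Jj) ^ (2 * (C0 * b)) *
          (Dv * (∑ σ, |c σ| * mulc pr (fun p => (p : ℝ) + 1) σ) ^ 2)

open Classical in
/-- the statement of `PS2` for fixed constants -/
def PS2At (κ C0 : ℕ) : Prop := ∀ (ι J : Type) [Fintype ι] [Fintype J]
  (pr : ι → ℕ) (L : J → ℕ → ℕ) (i : J) (b Jj z0 : ℕ) (P : Finset ℕ) (Om : ℕ → Finset ℕ)
  (W v : ℕ), κ ≤ 3 * Fintype.card J →
  SieveData ι J pr L 1 → C0 ≤ b → C0 ≤ z0 → (∀ p ∈ P, p.Prime ∧ z0 < p ∧ p ≤ 2 ^ 2 ^ Jj) →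
  (∀ p ∈ P, (Om p).card ≤ κ ∧ ∀ c ∈ Om p, c < p ∧ ∀ n, n % p = c → ¬ p ∣ L i n) → 1 ≤ W →
  (∀ p ∈ P, p.Coprime W) → (∀ t, pr t ∉ P ∧ (pr t).Coprime W) →
  (∀ n, n ≡ v [MOD W] → (L i n).Coprime W) →
  ∀ (c : (ι → Option J) → ℝ) (R : ℝ), 1 ≤ R → 0 ≤ QI i pr c →
  (∀ σ, |c σ| ≤ mulc pr (fun p => 1 / ((p : ℝ) - 1)) σ) →
  (∀ σ, c σ ≠ 0 → mulc pr (fun p => (p : ℝ)) σ ≤ R) →
  ∀ (S : Finset ℕ) (wt : ℕ → ℝ) (K : ℝ) (Dev : ℕ → ℝ), (∀ n ∈ S, 0 ≤ wt n) → 0 ≤ K →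
    (∀ m, 0 ≤ Dev m) →
    (∀ m : ℕ, Squarefree m → m.Coprime W → ∀ r : ℕ, (L i r).Coprime (W * m) →
      |∑ n ∈ S.filter (fun n => n ≡ r [MOD W * m]), wt n - K / (Nat.totient (W * m) : ℝ)| ≤
        Dev m) →
    |∑ n ∈ S.filter (fun n => n ≡ v [MOD W] ∧ ∀ p ∈ P, n % p ∉ Om p),
        wt n * (∑ σ, c σ * hNI i L pr σ n) ^ 2 -
      K / (Nat.totient W : ℝ) * QI i pr c * ∏ p ∈ P, (1 - ((Om p).card : ℝ) / ((p : ℝ) - 1))| ≤
      (1 / 2 : ℝ) ^ b * (K / (Nat.totient W : ℝ) * QI i pr c *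
        ∏ p ∈ P, (1 - ((Om p).card : ℝ) / ((p : ℝ) - 1))) +
      ((Jj : ℝ) + 2) *
      ((∏ t, (1 + (Fintype.card J : ℝ) / ((pr t : ℝ) - 1)) * ((pr t : ℝ) / ((pr t : ℝ) - 1))) ^ 2 *
      ∑ m ∈ (Icc 1 ⌊((2 : ℝ) ^ 2 ^ Jj) ^ (C0 * b) * R ^ 2⌋₊).filter Squarefree,
        (3 * (Fintype.card J : ℝ)) ^ m.primeFactors.card * Dev m)

theorem ps1At_of (h : PS1) (κ : ℕ) : ∃ C0 : ℕ, 1 ≤ C0 ∧ PS1At κ C0 := h κ
theorem ps2At_of (h : PS2) (κ : ℕ) : ∃ C0 : ℕ, 1 ≤ C0 ∧ PS2At κ C0 := h κ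

variable {k : ℕ}

/-- the arithmetic situation at a fixed `N` -/
structure Hyp (α h : Fin k → ℤ) (D D' N v : ℕ) (P : Finset ℕ) : Prop where
  hα : ∀ i, α i ≠ 0
  hW : 1 ≤ WW D
  tot : (Nat.totient (WW D) : ℝ) = WW D * BD D
  BDpos : 0 < BD D
  hdvd : ∀ p : ℕ, p.Prime → (p ∣ WW D ↔ p ≤ D)
  hDk : 2 * (k + 1) ≤ D
  hDα : ∀ i, (α i).natAbs ≤ D
  hDD : D ≤ D'
  hP : ∀ p ∈ P, p.Prime ∧ D' < p
  hres : ∀ p ∈ P, ∀ j l, j ≠ l → ¬ (p : ℤ) ∣ uB α j * wB h N l - uB α l * wB h N j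
  hv : ∀ j, ∀ n : ℤ, n ≡ v [ZMOD (WW D)] → IsCoprime (uB α j * n + wB h N j) ((WW D : ℕ) : ℤ)

/-- the presieving primes -/
def QQ (D D' : ℕ) : Finset ℕ := (Icc (D + 1) D').filter Nat.Prime

theorem QQ_prime {D D' p : ℕ} (hp : p ∈ QQ D D') : p.Prime ∧ D < p ∧ p ≤ D' := by
  unfold QQ at hp
  rw [Finset.mem_filter, Finset.mem_Icc] at hp
  exact ⟨hp.2, by omega, hp.1.2⟩

/-- the presieving product -/
noncomputable def VV (α h : Fin k → ℤ) (N D D' : ℕ) : ℝ :=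
  ∏ p ∈ QQ D D', (1 - ((Om (uB α) (wB h N) p).card : ℝ) / p)

namespace Hyp

variable {α h : Fin k → ℤ} {D D' N v : ℕ} {P : Finset ℕ}

theorem uB_ndvd (H : Hyp α h D D' N v P) {p : ℕ} (hp : p.Prime) (hD : D < p)
    (j : Option (Fin k)) : ¬ (p : ℤ) ∣ uB α j := by
  rcases j with _ | i
  · unfold uB
    intro h1
    have := Int.natAbs_dvd_natAbs.2 h1
    simp only [Int.natAbs_natCast, Int.natAbs_one, Nat.dvd_one] at this
    exact hp.one_lt.ne' this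
  · unfold uB
    intro h1
    have h2 := Int.natAbs_dvd_natAbs.2 h1
    simp only [Int.natAbs_natCast] at h2
    have h3 := Nat.le_of_dvd (Int.natAbs_pos.2 (H.hα i)) h2
    have h4 := H.hDα i
    omega

theorem uO_ndvd (H : Hyp α h D D' N v P) {p : ℕ} (hp : p.Prime) (hD : D < p) (i : Fin k)
    (j : Option (Fin k)) : ¬ (p : ℤ) ∣ uO α i j := by
  have h1 := H.uB_ndvd hp hD j
  unfold uO
  intro h2
  apply h1
  have h3 := dvd_mul_of_dvd_left h2 (sI α i)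
  rw [mul_assoc, sI_sq α H.hα i, mul_one] at h3
  exact h3

theorem sd0 (hSd : SdLZ) (H : Hyp α h D D' N v P) :
    SieveData (IP P) (Option (Fin k)) (prP P) (LZ (uB α) (wB h N)) 1 :=
  hSd k (uB α) (wB h N) P (fun p hp => (H.hP p hp).1)
    (fun p hp j => H.uB_ndvd (H.hP p hp).1 (by have := (H.hP p hp).2; have := H.hDD; omega) j)
    H.hres

theorem sdO (hSd : SdLZ) (H : Hyp α h D D' N v P) (i : Fin k) :
    SieveData (IP P) (Option (Fin k)) (prP P) (LZ (uO α i) (wO α h N i)) 1 := by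
  refine hSd k (uO α i) (wO α h N i) P (fun p hp => (H.hP p hp).1)
    (fun p hp j => H.uO_ndvd (H.hP p hp).1 (by have := (H.hP p hp).2; have := H.hDD; omega) i j)
    ?_
  intro p hp j l hjl hd
  apply H.hres p hp j l hjl
  rw [res_own] at hd
  have h3 := Dvd.dvd.mul_left hd (sI α i)
  rw [← mul_assoc, sI_sq α H.hα i, one_mul] at h3
  exact h3

theorem QQ_cop (H : Hyp α h D D' N v P) {p : ℕ} (hp : p ∈ QQ D D') : p.Coprime (WW D) := by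
  have h1 := QQ_prime hp
  rw [h1.1.coprime_iff_not_dvd, H.hdvd p h1.1]
  omega

theorem P_cop (H : Hyp α h D D' N v P) (t : IP P) :
    prP P t ∉ QQ D D' ∧ (prP P t).Coprime (WW D) := by
  have h1 := H.hP t.1 t.2
  have h2 := H.hDD
  constructor
  · intro h3
    have h4 := (QQ_prime h3).2.2
    have : prP P t = t.1 := rfl
    omega
  · have h3 : (prP P t).Prime := h1.1
    rw [h3.coprime_iff_not_dvd, H.hdvd _ h3]
    have : prP P t = t.1 := rfl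
    omega

theorem Om_lt {u w : Option (Fin k) → ℤ} {p c : ℕ} (hc : c ∈ Om u w p) : c < p := by
  unfold Om at hc
  rw [Finset.mem_filter, Finset.mem_range] at hc
  exact hc.1

/-- the presieve relation between the two local products -/
theorem VV_eq (hRC : RootsCount) (H : Hyp α h D D' N v P) (i : Fin k) (K : ℝ)
    (hBD : BD D' = BD D * ∏ p ∈ QQ D D', (1 - 1 / (p : ℝ))) (hBD' : 0 < BD D') :
    K / (Nat.totient (WW D) : ℝ) * ∏ p ∈ QQ D D',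
      (1 - ((OmI (some i) (uO α i) (wO α h N i) p).card : ℝ) / ((p : ℝ) - 1)) =
    K * VV α h N D D' / (WW D * BD D') := by
  have hW : (0 : ℝ) < WW D := by exact_mod_cast H.hW
  have hB := H.BDpos
  have h1 : ∀ p ∈ QQ D D',
      (1 - ((OmI (some i) (uO α i) (wO α h N i) p).card : ℝ) / ((p : ℝ) - 1)) *
        (1 - 1 / (p : ℝ)) = 1 - ((Om (uB α) (wB h N) p).card : ℝ) / p := by
    intro p hp
    obtain ⟨hpp, hDp, -⟩ := QQ_prime hp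
    have hp2 : (2 : ℝ) ≤ p := by exact_mod_cast hpp.two_le
    have hp1 : (0 : ℝ) < (p : ℝ) - 1 := by linarith
    have h2 := (hRC k (uO α i) (wO α h N i) p hpp (fun j => H.uO_ndvd hpp hDp i j)).1 (some i)
    have h3 := (hRC k (uB α) (wB h N) p hpp (fun j => H.uB_ndvd hpp hDp j)).2.2.2
      (sI α i) (tI α h N i) (sI_or α H.hα i)
    have h4 : (Om (uO α i) (wO α h N i) p).card = (Om (uB α) (wB h N) p).card := h3
    have h5 : ((OmI (some i) (uO α i) (wO α h N i) p).card : ℝ) =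
        ((Om (uB α) (wB h N) p).card : ℝ) - 1 := by
      rw [← h4, ← h2]
      push_cast
      ring
    rw [h5]
    have := hp1.ne'
    have hp0 : (p : ℝ) ≠ 0 := by linarith
    field_simp
    ring
  have h2 : (∏ p ∈ QQ D D',
      (1 - ((OmI (some i) (uO α i) (wO α h N i) p).card : ℝ) / ((p : ℝ) - 1))) *
        ∏ p ∈ QQ D D', (1 - 1 / (p : ℝ)) = VV α h N D D' := by
    rw [← Finset.prod_mul_distrib]
    exact Finset.prod_congr rfl h1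
  have h3 : ∏ p ∈ QQ D D', (1 - 1 / (p : ℝ)) ≠ 0 := by
    intro h0
    rw [h0, mul_zero] at hBD
    linarith
  rw [H.tot, ← h2, hBD]
  field_simp

end Hyp

end Pool.Agent.W25.UN
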