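import Mathlib
import Pool.Agent.W25.UN.Fix
import Pool.Agent.H362R2.CM.PairS2

/-! Project UN: the presieved sums with tent weights at a fixed `N`. -/

set_option autoImplicit false

namespace Pool.Agent.W25.UN

open Finset Filter Topology
open Pool.Agent.H410R2 hiding GP GP_prof GP_cut_some GP_cut_none GP_lip gg_pos gg_le_one gg_anti ee_bound ee_nonneg gg_lip LB_gg LB_ee Sums exists_sums yx wx wxi Br sum_GP_none sum_GP_some sum_GP_some_ee sum_GP_some_one sum_GPr_none sum_GPr_some S1_final QI_final S2_final w_abs_le wmax gg ee I1 I2 IE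
open Pool.Agent.H361R2.GM
open Pool.Agent.H362R2.CM

variable {k : ℕ}

theorem tn_nonneg (x0 κ y : ℝ) : 0 ≤ tn x0 κ y := le_max_left _ _
theorem lt_nonneg (c Δ r : ℝ) : 0 ≤ lt c Δ r := le_max_left _ _

/-- the index set of the first sum -/
noncomputable def Ns (α h : Fin k → ℤ) (D D' N v X : ℕ) : Finset ℕ :=
  (Icc 1 X).filter (fun n => n ≡ v [MOD (WW D)] ∧
    ∀ p ∈ QQ D D', n % p ∉ Om (uB α) (wB h N) p)

/-- the index set of the second sum in own coordinates -/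
noncomputable def Ys (α h : Fin k → ℤ) (i : Fin k) (D D' N v X : ℕ) : Finset ℕ :=
  (Icc 1 X).filter (fun y => y ≡ v [MOD (WW D)] ∧
    ∀ p ∈ QQ D D', y % p ∉ OmI (some i) (uO α i) (wO α h N i) p)

theorem S1main {C0 : ℕ} (hPS : PS1At (k + 1) C0) (hTn : Tents) (hRC : RootsCount) (hSd : SdLZ)
    {α h : Fin k → ℤ} {D D' N v : ℕ} {P : Finset ℕ} (H : Hyp α h D D' N v P) (Q : SPar)
    (L κ x0 E1 : ℝ) (b Jj X : ℕ) (hb : C0 ≤ b) (hCD : C0 ≤ D) (hJ : D' ≤ 2 ^ 2 ^ Jj)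
    (hκ : 0 < κ) (hx1 : 1 ≤ x0 * Real.exp (-κ)) (hx2 : x0 * Real.exp κ ≤ X)
    (hE1 : ∑ σ, |cw (prP P) (yP Q k P L) σ| * mulc (prP P) (fun p => (p : ℝ) + 1) σ ≤ E1) :
    |∑ n ∈ Ns α h D D' N v X, tn x0 κ n * (wZ Q (uB α) (wB h N) P L n) ^ 2 -
      ts x0 κ / WW D * Q1f (prP P) (cw (prP P) (yP Q k P L)) * VV α h N D D'| ≤
      (1 / 2 : ℝ) ^ b * (ts x0 κ / WW D * Q1f (prP P) (cw (prP P) (yP Q k P L)) *
        VV α h N D D') +
        ((Jj : ℝ) + 2) * ((2 : ℝ) ^ 2 ^ Jj) ^ (2 * (C0 * b)) *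
          (4 / κ * (Real.log (x0 * Real.exp κ) + 1) * E1 ^ 2) := by
  classical
  have hx0 : 0 < x0 := by
    by_contra hc
    have : x0 * Real.exp (-κ) ≤ 0 :=
      mul_nonpos_of_nonpos_of_nonneg (not_lt.1 hc) (Real.exp_pos _).le
    linarith
  have hx3 : 1 ≤ x0 * Real.exp κ := by
    refine hx1.trans ?_
    apply mul_le_mul_of_nonneg_left _ hx0.le
    exact Real.exp_le_exp.2 (by linarith)
  have hts : 0 ≤ ts x0 κ := by
    unfold ts
    have h1 : 0 ≤ Real.exp κ - 2 + Real.exp (-κ) := by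
      have h2 : Real.exp κ * Real.exp (-κ) = 1 := by rw [← Real.exp_add]; simp
      nlinarith [sq_nonneg (Real.exp (κ / 2) - Real.exp (-κ / 2)), Real.exp_pos κ,
        Real.exp_pos (-κ), sq_nonneg (Real.exp κ - 1), sq_nonneg (Real.exp (-κ) - 1)]
    positivity
  have hDv : 0 ≤ 4 / κ * (Real.log (x0 * Real.exp κ) + 1) := by
    have := Real.log_nonneg hx3
    positivity
  have h1 := hPS (IP P) (Option (Fin k)) (prP P) (LZ (uB α) (wB h N)) b Jj D (QQ D D')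
    (Om (uB α) (wB h N)) (WW D) v (H.sd0 hSd) hb hCD
    (fun p hp => by
      have := QQ_prime hp
      exact ⟨this.1, this.2.1, this.2.2.trans hJ⟩)
    (fun p hp => by
      have h2 := QQ_prime hp
      refine ⟨(hRC k _ _ p h2.1 (fun j => H.uB_ndvd h2.1 h2.2.1 j)).2.1, fun c hc => ?_⟩
      exact Hyp.Om_lt hc)
    H.hW (fun p hp => H.QQ_cop hp) H.P_cop (cw (prP P) (yP Q k P L)) (Icc 1 X)
    (fun n => tn x0 κ n) (ts x0 κ) (4 / κ * (Real.log (x0 * Real.exp κ) + 1))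
    (fun n _ => tn_nonneg _ _ _) hts hDv
    (fun m hm r => hTn.2.2.2 x0 κ X hκ hx1 hx2 m r hm)
  have e1 : ∑ σ, |cw (prP P) (yP Q k P L) σ| * mulc (prP P) (fun p => (p : ℝ) + 1) σ =
      ∑ σ, |cw (prP P) (yP Q k P L) σ| * mulc (prP P) (fun p => (p : ℝ) + 1) σ := rfl
  have hE0 : 0 ≤ ∑ σ, |cw (prP P) (yP Q k P L) σ| * mulc (prP P) (fun p => (p : ℝ) + 1) σ := by
    apply Finset.sum_nonneg
    intro σ _
    apply mul_nonneg (abs_nonneg _)
    unfold mulc
    apply Finset.prod_nonneg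
    intro t _
    split_ifs <;> positivity
  have hmono : ((Jj : ℝ) + 2) * ((2 : ℝ) ^ 2 ^ Jj) ^ (2 * (C0 * b)) *
      (4 / κ * (Real.log (x0 * Real.exp κ) + 1) *
        (∑ σ, |cw (prP P) (yP Q k P L) σ| * mulc (prP P) (fun p => (p : ℝ) + 1) σ) ^ 2) ≤
      ((Jj : ℝ) + 2) * ((2 : ℝ) ^ 2 ^ Jj) ^ (2 * (C0 * b)) *
          (4 / κ * (Real.log (x0 * Real.exp κ) + 1) * E1 ^ 2) := by
    gcongr
  refine le_trans ?_ (le_trans h1 ?_)
  · apply le_of_eq
    unfold Ns wZ VV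
    congr
    · funext n
      congr
      all_goals exact Subsingleton.elim _ _
  · refine le_trans (le_of_eq ?_) (add_le_add (le_refl _) hmono)
    unfold VV
    congr
    all_goals exact Subsingleton.elim _ _

/-- nonnegativity of the model form -/
theorem QI_nn {ι J : Type} [Fintype ι] [DecidableEq ι] [Fintype J] [DecidableEq J] (pr : ι → ℕ)
    (i : J) (hpr : ∀ t, Fintype.card J + 1 ≤ pr t) (c : (ι → Option J) → ℝ) : 0 ≤ QI i pr c := by
  have h := Pool.Agent.H361R2.s2Model ι J pr i hpr c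
  have h2 : 0 ≤ QI i pr c := by
    refine le_trans ?_ (le_trans h (le_of_eq (by congr)))
    apply Finset.sum_nonneg
    intro σ _
    apply mul_nonneg (sq_nonneg _)
    unfold mulc
    apply Finset.prod_nonneg
    intro t _
    have h3 : ((Fintype.card J : ℕ) : ℝ) + 1 ≤ (pr t : ℝ) := by exact_mod_cast hpr t
    split_ifs <;> linarith
  exact h2

theorem S2main {C0 : ℕ} (hPS : PS2At (k + 1) C0) (hEq : Eq2) (hRC : RootsCount) (hSd : SdLZ)
    {α h : Fin k → ℤ} {D D' N v : ℕ} {P : Finset ℕ} (H : Hyp α h D D' N v P)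
    (hBD : BD D' = BD D * ∏ p ∈ QQ D D', (1 - 1 / (p : ℝ))) (hBD' : 0 < BD D') (i : Fin k)
    (vi : ℕ) (hvi : ∀ y : ℕ, y ≡ vi [MOD (WW D)] →
      (LZ (uO α i) (wO α h N i) (some i) y).Coprime (WW D))
    (z : (IP P → Option (Option (Fin k))) → ℝ) (Bz : ℝ) (hBz : 0 < Bz) (hz : ∀ σ, |z σ| ≤ Bz)
    (R : ℝ) (hR : 0 ≤ R) (hsupp : ∀ σ, z σ ≠ 0 → lgt (prP P) σ ≤ R)
    (κ x0 : ℝ) (b Jj X : ℕ) (hb : C0 ≤ b) (hCD : C0 ≤ D) (hJ : D' ≤ 2 ^ 2 ^ Jj)
    (hκ : 0 < κ) (hx1 : 1 ≤ x0 * Real.exp (-κ)) (hx2 : x0 * Real.exp κ ≤ X)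
    (hM : 0 ≤ Mt (aI α i) x0 κ) :
    |∑ y ∈ Ys α h i D D' N vi X,
        (tn x0 κ (((aI α i * y + bI α h N i : ℕ) : ℝ) / aI α i) *
          ArithmeticFunction.vonMangoldt (aI α i * y + bI α h N i)) *
            (wIZ (uO α i) (wO α h N i) P i z y) ^ 2 -
      Mt (aI α i) x0 κ * VV α h N D D' / (WW D * BD D') *
        QI (some i) (prP P) (cw (prP P) z)| ≤
      (1 / 2 : ℝ) ^ b * (Mt (aI α i) x0 κ * VV α h N D D' / (WW D * BD D') *
        QI (some i) (prP P) (cw (prP P) z)) +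
      Bz ^ 2 * (((Jj : ℝ) + 2) *
      ((∏ t : IP P, (1 + ((k + 1 : ℕ) : ℝ) / ((prP P t : ℝ) - 1)) *
        ((prP P t : ℝ) / ((prP P t : ℝ) - 1))) ^ 2 *
      ∑ m ∈ (Icc 1 ⌊((2 : ℝ) ^ 2 ^ Jj) ^ (C0 * b) * (Real.exp R) ^ 2⌋₊).filter Squarefree,
        (3 * ((k + 1 : ℕ) : ℝ)) ^ m.primeFactors.card *
          Dev (aI α i) (bI α h N i) x0 κ (WW D * m))) := by
  classical
  have hsd := H.sdO hSd i
  have hDD := H.hDD
  have hDk := H.hDk
  have hp2 : ∀ t : IP P, 2 ≤ prP P t := fun t => (H.hP t.1 t.2).1.two_le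
  have hp0 : ∀ t : IP P, 0 < prP P t := fun t => by have := hp2 t; omega
  have hpJ : ∀ t : IP P, Fintype.card (Option (Fin k)) + 1 ≤ prP P t := by
    intro t
    rw [cardJ]
    have h1 := (H.hP t.1 t.2).2
    have : prP P t = t.1 := rfl
    omega
  have hmn : ∀ σ : IP P → Option (Option (Fin k)),
      0 ≤ mulc (prP P) (fun p => 1 / ((p : ℝ) - 1)) σ := by
    intro σ
    unfold mulc
    apply Finset.prod_nonneg
    intro t _
    split_ifs
    · norm_num
    · have : (2 : ℝ) ≤ (prP P t : ℝ) := by exact_mod_cast hp2 t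
      have h3 : 0 < (prP P t : ℝ) - 1 := by linarith
      positivity
  obtain ⟨hb1, hb2, -⟩ := bI_spec α h H.hα N i
  have ha1 := aI_pos α H.hα i
  have haW : ∀ p : ℕ, p.Prime → p ∣ aI α i → p ∣ WW D := by
    intro p hp hd
    rw [H.hdvd p hp]
    have h1 := Nat.le_of_dvd ha1 hd
    have h2 := H.hDα i
    unfold aI at h1
    omega
  obtain ⟨hDev0, hEqm⟩ := hEq (aI α i) (bI α h N i) (WW D) x0 κ X ha1 hb1 H.hW haW hκ hx1 hx2
  have h1 := hPS (IP P) (Option (Fin k)) (prP P) (LZ (uO α i) (wO α h N i)) (some i) b Jj D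
    (QQ D D') (OmI (some i) (uO α i) (wO α h N i)) (WW D) vi (by rw [cardJ]; omega) hsd hb hCD
    (fun p hp => by
      have := QQ_prime hp
      exact ⟨this.1, this.2.1, this.2.2.trans hJ⟩)
    (fun p hp => by
      have h2 := QQ_prime hp
      have h3 := hRC k (uO α i) (wO α h N i) p h2.1 (fun j => H.uO_ndvd h2.1 h2.2.1 i j)
      refine ⟨by have := h3.1 (some i); have := h3.2.1; omega, fun c hc => ?_⟩
      unfold OmI at hc
      rw [Finset.mem_filter, Finset.mem_range] at hc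
      refine ⟨hc.1, fun n hn hd => hc.2.2 ?_⟩
      rw [← h3.2.2.1 (some i) n c (by unfold Nat.ModEq; rw [hn, Nat.mod_eq_of_lt hc.1])]
      exact hd)
    H.hW (fun p hp => H.QQ_cop hp) H.P_cop hvi
    (fun σ => cw (prP P) z σ / Bz) (Real.exp R) (Real.one_le_exp hR)
    (by
      have h2 := QI_nn (prP P) (some i) hpJ (fun σ => cw (prP P) z σ / Bz)
      refine le_trans h2 (le_of_eq (by congr)))
    (fun σ => by
      rw [abs_div, abs_cw _ hp2, abs_of_pos hBz, mul_div_assoc]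
      apply mul_le_of_le_one_right (hmn σ)
      rw [div_le_one hBz]
      exact hz σ)
    (fun σ hσ => by
      rw [mulc_exp _ hp0]
      apply Real.exp_le_exp.2
      apply hsupp
      intro h0
      apply hσ
      unfold cw
      rw [h0, mul_zero, zero_div])
    (Icc 1 X) (fun y => tn x0 κ (((aI α i * y + bI α h N i : ℕ) : ℝ) / aI α i) *
      ArithmeticFunction.vonMangoldt (aI α i * y + bI α h N i)) (Mt (aI α i) x0 κ)
    (fun m => Dev (aI α i) (bI α h N i) x0 κ (WW D * m))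
    (fun y _ => mul_nonneg (tn_nonneg _ _ _) ArithmeticFunction.vonMangoldt_nonneg) hM
    (fun m => hDev0 _)
    (fun m hm hmW r hr => by
      rw [LZ_own α h H.hα N i r] at hr
      refine hEqm (WW D * m) r (Dvd.intro _ rfl) ?_ hr
      have := H.hW
      have := hm.ne_zero
      exact Nat.one_le_iff_ne_zero.2 (Nat.mul_ne_zero (by omega) this))
  have hB2 : 0 < Bz ^ 2 := by positivity
  have hVV := H.VV_eq hRC i (Mt (aI α i) x0 κ) hBD hBD'
  have hq : QI (some i) (prP P) (fun σ => cw (prP P) z σ / Bz) =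
      QI (some i) (prP P) (cw (prP P) z) / Bz ^ 2 := QI_smul _ _ _ _
  have e1 : ∀ n : ℕ, (∑ σ, cw (prP P) z σ / Bz * hNI (some i) (LZ (uO α i) (wO α h N i))
      (prP P) σ n) ^ 2 = (wIZ (uO α i) (wO α h N i) P i z n) ^ 2 / Bz ^ 2 := by
    intro n
    rw [← div_pow]
    congr 1
    unfold wIZ
    rw [Finset.sum_div]
    refine Finset.sum_congr rfl fun σ _ => ?_
    ring
  set S0 : ℝ := ∑ y ∈ Ys α h i D D' N vi X,
        (tn x0 κ (((aI α i * y + bI α h N i : ℕ) : ℝ) / aI α i) *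
          ArithmeticFunction.vonMangoldt (aI α i * y + bI α h N i)) *
            (wIZ (uO α i) (wO α h N i) P i z y) ^ 2 with hS0
  set M0 : ℝ := Mt (aI α i) x0 κ * VV α h N D D' / (WW D * BD D') *
        QI (some i) (prP P) (cw (prP P) z) with hM0
  set EE : ℝ := (((Jj : ℝ) + 2) *
      ((∏ t : IP P, (1 + ((k + 1 : ℕ) : ℝ) / ((prP P t : ℝ) - 1)) *
        ((prP P t : ℝ) / ((prP P t : ℝ) - 1))) ^ 2 *
      ∑ m ∈ (Icc 1 ⌊((2 : ℝ) ^ 2 ^ Jj) ^ (C0 * b) * (Real.exp R) ^ 2⌋₊).filter Squarefree,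
        (3 * ((k + 1 : ℕ) : ℝ)) ^ m.primeFactors.card *
          Dev (aI α i) (bI α h N i) x0 κ (WW D * m))) with hEE
  have h2 : |S0 / Bz ^ 2 - M0 / Bz ^ 2| ≤ (1 / 2 : ℝ) ^ b * (M0 / Bz ^ 2) + EE := by
    have eS : S0 / Bz ^ 2 = ∑ n ∈ (Icc 1 X).filter (fun n => n ≡ vi [MOD (WW D)] ∧
        ∀ p ∈ QQ D D', n % p ∉ OmI (some i) (uO α i) (wO α h N i) p),
        (tn x0 κ (((aI α i * n + bI α h N i : ℕ) : ℝ) / aI α i) *
          ArithmeticFunction.vonMangoldt (aI α i * n + bI α h N i)) *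
          (∑ σ, cw (prP P) z σ / Bz * hNI (some i) (LZ (uO α i) (wO α h N i))
            (prP P) σ n) ^ 2 := by
      simp_rw [e1]
      rw [hS0, Finset.sum_div]
      unfold Ys
      apply Finset.sum_congr
      · congr
      · intro y _
        ring
    have eM : M0 / Bz ^ 2 = Mt (aI α i) x0 κ / (Nat.totient (WW D) : ℝ) *
        QI (some i) (prP P) (fun σ => cw (prP P) z σ / Bz) * ∏ p ∈ QQ D D',
        (1 - ((OmI (some i) (uO α i) (wO α h N i) p).card : ℝ) / ((p : ℝ) - 1)) := by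
      rw [hq, hM0, ← hVV]
      ring
    rw [eS, eM]
    refine le_trans (le_of_eq ?_) (le_trans h1 (le_of_eq ?_))
    · congr
      · funext n
        congr
        · exact Subsingleton.elim _ _
        · funext σ
          congr
          all_goals exact Subsingleton.elim _ _
      all_goals exact Subsingleton.elim _ _
    · rw [hEE]
      congr
      · simp
      · simp
  rw [← sub_div, abs_div, abs_of_pos hB2, div_le_iff₀ hB2] at h2
  calc |S0 - M0| ≤ ((1 / 2 : ℝ) ^ b * (M0 / Bz ^ 2) + EE) * Bz ^ 2 := h2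
    _ = (1 / 2 : ℝ) ^ b * M0 + Bz ^ 2 * EE := by
      field_simp

end Pool.Agent.W25.UN
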