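import Mathlib
import Pool.Agent.W25.UN.S12
import Pool.Agent.H361R2.GFinC

/-! Project UN: from primes to the presieved sums in own coordinates, fixed `N`. -/

set_option autoImplicit false

namespace Pool.Agent.W25.UN

open Finset Filter Topology
open Pool.Agent.H410R2 hiding GP GP_prof GP_cut_some GP_cut_none GP_lip gg_pos gg_le_one gg_anti ee_bound ee_nonneg gg_lip LB_gg LB_ee Sums exists_sums yx wx wxi Br sum_GP_none sum_GP_some sum_GP_some_ee sum_GP_some_one sum_GPr_none sum_GPr_some S1_final QI_final S2_final w_abs_le wmax gg ee I1 I2 IE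
open Pool.Agent.H361R2.GM
open Pool.Agent.H362R2.CM

variable {k : ℕ}

theorem hlI_congr {J : Type} [DecidableEq J] (i : J) (L L' : J → ℕ → ℕ) (p n n' : ℕ)
    (h : ∀ l, L l n = L' l n') (o : Option J) : hlI i L p n o = hlI i L' p n' o := by
  rcases o with _ | j
  · rfl
  · simp only [hlI, h j]

theorem wIZ_congr {u w u' w' : Option (Fin k) → ℤ} (P : Finset ℕ) (i : Fin k)
    (y : (IP P → Option (Option (Fin k))) → ℝ) (n n' : ℕ)
    (h : ∀ l, LZ u w l n = LZ u' w' l n') : wIZ u w P i y n = wIZ u' w' P i y n' := by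
  unfold wIZ
  refine Finset.sum_congr rfl fun σ _ => ?_
  congr 1
  unfold hNI
  refine Finset.prod_congr rfl fun t _ => ?_
  exact hlI_congr _ _ _ _ _ _ h _

/-- geometric data at a fixed `N` -/
structure Geo (α h : Fin k → ℤ) (D D' N v : ℕ) (P : Finset ℕ) (n0 Δ : ℝ) (X : ℕ)
    (x0 : Fin k → ℝ) (Xi : Fin k → ℕ) (vi : Fin k → ℕ) : Prop where
  g0 : 0 < Δ
  g1 : Δ < n0
  nX : n0 + Δ ≤ X
  XN : X ≤ N
  hx0 : ∀ i, (aI α i : ℝ) * x0 i = N + α i * n0 + h i
  hXi : ∀ i, x0 i + Δ ≤ Xi i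
  big1 : ∀ i, (D' : ℝ) + aI α i + 1 < aI α i * (x0 i - Δ)
  big2 : ∀ i, ∀ p ∈ P, (p : ℝ) < aI α i * (x0 i - Δ)
  vi1 : ∀ i, ∀ y : ℤ, y ≡ (vi i : ℤ) [ZMOD (WW D)] ↔
    sI α i * y + tI α h N i ≡ (v : ℤ) [ZMOD (WW D)]

variable {α h : Fin k → ℤ} {D D' N v : ℕ} {P : Finset ℕ} {n0 Δ : ℝ} {X : ℕ}
    {x0 : Fin k → ℝ} {Xi : Fin k → ℕ} {vi : Fin k → ℕ}

theorem corr_real (H : Hyp α h D D' N v P) (G : Geo α h D D' N v P n0 Δ X x0 Xi vi) (i : Fin k)
    (n y : ℕ) (hny : (n : ℤ) = sI α i * y + tI α h N i) :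
    |((aI α i * y + bI α h N i : ℕ) : ℝ) / aI α i - x0 i| = |(n : ℝ) - n0| := by
  have ha : (0 : ℝ) < aI α i := by exact_mod_cast aI_pos α H.hα i
  have h1 := Fm_corr α h H.hα N i n y hny
  have h2 : ((aI α i * y + bI α h N i : ℕ) : ℝ) = N + α i * n + h i := by
    have h3 : (((aI α i * y + bI α h N i : ℕ) : ℤ) : ℝ) = ((Fm α h N i n : ℤ) : ℝ) := by
      rw [h1]
    rw [Int.cast_natCast] at h3
    rw [h3]
    unfold Fm
    push_cast
    ring
  have h3 : ((aI α i * y + bI α h N i : ℕ) : ℝ) / aI α i - x0 i =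
      (α i : ℝ) / aI α i * (n - n0) := by
    have h4 := G.hx0 i
    rw [h2]
    field_simp
    linarith
  rw [h3, abs_mul]
  have h5 : |(α i : ℝ) / aI α i| = 1 := by
    rw [abs_div, abs_of_pos ha]
    have h6 : |(α i : ℝ)| = aI α i := by
      have := aI_abs α i
      rw [← Int.cast_abs, ← this, Int.cast_natCast]
    rw [h6]
    exact div_self ha.ne'
  rw [h5, one_mul]

theorem corr_lt (H : Hyp α h D D' N v P) (G : Geo α h D D' N v P n0 Δ X x0 Xi vi) (i : Fin k)
    (n y : ℕ) (hny : (n : ℤ) = sI α i * y + tI α h N i) :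
    lt (x0 i) Δ (((aI α i * y + bI α h N i : ℕ) : ℝ) / aI α i) = lt n0 Δ n := by
  unfold lt
  rw [corr_real H G i n y hny]

theorem lt_pos_iff {c Δ r : ℝ} (hΔ : 0 < Δ) (h : lt c Δ r ≠ 0) : |r - c| < Δ := by
  by_contra hc
  apply h
  unfold lt
  apply max_eq_left
  have : 1 ≤ |r - c| / Δ := by
    rw [le_div_iff₀ hΔ]
    linarith [not_lt.1 hc]
  linarith

theorem lt_le_one (c Δ r : ℝ) (hΔ : 0 < Δ) : lt c Δ r ≤ 1 := by
  unfold lt
  apply max_le (by norm_num)
  have : 0 ≤ |r - c| / Δ := by positivity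
  linarith

/-- if the tent is positive then the form is large -/
theorem form_big (H : Hyp α h D D' N v P) (i : Fin k) (y : ℕ) (hy : |((aI α i * y +
    bI α h N i : ℕ) : ℝ) / aI α i - x0 i| < Δ) :
    aI α i * (x0 i - Δ) < ((aI α i * y + bI α h N i : ℕ) : ℝ) ∧
    ((aI α i * y + bI α h N i : ℕ) : ℝ) < aI α i * (x0 i + Δ) := by
  have ha : (0 : ℝ) < aI α i := by exact_mod_cast aI_pos α H.hα i
  have h1 := abs_lt.1 hy
  have e : ((aI α i * y + bI α h N i : ℕ) : ℝ) = aI α i *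
      (((aI α i * y + bI α h N i : ℕ) : ℝ) / aI α i) := by field_simp
  constructor
  · rw [e]
    apply mul_lt_mul_of_pos_left _ ha
    linarith
  · rw [e]
    apply mul_lt_mul_of_pos_left _ ha
    linarith

theorem vi_nat (G : Geo α h D D' N v P n0 Δ X x0 Xi vi) (i : Fin k) (n y : ℕ)
    (hny : (n : ℤ) = sI α i * y + tI α h N i) :
    y ≡ vi i [MOD (WW D)] ↔ n ≡ v [MOD (WW D)] := by
  have h1 := G.vi1 i (y : ℤ)
  rw [← hny] at h1
  rw [← Int.natCast_modEq_iff, ← Int.natCast_modEq_iff]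
  exact h1

/-- the presieve conditions correspond when the form `i` is free of presieve primes -/
theorem sieve_corr (hRC : RootsCount) (H : Hyp α h D D' N v P) (i : Fin k) (n y : ℕ)
    (hny : (n : ℤ) = sI α i * y + tI α h N i)
    (hF : ∀ p ∈ QQ D D', ¬ p ∣ aI α i * y + bI α h N i) :
    (∀ p ∈ QQ D D', y % p ∉ OmI (some i) (uO α i) (wO α h N i) p) ↔
      (∀ p ∈ QQ D D', n % p ∉ Om (uB α) (wB h N) p) := by
  have key : ∀ p ∈ QQ D D', (y % p ∈ OmI (some i) (uO α i) (wO α h N i) p ↔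
      n % p ∈ Om (uB α) (wB h N) p) := by
    intro p hp
    obtain ⟨hpp, hDp, -⟩ := QQ_prime hp
    have hO := (hRC k (uO α i) (wO α h N i) p hpp (fun j => H.uO_ndvd hpp hDp i j)).2.2.1
    have hB := (hRC k (uB α) (wB h N) p hpp (fun j => H.uB_ndvd hpp hDp j)).2.2.1
    have hc := LZ_corr α h N i n y hny
    have hi : ¬ p ∣ LZ (uO α i) (wO α h N i) (some i) (y % p) := by
      rw [hO (some i) (y % p) y (Nat.mod_modEq y p), LZ_own α h H.hα N i y]
      exact hF p hp
    unfold OmI Om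
    rw [Finset.mem_filter, Finset.mem_filter, Finset.mem_range, Finset.mem_range]
    have h1 : y % p < p := Nat.mod_lt _ hpp.pos
    have h2 : n % p < p := Nat.mod_lt _ hpp.pos
    have h3 : ∀ j, (p ∣ LZ (uO α i) (wO α h N i) j (y % p) ↔
        p ∣ LZ (uB α) (wB h N) j (n % p)) := by
      intro j
      rw [hO j (y % p) y (Nat.mod_modEq y p), hB j (n % p) n (Nat.mod_modEq n p), hc j]
    constructor
    · rintro ⟨-, ⟨j, hj⟩, -⟩
      exact ⟨h2, j, (h3 j).1 hj⟩
    · rintro ⟨-, j, hj⟩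
      exact ⟨h1, ⟨j, (h3 j).2 hj⟩, hi⟩
  constructor
  · intro h1 p hp h2
    exact h1 p hp ((key p hp).2 h2)
  · intro h1 p hp h2
    exact h1 p hp ((key p hp).1 h2)

/-- the upper conversion, for pairs -/
theorem conv_up (hRC : RootsCount) (hWE : WEq) (H : Hyp α h D D' N v P)
    (G : Geo α h D D' N v P n0 Δ X x0 Xi vi) (Q : SPar) (L Λ lo : ℝ) (hΛ : 0 ≤ Λ) (i j : Fin k)
    (hij : i ≠ j) (hlo : lo ≤ Real.log (aI α i * (x0 i - Δ)))
    (hF1 : ∀ n : ℕ, |(n : ℝ) - n0| < Δ → (Fm α h N j n).toNat.Prime →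
      ∀ p ∈ P, ¬ p ∣ LZ (uB α) (wB h N) (some j) n) :
    lo * ∑ n ∈ Ns α h D D' N v X, (if (Fm α h N i n).toNat.Prime ∧
      (Fm α h N j n).toNat.Prime then lt n0 Δ n * (wZ Q (uB α) (wB h N) P L n) ^ 2 else 0) ≤
    ∑ y ∈ Ys α h i D D' N (vi i) (Xi i),
      (lt (x0 i) Δ (((aI α i * y + bI α h N i : ℕ) : ℝ) / aI α i) *
        ArithmeticFunction.vonMangoldt (aI α i * y + bI α h N i)) *
          (wIZ (uO α i) (wO α h N i) P i (zP Q k P L Λ j) y) ^ 2 := by
  classical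
  have ha : (0 : ℝ) < aI α i := by exact_mod_cast aI_pos α H.hα i
  set A : Finset ℕ := (Ns α h D D' N v X).filter (fun n : ℕ => ((Fm α h N i n).toNat.Prime ∧
      (Fm α h N j n).toNat.Prime) ∧ lt n0 Δ n ≠ 0) with hA
  set f : ℕ → ℝ := fun y => (lt (x0 i) Δ (((aI α i * y + bI α h N i : ℕ) : ℝ) / aI α i) *
        ArithmeticFunction.vonMangoldt (aI α i * y + bI α h N i)) *
          (wIZ (uO α i) (wO α h N i) P i (zP Q k P L Λ j) y) ^ 2 with hf
  set ψ : ℕ → ℕ := fun n => (sI α i * ((n : ℤ) - tI α h N i)).toNat with hψ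
  have hf0 : ∀ y, 0 ≤ f y := fun y => mul_nonneg (mul_nonneg (lt_nonneg _ _ _)
    ArithmeticFunction.vonMangoldt_nonneg) (sq_nonneg _)
  have hs := sI_sq α H.hα i
  obtain ⟨hb1, hb2, hb3⟩ := bI_spec α h H.hα N i
  have haa := aI_abs α i
  -- the corresponding point
  have hcor : ∀ n ∈ A, (n : ℤ) = sI α i * (ψ n : ℕ) + tI α h N i ∧ 1 ≤ ψ n := by
    intro n hn
    rw [hA, Finset.mem_filter] at hn
    obtain ⟨hnN, ⟨hp1, hp2⟩, hlt⟩ := hn
    have hd := lt_pos_iff G.g0 hlt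
    -- the form is large
    have hFr : ((Fm α h N i n : ℤ) : ℝ) = aI α i * x0 i + α i * (n - n0) := by
      rw [G.hx0 i]
      unfold Fm
      push_cast
      ring
    have habs : |(α i : ℝ)| = aI α i := by
      rw [← Int.cast_abs, ← haa, Int.cast_natCast]
    have h1 : (aI α i : ℝ) * (x0 i - Δ) < ((Fm α h N i n : ℤ) : ℝ) := by
      rw [hFr]
      have h2 : -(aI α i * Δ) < α i * ((n : ℝ) - n0) := by
        have h3 : |α i * ((n : ℝ) - n0)| < aI α i * Δ := by
          rw [abs_mul, habs]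
          exact mul_lt_mul_of_pos_left hd ha
        exact (abs_lt.1 h3).1
      linarith
    have h2 := G.big1 i
    have h3 : ((aI α i : ℕ) : ℝ) < ((Fm α h N i n : ℤ) : ℝ) := by
      have : (0 : ℝ) ≤ D' := Nat.cast_nonneg _
      linarith
    have h4 : ((aI α i : ℕ) : ℤ) < Fm α h N i n := by exact_mod_cast h3
    -- compute the form at the candidate
    have h5 : Fm α h N i n = |α i| * (sI α i * ((n : ℤ) - tI α h N i)) + bI α h N i := by
      rw [hb3]
      have h6 : α i = |α i| * sI α i := by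
        unfold sI
        exact (mul_comm _ _).trans (Int.sign_mul_abs (α i)) |>.symm
      have h7 : sI α i * tI α h N i = - qI α h N i := by
        unfold tI
        calc sI α i * -(sI α i * qI α h N i) = -((sI α i * sI α i) * qI α h N i) := by ring
          _ = _ := by rw [hs]; ring
      unfold Fm
      calc (N : ℤ) + α i * n + h i = N + h i + (|α i| * sI α i) * n := by rw [← h6]; ring
        _ = |α i| * (sI α i * (n - tI α h N i)) +
            (N + h i - |α i| * qI α h N i) := by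
          have : |α i| * (sI α i * ((n : ℤ) - tI α h N i)) = |α i| * sI α i * n -
              |α i| * (sI α i * tI α h N i) := by ring
          rw [this, h7]
          ring
    have h6 : 0 < sI α i * ((n : ℤ) - tI α h N i) := by
      by_contra hc
      have h7 : |α i| * (sI α i * ((n : ℤ) - tI α h N i)) ≤ 0 :=
        mul_nonpos_of_nonneg_of_nonpos (abs_nonneg _) (not_lt.1 hc)
      have h8 : ((bI α h N i : ℕ) : ℤ) ≤ (aI α i : ℕ) := by exact_mod_cast hb2
      linarith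
    have h7 : ((ψ n : ℕ) : ℤ) = sI α i * ((n : ℤ) - tI α h N i) := by
      simp only [hψ]
      exact Int.toNat_of_nonneg h6.le
    constructor
    · rw [h7, ← mul_assoc, hs]
      ring
    · have : (1 : ℤ) ≤ (ψ n : ℕ) := by rw [h7]; linarith
      exact_mod_cast this
  have hinj : Set.InjOn ψ A := by
    intro n hn m hm hnm
    have h1 := (hcor n hn).1
    have h2 := (hcor m hm).1
    rw [hnm] at h1
    have : (n : ℤ) = m := by rw [h1, h2]
    exact_mod_cast this
  have hterm : ∀ n ∈ A, ψ n ∈ Ys α h i D D' N (vi i) (Xi i) ∧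
      lo * (lt n0 Δ n * (wZ Q (uB α) (wB h N) P L n) ^ 2) ≤ f (ψ n) := by
    intro n hn
    obtain ⟨hc1, hc2⟩ := hcor n hn
    rw [hA, Finset.mem_filter] at hn
    obtain ⟨hnN, ⟨hp1, hp2⟩, hlt⟩ := hn
    have hd := lt_pos_iff G.g0 hlt
    unfold Ns at hnN
    rw [Finset.mem_filter, Finset.mem_Icc] at hnN
    have hFc := Fm_corr α h H.hα N i n (ψ n) hc1
    have hFn : (Fm α h N i n).toNat = aI α i * ψ n + bI α h N i := by
      rw [hFc]
      exact Int.toNat_natCast _
    rw [hFn] at hp1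
    have hr := corr_real H G i n (ψ n) hc1
    have hr2 : |((aI α i * ψ n + bI α h N i : ℕ) : ℝ) / aI α i - x0 i| < Δ := by
      rw [hr]; exact hd
    obtain ⟨hbig, hbig'⟩ := form_big H i (ψ n) hr2
    have hD' : (0 : ℝ) ≤ D' := Nat.cast_nonneg _
    have hFP : ∀ p ∈ P, ¬ p ∣ aI α i * ψ n + bI α h N i := by
      intro p hp hd'
      have h1 := (Nat.prime_dvd_prime_iff_eq (H.hP p hp).1 hp1).1 hd'
      have h2 := G.big2 i p hp
      have h3 : ((p : ℕ) : ℝ) = ((aI α i * ψ n + bI α h N i : ℕ) : ℝ) := by rw [← h1]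
      linarith
    have hFQ : ∀ p ∈ QQ D D', ¬ p ∣ aI α i * ψ n + bI α h N i := by
      intro p hp hd'
      have h1 := (Nat.prime_dvd_prime_iff_eq (QQ_prime hp).1 hp1).1 hd'
      have h2 := (QQ_prime hp).2.2
      have h3 : ((p : ℕ) : ℝ) = ((aI α i * ψ n + bI α h N i : ℕ) : ℝ) := by rw [← h1]
      have h4 : (p : ℝ) ≤ D' := by exact_mod_cast h2
      have h5 := G.big1 i
      have h6 : (0 : ℝ) ≤ aI α i := ha.le
      linarith
    constructor
    · unfold Ys
      rw [Finset.mem_filter, Finset.mem_Icc]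
      refine ⟨⟨hc2, ?_⟩, (vi_nat G i n (ψ n) hc1).2 hnN.2.1,
        (sieve_corr hRC H i n (ψ n) hc1 hFQ).2 hnN.2.2⟩
      have h1 : ((ψ n : ℕ) : ℝ) ≤ Xi i := by
        have h2 : (aI α i : ℝ) * (ψ n : ℕ) ≤ ((aI α i * ψ n + bI α h N i : ℕ) : ℝ) := by
          push_cast
          have : (0 : ℝ) ≤ bI α h N i := Nat.cast_nonneg _
          linarith
        have h3 : (aI α i : ℝ) * (ψ n : ℕ) < aI α i * (x0 i + Δ) := lt_of_le_of_lt h2 hbig'
        have h4 := lt_of_mul_lt_mul_left h3 ha.le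
        have h5 := G.hXi i
        linarith
      exact_mod_cast h1
    · simp only [hf]
      rw [corr_lt H G i n (ψ n) hc1, ArithmeticFunction.vonMangoldt_apply_prime hp1]
      have hw : wIZ (uO α i) (wO α h N i) P i (zP Q k P L Λ j) (ψ n) =
          wZ Q (uB α) (wB h N) P L n := by
        have hl := LZ_corr α h N i n (ψ n) hc1
        refine (hWE k Q (uB α) (wB h N) (uO α i) (wO α h N i) P L Λ n (ψ n) i j
          (fun p hp => (H.hP p hp).1.two_le) hΛ hij hl ?_).2 (hF1 n hd hp2)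
        intro p hp
        rw [hl (some i), LZ_own α h H.hα N i (ψ n)]
        exact hFP p hp
      rw [hw]
      have h1 : lo ≤ Real.log ((aI α i * ψ n + bI α h N i : ℕ) : ℝ) := by
        refine hlo.trans ?_
        apply Real.log_le_log _ hbig.le
        have := G.big1 i
        linarith
      have h2 : 0 ≤ lt n0 Δ n * (wZ Q (uB α) (wB h N) P L n) ^ 2 :=
        mul_nonneg (lt_nonneg _ _ _) (sq_nonneg _)
      calc lo * (lt n0 Δ n * (wZ Q (uB α) (wB h N) P L n) ^ 2)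
          ≤ Real.log ((aI α i * ψ n + bI α h N i : ℕ) : ℝ) *
            (lt n0 Δ n * (wZ Q (uB α) (wB h N) P L n) ^ 2) :=
            mul_le_mul_of_nonneg_right h1 h2
        _ = _ := by ring
  calc lo * ∑ n ∈ Ns α h D D' N v X, (if (Fm α h N i n).toNat.Prime ∧
      (Fm α h N j n).toNat.Prime then lt n0 Δ n * (wZ Q (uB α) (wB h N) P L n) ^ 2 else 0)
      = ∑ n ∈ A, lo * (lt n0 Δ n * (wZ Q (uB α) (wB h N) P L n) ^ 2) := by
        rw [hA, Finset.sum_filter, Finset.mul_sum]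
        refine Finset.sum_congr rfl fun n _ => ?_
        by_cases h1 : (Fm α h N i n).toNat.Prime ∧ (Fm α h N j n).toNat.Prime
        · by_cases h2 : lt n0 Δ n = 0
          · rw [if_pos h1, if_neg (by tauto), h2, zero_mul, mul_zero]
          · rw [if_pos h1, if_pos ⟨h1, h2⟩]
        · rw [if_neg h1, if_neg (by tauto), mul_zero]
    _ ≤ ∑ n ∈ A, f (ψ n) := Finset.sum_le_sum fun n hn => (hterm n hn).2
    _ = ∑ y ∈ A.image ψ, f y := (Finset.sum_image hinj).symm
    _ ≤ ∑ y ∈ Ys α h i D D' N (vi i) (Xi i), f y := by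
        apply Finset.sum_le_sum_of_subset_of_nonneg
        · intro y hy
          obtain ⟨n, hn, rfl⟩ := Finset.mem_image.1 hy
          exact (hterm n hn).1
        · intro y _ _
          exact hf0 y

end Pool.Agent.W25.UN
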