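import Mathlib
import Pool.Agent.W25.UN.Conv

/-! Project UN: the lower conversion. -/

set_option autoImplicit false

namespace Pool.Agent.W25.UN

open Finset Filter Topology
open Pool.Agent.H410R2 hiding GP GP_prof GP_cut_some GP_cut_none GP_lip gg_pos gg_le_one gg_anti ee_bound ee_nonneg gg_lip LB_gg LB_ee Sums exists_sums yx wx wxi Br sum_GP_none sum_GP_some sum_GP_some_ee sum_GP_some_one sum_GPr_none sum_GPr_some S1_final QI_final S2_final w_abs_le wmax gg ee I1 I2 IE
open Pool.Agent.H361R2.GM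
open Pool.Agent.H362R2.CM

variable {k : ℕ}

variable {α h : Fin k → ℤ} {D D' N v : ℕ} {P : Finset ℕ} {n0 Δ : ℝ} {X : ℕ}
    {x0 : Fin k → ℝ} {Xi : Fin k → ℕ} {vi : Fin k → ℕ}

theorem Fm_corrZ (hα : ∀ i, α i ≠ 0) (i : Fin k) (n : ℤ) (y : ℕ)
    (hny : n = sI α i * y + tI α h N i) :
    Fm α h N i n = ((aI α i * y + bI α h N i : ℕ) : ℤ) := by
  have h1 := (bI_spec α h hα N i).2.2
  have h2 := aI_abs α i
  push_cast
  rw [h1, h2]
  unfold Fm
  rw [hny]
  unfold tI sI
  have h4 : α i * (α i).sign = |α i| := by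
    rw [mul_comm]
    exact Int.sign_mul_self_eq_abs (α i)
  calc (N : ℤ) + α i * ((α i).sign * y + -((α i).sign * qI α h N i)) + h i
      = (α i * (α i).sign) * y - (α i * (α i).sign) * qI α h N i + N + h i := by ring
    _ = _ := by rw [h4]; ring

theorem corr_realZ (H : Hyp α h D D' N v P) (G : Geo α h D D' N v P n0 Δ X x0 Xi vi) (i : Fin k)
    (n : ℤ) (y : ℕ) (hny : n = sI α i * y + tI α h N i) :
    |((aI α i * y + bI α h N i : ℕ) : ℝ) / aI α i - x0 i| = |(n : ℝ) - n0| := by
  have ha : (0 : ℝ) < aI α i := by exact_mod_cast aI_pos α H.hα i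
  have h1 := Fm_corrZ (α := α) (h := h) (N := N) H.hα i n y hny
  have h2 : ((aI α i * y + bI α h N i : ℕ) : ℝ) = N + α i * n + h i := by
    have h3 : (((aI α i * y + bI α h N i : ℕ) : ℤ) : ℝ) = ((Fm α h N i n : ℤ) : ℝ) := by
      rw [h1]
    rw [Int.cast_natCast] at h3
    rw [h3]
    unfold Fm
    push_cast
    ring
  have h3 : ((aI α i * y + bI α h N i : ℕ) : ℝ) / aI α i - x0 i =
      (α i : ℝ) / aI α i * (n - n0) := by
    have h4 := G.hx0 i
    rw [h2]
    field_simp
    linarith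
  rw [h3, abs_mul]
  have h5 : |(α i : ℝ) / aI α i| = 1 := by
    rw [abs_div, abs_of_pos ha]
    have h6 : |(α i : ℝ)| = aI α i := by
      have := aI_abs α i
      rw [← Int.cast_abs, ← this, Int.cast_natCast]
    rw [h6]
    exact div_self ha.ne'
  rw [h5, one_mul]

/-- the lower conversion -/
theorem conv_low (hRC : RootsCount) (hWE : WEq) (H : Hyp α h D D' N v P)
    (G : Geo α h D D' N v P n0 Δ X x0 Xi vi) (Q : SPar) (L hi W2 : ℝ) (i j : Fin k)
    (hij : i ≠ j) (hhi : Real.log (aI α i * (x0 i + Δ)) ≤ hi) (hW2 : 0 ≤ W2)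
    (hw : ∀ n : ℕ, |(n : ℝ) - n0| < Δ →
      (wIZ (uB α) (wB h N) P i (yP Q k P L) n) ^ 2 ≤ W2) (hx1 : 1 ≤ x0 i + Δ) :
    ∑ y ∈ Ys α h i D D' N (vi i) (Xi i),
      (lt (x0 i) Δ (((aI α i * y + bI α h N i : ℕ) : ℝ) / aI α i) *
        ArithmeticFunction.vonMangoldt (aI α i * y + bI α h N i)) *
          (wIZ (uO α i) (wO α h N i) P i (yP Q k P L) y) ^ 2 ≤
    hi * ∑ n ∈ Ns α h D D' N v X, (if (Fm α h N i n).toNat.Prime then
      lt n0 Δ n * (wZ Q (uB α) (wB h N) P L n) ^ 2 else 0) +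
      W2 * (2 * √(aI α i * (x0 i + Δ)) * Real.log (aI α i * (x0 i + Δ))) := by
  classical
  have ha1 := aI_pos α H.hα i
  have ha : (0 : ℝ) < aI α i := by exact_mod_cast ha1
  have hs := sI_sq α H.hα i
  obtain ⟨hb1, hb2, hb3⟩ := bI_spec α h H.hα N i
  set F : ℕ → ℕ := fun y => aI α i * y + bI α h N i with hF
  set B := (Ys α h i D D' N (vi i) (Xi i)).filter
    (fun y => lt (x0 i) Δ (((F y : ℕ) : ℝ) / aI α i) ≠ 0) with hB
  set φ : ℕ → ℕ := fun y => (sI α i * (y : ℤ) + tI α h N i).toNat with hφ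
  set g : ℕ → ℝ := fun n => lt n0 Δ n * (wZ Q (uB α) (wB h N) P L n) ^ 2 with hg
  have hg0 : ∀ n, 0 ≤ g n := fun n => mul_nonneg (lt_nonneg _ _ _) (sq_nonneg _)
  have hcor : ∀ y ∈ B, ((φ y : ℕ) : ℤ) = sI α i * y + tI α h N i ∧
      |((φ y : ℕ) : ℝ) - n0| < Δ ∧ 1 ≤ φ y := by
    intro y hy
    rw [hB, Finset.mem_filter] at hy
    have hd := lt_pos_iff G.g0 hy.2
    have h1 := corr_realZ H G i (sI α i * y + tI α h N i) y rfl
    have h2 : |(((sI α i * y + tI α h N i : ℤ)) : ℝ) - n0| < Δ := by rw [← h1]; exact hd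
    have h3 : (0 : ℝ) < (((sI α i * y + tI α h N i : ℤ)) : ℝ) := by
      have := (abs_lt.1 h2).1
      have := G.g1
      linarith
    have h4 : 0 < sI α i * (y : ℤ) + tI α h N i := by exact_mod_cast h3
    have h5 : ((φ y : ℕ) : ℤ) = sI α i * y + tI α h N i := by
      simp only [hφ]
      exact Int.toNat_of_nonneg h4.le
    refine ⟨h5, ?_, ?_⟩
    · have h6 : ((φ y : ℕ) : ℝ) = (((sI α i * y + tI α h N i : ℤ)) : ℝ) := by
        rw [← h5]; simp
      rw [h6]
      exact h2
    · have : (1 : ℤ) ≤ (φ y : ℕ) := by rw [h5]; linarith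
      exact_mod_cast this
  have hinj : Set.InjOn φ (B.filter (fun y => (F y).Prime) : Finset ℕ) := by
    intro y hy y' hy' hyy
    have h1 := (hcor y (Finset.mem_filter.1 hy).1).1
    have h2 := (hcor y' (Finset.mem_filter.1 hy').1).1
    rw [hyy, h2] at h1
    have h3 : sI α i * (y : ℤ) = sI α i * y' := by linarith
    have h4 : sI α i * (sI α i * (y : ℤ)) = sI α i * (sI α i * y') := by rw [h3]
    rw [← mul_assoc, ← mul_assoc, hs, one_mul, one_mul] at h4
    exact_mod_cast h4
  have hlog1 : 0 ≤ Real.log (aI α i * (x0 i + Δ)) := by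
    apply Real.log_nonneg
    have : (1 : ℝ) ≤ aI α i := by exact_mod_cast ha1
    nlinarith
  have hterm : ∀ y ∈ B.filter (fun y => (F y).Prime),
      φ y ∈ Ns α h D D' N v X ∧ (Fm α h N i (φ y)).toNat.Prime ∧
      (lt (x0 i) Δ (((F y : ℕ) : ℝ) / aI α i) * ArithmeticFunction.vonMangoldt (F y)) *
        (wIZ (uO α i) (wO α h N i) P i (yP Q k P L) y) ^ 2 ≤ hi * g (φ y) := by
    intro y hy
    rw [Finset.mem_filter] at hy
    obtain ⟨hyB, hpF⟩ := hy
    obtain ⟨hc1, hc2, hc3⟩ := hcor y hyB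
    rw [hB, Finset.mem_filter] at hyB
    obtain ⟨hyY, hlt⟩ := hyB
    have hd := lt_pos_iff G.g0 hlt
    obtain ⟨hbig, hbig'⟩ := form_big H i y hd
    unfold Ys at hyY
    rw [Finset.mem_filter, Finset.mem_Icc] at hyY
    have hFc := Fm_corr α h H.hα N i (φ y) y hc1
    have hFn : (Fm α h N i (φ y)).toNat = F y := by
      rw [hFc]
      exact Int.toNat_natCast _
    have hD' : (0 : ℝ) ≤ D' := Nat.cast_nonneg _
    have hFP : ∀ p ∈ P, ¬ p ∣ F y := by
      intro p hp hd'
      have h1 := (Nat.prime_dvd_prime_iff_eq (H.hP p hp).1 hpF).1 hd'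
      have h2 := G.big2 i p hp
      have h3 : ((p : ℕ) : ℝ) = ((F y : ℕ) : ℝ) := by rw [← h1]
      simp only [hF] at h3
      linarith
    have hFQ : ∀ p ∈ QQ D D', ¬ p ∣ F y := by
      intro p hp hd'
      have h1 := (Nat.prime_dvd_prime_iff_eq (QQ_prime hp).1 hpF).1 hd'
      have h2 := (QQ_prime hp).2.2
      have h3 : ((p : ℕ) : ℝ) = ((F y : ℕ) : ℝ) := by rw [← h1]
      have h4 : (p : ℝ) ≤ D' := by exact_mod_cast h2
      have h5 := G.big1 i
      simp only [hF] at h3
      linarith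
    have hXn : φ y ≤ X := by
      have h1 := (abs_lt.1 hc2).2
      have h2 := G.nX
      have h3 : ((φ y : ℕ) : ℝ) ≤ X := by linarith
      exact_mod_cast h3
    refine ⟨?_, by rw [hFn]; exact hpF, ?_⟩
    · unfold Ns
      rw [Finset.mem_filter, Finset.mem_Icc]
      exact ⟨⟨hc3, hXn⟩, (vi_nat G i (φ y) y hc1).1 hyY.2.1,
        (sieve_corr hRC H i (φ y) y hc1 hFQ).1 hyY.2.2⟩
    · have hl := LZ_corr α h N i (φ y) y hc1
      have hw' : wIZ (uO α i) (wO α h N i) P i (yP Q k P L) y =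
          wZ Q (uB α) (wB h N) P L (φ y) := by
        refine (hWE k Q (uB α) (wB h N) (uO α i) (wO α h N i) P L 0 (φ y) y i j
          (fun p hp => (H.hP p hp).1.two_le) le_rfl hij hl ?_).1
        intro p hp
        rw [hl (some i), LZ_own α h H.hα N i y]
        exact hFP p hp
      rw [hw', corr_lt H G i (φ y) y hc1, ArithmeticFunction.vonMangoldt_apply_prime hpF]
      have h1 : Real.log ((F y : ℕ) : ℝ) ≤ hi := by
        refine le_trans ?_ hhi
        apply Real.log_le_log _ hbig'.le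
        exact_mod_cast hpF.pos
      have h2 := hg0 (φ y)
      calc lt n0 Δ (φ y : ℕ) * Real.log ((F y : ℕ) : ℝ) * (wZ Q (uB α) (wB h N) P L (φ y)) ^ 2
          = Real.log ((F y : ℕ) : ℝ) * g (φ y) := by simp only [hg]; ring
        _ ≤ hi * g (φ y) := mul_le_mul_of_nonneg_right h1 h2
  have hbad : ∀ y ∈ B, ¬ (F y).Prime →
      (lt (x0 i) Δ (((F y : ℕ) : ℝ) / aI α i) * ArithmeticFunction.vonMangoldt (F y)) *
        (wIZ (uO α i) (wO α h N i) P i (yP Q k P L) y) ^ 2 ≤
      W2 * (if ¬ (aI α i * y + bI α h N i).Prime ∨ ((aI α i * y + bI α h N i : ℕ) : ℝ) ≤ 0 then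
        ArithmeticFunction.vonMangoldt (aI α i * y + bI α h N i) else 0) := by
    intro y hy hnp
    obtain ⟨hc1, hc2, hc3⟩ := hcor y hy
    have hl := LZ_corr α h N i (φ y) y hc1
    rw [if_pos (Or.inl hnp), ← wIZ_congr P i (yP Q k P L) (φ y) y hl]
    have h1 := hw (φ y) hc2
    have h2 := lt_le_one (x0 i) Δ (((F y : ℕ) : ℝ) / aI α i) G.g0
    have h3 := lt_nonneg (x0 i) Δ (((F y : ℕ) : ℝ) / aI α i)
    have h4 : 0 ≤ ArithmeticFunction.vonMangoldt (F y) := ArithmeticFunction.vonMangoldt_nonneg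
    calc _ ≤ (1 * ArithmeticFunction.vonMangoldt (F y)) * W2 := by gcongr
      _ = _ := by simp only [hF]; ring
  have hbl := bad_lambda (aI α i) (bI α h N i) ha1 hb1 B (x0 i + Δ) 0 hx1 le_rfl (by
    intro y hy
    rw [hB, Finset.mem_filter] at hy
    exact (form_big H i y (lt_pos_iff G.g0 hy.2)).2.le)
  rw [mul_zero, add_zero] at hbl
  set T : ℕ → ℝ := fun y => (lt (x0 i) Δ (((F y : ℕ) : ℝ) / aI α i) *
    ArithmeticFunction.vonMangoldt (F y)) * (wIZ (uO α i) (wO α h N i) P i (yP Q k P L) y) ^ 2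
    with hT
  have e0 : ∑ y ∈ Ys α h i D D' N (vi i) (Xi i), T y = ∑ y ∈ B, T y := by
    rw [hB, Finset.sum_filter]
    refine Finset.sum_congr rfl fun y _ => ?_
    split_ifs with h1
    · rfl
    · simp only [hT]
      rw [not_not.1 h1]
      ring
  have e1 := Finset.sum_filter_add_sum_filter_not B (fun y => (F y).Prime) T
  calc ∑ y ∈ Ys α h i D D' N (vi i) (Xi i), T y = ∑ y ∈ B, T y := e0
    _ = ∑ y ∈ B.filter (fun y => (F y).Prime), T y +
        ∑ y ∈ B.filter (fun y => ¬ (F y).Prime), T y := e1.symm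
    _ ≤ hi * ∑ n ∈ Ns α h D D' N v X, (if (Fm α h N i n).toNat.Prime then g n else 0) +
        W2 * (2 * √(aI α i * (x0 i + Δ)) * Real.log (aI α i * (x0 i + Δ))) := by
        apply add_le_add
        · calc ∑ y ∈ B.filter (fun y => (F y).Prime), T y
              ≤ ∑ y ∈ B.filter (fun y => (F y).Prime), hi * g (φ y) :=
                Finset.sum_le_sum fun y hy => (hterm y hy).2.2
            _ = hi * ∑ n ∈ (B.filter (fun y => (F y).Prime)).image φ, g n := by
                rw [← Finset.mul_sum, Finset.sum_image hinj]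
            _ ≤ hi * ∑ n ∈ (Ns α h D D' N v X).filter
                (fun n : ℕ => (Fm α h N i n).toNat.Prime), g n := by
                apply mul_le_mul_of_nonneg_left _ (hlog1.trans hhi)
                apply Finset.sum_le_sum_of_subset_of_nonneg
                · intro n hn
                  obtain ⟨y, hy, rfl⟩ := Finset.mem_image.1 hn
                  rw [Finset.mem_filter]
                  exact ⟨(hterm y hy).1, (hterm y hy).2.1⟩
                · intro n _ _
                  exact hg0 n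
            _ = _ := by rw [Finset.sum_filter]
        · calc ∑ y ∈ B.filter (fun y => ¬ (F y).Prime), T y
              ≤ ∑ y ∈ B.filter (fun y => ¬ (F y).Prime), W2 *
                (if ¬ (aI α i * y + bI α h N i).Prime ∨
                  ((aI α i * y + bI α h N i : ℕ) : ℝ) ≤ 0 then
                ArithmeticFunction.vonMangoldt (aI α i * y + bI α h N i) else 0) := by
                apply Finset.sum_le_sum
                intro y hy
                rw [Finset.mem_filter] at hy
                exact hbad y hy.1 hy.2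
            _ ≤ ∑ y ∈ B, W2 * (if ¬ (aI α i * y + bI α h N i).Prime ∨
                  ((aI α i * y + bI α h N i : ℕ) : ℝ) ≤ 0 then
                ArithmeticFunction.vonMangoldt (aI α i * y + bI α h N i) else 0) := by
                apply Finset.sum_le_sum_of_subset_of_nonneg (Finset.filter_subset _ _)
                intro y _ _
                apply mul_nonneg hW2
                split_ifs
                · exact ArithmeticFunction.vonMangoldt_nonneg
                · exact le_rfl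
            _ ≤ _ := by
                rw [← Finset.mul_sum]
                exact mul_le_mul_of_nonneg_left hbl hW2

end Pool.Agent.W25.UN
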