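import Mathlib
import Pool.Agent.W25.UN.Conv2

/-! Project UN: the three estimates at a fixed `N`. -/

set_option autoImplicit false

namespace Pool.Agent.W25.UN

open Finset Filter Topology
open Pool.Agent.H410R2 hiding GP GP_prof GP_cut_some GP_cut_none GP_lip gg_pos gg_le_one gg_anti ee_bound ee_nonneg gg_lip LB_gg LB_ee Sums exists_sums yx wx wxi Br sum_GP_none sum_GP_some sum_GP_some_ee sum_GP_some_one sum_GPr_none sum_GPr_some S1_final QI_final S2_final w_abs_le wmax gg ee I1 I2 IE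
open Pool.Agent.H361R2.GM
open Pool.Agent.H362R2.CM

variable {k : ℕ}

variable {α h : Fin k → ℤ} {D D' N v : ℕ} {P : Finset ℕ} {n0 Δ : ℝ} {X : ℕ}
    {x0 : Fin k → ℝ} {Xi : Fin k → ℕ} {vi : Fin k → ℕ}

theorem VV_pos (hRC : RootsCount) (H : Hyp α h D D' N v P) : 0 < VV α h N D D' := by
  unfold VV
  apply Finset.prod_pos
  intro p hp
  obtain ⟨hpp, hDp, -⟩ := QQ_prime hp
  have h1 := (hRC k (uB α) (wB h N) p hpp (fun j => H.uB_ndvd hpp hDp j)).2.1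
  have h2 : (Om (uB α) (wB h N) p).card < p := by have := H.hDk; omega
  have h3 : ((Om (uB α) (wB h N) p).card : ℝ) < p := by exact_mod_cast h2
  have hp0 : (0 : ℝ) < p := by exact_mod_cast hpp.pos
  rw [sub_pos, div_lt_one hp0]
  exact h3

/-- the total mass -/
theorem est_I {C0 : ℕ} (hPS : PS1At (k + 1) C0) (hTn : Tents) (hRC : RootsCount) (hSd : SdLZ)
    (hS1G : ∀ c : (IP P → Option (Option (Fin k))) → ℝ, 0 ≤ Q1f (prP P) c)
    (H : Hyp α h D D' N v P) (Q : SPar)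
    (L κ E1 : ℝ) (b Jj : ℕ) (hb : C0 ≤ b) (hCD : C0 ≤ D) (hJ : D' ≤ 2 ^ 2 ^ Jj)
    (hκ : 0 < κ) (hκ1 : κ ≤ 1 / 64) (hn0 : 0 < n0) (hΔ : Δ = κ * n0)
    (hx1 : 1 ≤ n0 * Real.exp (-(4 * κ))) (hx2 : n0 * Real.exp (4 * κ) ≤ X)
    (hE1 : ∑ σ, |cw (prP P) (yP Q k P L) σ| * mulc (prP P) (fun p => (p : ℝ) + 1) σ ≤ E1) :
    ∑ n ∈ Ns α h D D' N v X, lt n0 Δ n * (wZ Q (uB α) (wB h N) P L n) ^ 2 ≤
      (1 + (1 / 2 : ℝ) ^ b) * (1 + 25 * κ) * (VV α h N D D' * Δ / WW D *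
        Q1f (prP P) (cw (prP P) (yP Q k P L))) +
        2 * (((Jj : ℝ) + 2) * ((2 : ℝ) ^ 2 ^ Jj) ^ (2 * (C0 * b)) *
          (4 / κ * (Real.log (n0 * Real.exp (4 * κ)) + 1) * E1 ^ 2)) := by
  have h4κ : 0 < 4 * κ := by linarith
  have hx1' : 1 ≤ n0 * Real.exp (-κ) := by
    refine hx1.trans ?_
    apply mul_le_mul_of_nonneg_left _ hn0.le
    exact Real.exp_le_exp.2 (by linarith)
  have hx2'' : n0 * Real.exp κ ≤ n0 * Real.exp (4 * κ) := by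
    apply mul_le_mul_of_nonneg_left _ hn0.le
    exact Real.exp_le_exp.2 (by linarith)
  have hx2' : n0 * Real.exp κ ≤ X := hx2''.trans hx2
  have hone : 1 ≤ n0 * Real.exp κ := by
    refine hx1'.trans ?_
    apply mul_le_mul_of_nonneg_left _ hn0.le
    exact Real.exp_le_exp.2 (by linarith)
  have hA := S1main hPS hTn hRC hSd H Q L κ n0 E1 b Jj X hb hCD hJ hκ hx1' hx2' hE1
  have hB := S1main hPS hTn hRC hSd H Q L (4 * κ) n0 E1 b Jj X hb hCD hJ h4κ hx1 hx2 hE1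
  have hq := hS1G (cw (prP P) (yP Q k P L))
  have hV := VV_pos hRC H
  have hW : (0 : ℝ) < WW D := by exact_mod_cast H.hW
  have t1 := hTn.2.2.1 n0 κ hn0 hκ (by linarith)
  have t2 := hTn.2.2.1 n0 (4 * κ) hn0 h4κ (by linarith)
  set q := Q1f (prP P) (cw (prP P) (yP Q k P L)) with hqd
  set V := VV α h N D D' with hVd
  set W : ℝ := ((WW D : ℕ) : ℝ) with hWd
  set β : ℝ := (1 / 2 : ℝ) ^ b with hβ
  have hβ0 : 0 ≤ β := by positivity
  set S := ∑ n ∈ Ns α h D D' N v X, tn n0 κ n * (wZ Q (uB α) (wB h N) P L n) ^ 2 with hS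
  set S' := ∑ n ∈ Ns α h D D' N v X, tn n0 (4 * κ) n * (wZ Q (uB α) (wB h N) P L n) ^ 2 with hS'
  set e0 : ℝ := ((Jj : ℝ) + 2) * ((2 : ℝ) ^ 2 ^ Jj) ^ (2 * (C0 * b)) with he0
  have he00 : 0 ≤ e0 := by positivity
  set l1 : ℝ := Real.log (n0 * Real.exp κ) + 1 with hl1
  set l4 : ℝ := Real.log (n0 * Real.exp (4 * κ)) + 1 with hl4
  have hl1' : l1 ≤ l4 := by
    rw [hl1, hl4]
    have := Real.log_le_log (by linarith) hx2''
    linarith
  have hl10 : 0 ≤ l1 := by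
    have := Real.log_nonneg hone
    rw [hl1]; linarith
  have hl40 : 0 ≤ l4 := hl10.trans hl1'
  -- pointwise comparison
  have hpt : ∑ n ∈ Ns α h D D' N v X, lt n0 Δ n * (wZ Q (uB α) (wB h N) P L n) ^ 2 ≤
      S + 3 * κ * S' := by
    rw [hS, hS', Finset.mul_sum, ← Finset.sum_add_distrib]
    apply Finset.sum_le_sum
    intro n hn
    unfold Ns at hn
    rw [Finset.mem_filter, Finset.mem_Icc] at hn
    have hn1 : (0 : ℝ) < n := by exact_mod_cast hn.1.1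
    have h1 := hTn.2.1 n0 κ n hn0 hκ (by linarith) hn1
    rw [← hΔ] at h1
    have h2 := (abs_le.1 h1).1
    have h3 : lt n0 Δ n ≤ tn n0 κ n + 3 * κ * tn n0 (4 * κ) n := by linarith
    have h4 : 0 ≤ (wZ Q (uB α) (wB h N) P L n) ^ 2 := sq_nonneg _
    calc lt n0 Δ n * (wZ Q (uB α) (wB h N) P L n) ^ 2
        ≤ (tn n0 κ n + 3 * κ * tn n0 (4 * κ) n) * (wZ Q (uB α) (wB h N) P L n) ^ 2 :=
          mul_le_mul_of_nonneg_right h3 h4
      _ = _ := by ring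
  have hSu : S ≤ (1 + β) * (ts n0 κ / W * q * V) + e0 * (4 / κ * l1 * E1 ^ 2) := by
    have := (abs_le.1 hA).2
    linarith
  have hSu' : S' ≤ (1 + β) * (ts n0 (4 * κ) / W * q * V) +
      e0 * (4 / (4 * κ) * l4 * E1 ^ 2) := by
    have := (abs_le.1 hB).2
    linarith
  have hmain : ts n0 κ + 3 * κ * ts n0 (4 * κ) ≤ (1 + 25 * κ) * Δ := by
    have h1 : ts n0 κ + 3 * κ * ts n0 (4 * κ) ≤
        κ * n0 * (1 + κ ^ 2) + 3 * κ * (4 * κ * n0 * (1 + (4 * κ) ^ 2)) := by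
      have := mul_le_mul_of_nonneg_left t2.2 (by positivity : 0 ≤ 3 * κ)
      linarith [t1.2]
    refine h1.trans ?_
    rw [hΔ]
    have h2 : 1 + κ ^ 2 + 12 * κ * (1 + 16 * κ ^ 2) ≤ 1 + 25 * κ := by nlinarith
    calc κ * n0 * (1 + κ ^ 2) + 3 * κ * (4 * κ * n0 * (1 + (4 * κ) ^ 2))
        = (1 + κ ^ 2 + 12 * κ * (1 + 16 * κ ^ 2)) * (κ * n0) := by ring
      _ ≤ _ := mul_le_mul_of_nonneg_right h2 (by positivity)
  have hqV : 0 ≤ q * V / W := by positivity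
  have herr1 : e0 * (4 / κ * l1 * E1 ^ 2) ≤ e0 * (4 / κ * l4 * E1 ^ 2) := by gcongr
  have herr2 : 3 * κ * (e0 * (4 / (4 * κ) * l4 * E1 ^ 2)) ≤ e0 * (4 / κ * l4 * E1 ^ 2) := by
    have e : 3 * κ * (e0 * (4 / (4 * κ) * l4 * E1 ^ 2)) = e0 * (3 * l4 * E1 ^ 2) := by
      field_simp
    rw [e]
    have h3 : 3 ≤ 4 / κ := by
      rw [le_div_iff₀ hκ]; linarith
    gcongr
  have h3S' := mul_le_mul_of_nonneg_left hSu' (by positivity : 0 ≤ 3 * κ)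
  calc ∑ n ∈ Ns α h D D' N v X, lt n0 Δ n * (wZ Q (uB α) (wB h N) P L n) ^ 2
      ≤ S + 3 * κ * S' := hpt
    _ ≤ (1 + β) * (ts n0 κ + 3 * κ * ts n0 (4 * κ)) * (q * V / W) +
        2 * (e0 * (4 / κ * l4 * E1 ^ 2)) := by
        have e1 : (1 + β) * (ts n0 κ + 3 * κ * ts n0 (4 * κ)) * (q * V / W) =
            (1 + β) * (ts n0 κ / W * q * V) +
              3 * κ * ((1 + β) * (ts n0 (4 * κ) / W * q * V)) := by ring
        rw [e1]
        linarith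
    _ ≤ (1 + β) * ((1 + 25 * κ) * Δ) * (q * V / W) + 2 * (e0 * (4 / κ * l4 * E1 ^ 2)) := by
        have h1 : 0 ≤ 1 + β := by linarith
        gcongr
    _ = _ := by ring

/-- abstract comparison of the linear tent with logarithmic tents -/
theorem tent_sums (hTn : Tents) (S : Finset ℕ) (f g : ℕ → ℝ) (x κ Δ M1 M4 β E V : ℝ)
    (hx : 0 < x) (hκ : 0 < κ) (hκ1 : κ ≤ 1 / 64) (hΔ : Δ = κ * x) (hβ : 0 ≤ β) (hβ1 : β ≤ 1)
    (hE : 0 ≤ E) (hV : 0 ≤ V) (ε1 : ℝ) (hε1 : ε1 ≤ 1) (hε0 : 0 ≤ ε1)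
    (hf : ∀ y ∈ S, 0 < f y) (hg : ∀ y ∈ S, 0 ≤ g y)
    (hM1 : |M1 - ts x κ| ≤ ε1 * (κ * x)) (hM4 : |M4 - ts x (4 * κ)| ≤ ε1 * (4 * κ * x))
    (h1 : |∑ y ∈ S, tn x κ (f y) * g y - M1 * V| ≤ β * (M1 * V) + E)
    (h4 : |∑ y ∈ S, tn x (4 * κ) (f y) * g y - M4 * V| ≤ β * (M4 * V) + E) :
    (1 - β - ε1 - 60 * κ) * (Δ * V) - 2 * E ≤ ∑ y ∈ S, lt x Δ (f y) * g y ∧
    ∑ y ∈ S, lt x Δ (f y) * g y ≤ (1 + β) * (1 + ε1 + 60 * κ) * (Δ * V) + 2 * E := by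
  have h4κ : 0 < 4 * κ := by linarith
  have t1 := hTn.2.2.1 x κ hx hκ (by linarith)
  have t2 := hTn.2.2.1 x (4 * κ) hx h4κ (by linarith)
  set A := ∑ y ∈ S, tn x κ (f y) * g y with hA
  set B := ∑ y ∈ S, tn x (4 * κ) (f y) * g y with hB
  set C := ∑ y ∈ S, lt x Δ (f y) * g y with hC
  have hpt : ∀ y ∈ S, |tn x κ (f y) - lt x Δ (f y)| ≤ 3 * κ * tn x (4 * κ) (f y) := by
    intro y hy
    have := hTn.2.1 x κ (f y) hx hκ (by linarith) (hf y hy)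
    rw [← hΔ] at this
    exact this
  have hlow : A - 3 * κ * B ≤ C := by
    rw [hA, hB, hC, Finset.mul_sum, ← Finset.sum_sub_distrib]
    apply Finset.sum_le_sum
    intro y hy
    have h2 := (abs_le.1 (hpt y hy)).2
    have h3 := hg y hy
    nlinarith
  have hup : C ≤ A + 3 * κ * B := by
    rw [hA, hB, hC, Finset.mul_sum, ← Finset.sum_add_distrib]
    apply Finset.sum_le_sum
    intro y hy
    have h2 := (abs_le.1 (hpt y hy)).1
    have h3 := hg y hy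
    nlinarith
  have a1 := abs_le.1 h1
  have a4 := abs_le.1 h4
  have m1 := abs_le.1 hM1
  have m4 := abs_le.1 hM4
  have hΔ0 : 0 < Δ := by rw [hΔ]; positivity
  have b1 : (1 - ε1) * Δ ≤ M1 := by rw [hΔ]; linarith [t1.1]
  have b2 : M1 ≤ (1 + κ ^ 2 + ε1) * Δ := by rw [hΔ]; linarith [t1.2]
  have b3 : M4 ≤ 9 * Δ := by
    rw [hΔ]
    have h5 : 4 * κ * x * (1 + (4 * κ) ^ 2) ≤ 5 * (κ * x) := by
      have h6 : 4 * (1 + (4 * κ) ^ 2) ≤ 5 := by nlinarith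
      calc 4 * κ * x * (1 + (4 * κ) ^ 2) = (4 * (1 + (4 * κ) ^ 2)) * (κ * x) := by ring
        _ ≤ 5 * (κ * x) := mul_le_mul_of_nonneg_right h6 (by positivity)
    have h6 : ε1 * (4 * κ * x) ≤ 4 * (κ * x) := by
      have h7 : 0 < κ * x := by positivity
      nlinarith
    linarith [t2.2, m4.2]
  have hM1V : M1 * V ≤ (1 + κ ^ 2 + ε1) * (Δ * V) := by
    calc M1 * V ≤ ((1 + κ ^ 2 + ε1) * Δ) * V := mul_le_mul_of_nonneg_right b2 hV
      _ = _ := by ring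
  have hM1V' : (1 - ε1) * (Δ * V) ≤ M1 * V := by
    calc (1 - ε1) * (Δ * V) = ((1 - ε1) * Δ) * V := by ring
      _ ≤ _ := mul_le_mul_of_nonneg_right b1 hV
  have hM4V : M4 * V ≤ 9 * (Δ * V) := by
    calc M4 * V ≤ (9 * Δ) * V := mul_le_mul_of_nonneg_right b3 hV
      _ = _ := by ring
  have hM1n : 0 ≤ M1 * V := le_trans (by
    have : 0 ≤ 1 - ε1 := by linarith
    positivity) hM1V'
  have hD : 0 ≤ Δ * V := by positivity
  have hBu : B ≤ (1 + β) * (9 * (Δ * V)) + E := by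
    have h5 : B ≤ (1 + β) * (M4 * V) + E := by linarith [a4.2]
    refine h5.trans ?_
    have : 0 ≤ 1 + β := by linarith
    gcongr
  have hBu' : B ≤ 18 * (Δ * V) + E := by
    have : (1 + β) * (9 * (Δ * V)) ≤ 2 * (9 * (Δ * V)) := by
      apply mul_le_mul_of_nonneg_right _ (by positivity)
      linarith
    linarith
  have h3B : 3 * κ * B ≤ 54 * κ * (Δ * V) + E := by
    have h5 := mul_le_mul_of_nonneg_left hBu' (by positivity : 0 ≤ 3 * κ)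
    have h6 : 3 * κ * E ≤ E := by nlinarith
    linarith
  constructor
  · have h5 : (1 - β) * (M1 * V) - E ≤ A := by linarith [a1.1]
    have h6 : (1 - β) * ((1 - ε1) * (Δ * V)) ≤ (1 - β) * (M1 * V) :=
      mul_le_mul_of_nonneg_left hM1V' (by linarith)
    have h7 : (1 - β - ε1) * (Δ * V) ≤ (1 - β) * ((1 - ε1) * (Δ * V)) := by
      have : (1 - β - ε1) ≤ (1 - β) * (1 - ε1) := by nlinarith [mul_nonneg hβ hε0]
      calc (1 - β - ε1) * (Δ * V) ≤ ((1 - β) * (1 - ε1)) * (Δ * V) :=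
            mul_le_mul_of_nonneg_right this hD
        _ = _ := by ring
    have h8 : 0 ≤ 6 * κ * (Δ * V) := by positivity
    nlinarith
  · have h5 : A ≤ (1 + β) * (M1 * V) + E := by linarith [a1.2]
    have h6 : (1 + β) * (M1 * V) ≤ (1 + β) * ((1 + κ ^ 2 + ε1) * (Δ * V)) :=
      mul_le_mul_of_nonneg_left hM1V (by linarith)
    have h7 : (1 + β) * ((1 + κ ^ 2 + ε1) * (Δ * V)) + 54 * κ * (Δ * V) ≤
        (1 + β) * (1 + ε1 + 60 * κ) * (Δ * V) := by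
      have h8 : (1 + β) * (1 + κ ^ 2 + ε1) + 54 * κ ≤ (1 + β) * (1 + ε1 + 60 * κ) := by
        nlinarith [mul_nonneg hβ hκ.le]
      calc (1 + β) * ((1 + κ ^ 2 + ε1) * (Δ * V)) + 54 * κ * (Δ * V) =
          ((1 + β) * (1 + κ ^ 2 + ε1) + 54 * κ) * (Δ * V) := by ring
        _ ≤ _ := mul_le_mul_of_nonneg_right h8 hD
    linarith

end Pool.Agent.W25.UN
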