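import Mathlib
import Pool.Agent.W25.UN.Est3

/-! Project UN: the estimates for primes and pairs at a fixed `N`. -/

set_option autoImplicit false

namespace Pool.Agent.W25.UN

open Finset Filter Topology
open Pool.Agent.H410R2 hiding GP GP_prof GP_cut_some GP_cut_none GP_lip gg_pos gg_le_one gg_anti ee_bound ee_nonneg gg_lip LB_gg LB_ee Sums exists_sums yx wx wxi Br sum_GP_none sum_GP_some sum_GP_some_ee sum_GP_some_one sum_GPr_none sum_GPr_some S1_final QI_final S2_final w_abs_le wmax gg ee I1 I2 IE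
open Pool.Agent.H361R2.GM
open Pool.Agent.H362R2.CM

variable {k : ℕ}

variable {α h : Fin k → ℤ} {D D' N v : ℕ} {P : Finset ℕ} {n0 Δ : ℝ} {X : ℕ}
    {x0 : Fin k → ℝ} {Xi : Fin k → ℕ} {vi : Fin k → ℕ}

theorem vi_cop (H : Hyp α h D D' N v P) (G : Geo α h D D' N v P n0 Δ X x0 Xi vi) (i : Fin k)
    (y : ℕ) (hy : y ≡ vi i [MOD (WW D)]) :
    (LZ (uO α i) (wO α h N i) (some i) y).Coprime (WW D) := by
  have h1 : (y : ℤ) ≡ (vi i : ℤ) [ZMOD (WW D)] := Int.natCast_modEq_iff.2 hy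
  have h2 := (G.vi1 i (y : ℤ)).1 h1
  have h3 := H.hv (some i) _ h2
  have h4 : uO α i (some i) * y + wO α h N i (some i) =
      uB α (some i) * (sI α i * y + tI α h N i) + wB h N (some i) := by
    unfold uO wO
    ring
  unfold LZ
  rw [h4]
  exact Int.isCoprime_iff_nat_coprime.1 h3

/-- error of the second sums -/
noncomputable def E2 (k : ℕ) (P : Finset ℕ) (a b : ℕ) (W : ℕ) (Bz R x κ : ℝ) (C0 bb Jj : ℕ) : ℝ :=
  Bz ^ 2 * (((Jj : ℝ) + 2) *
      ((∏ t : IP P, (1 + ((k + 1 : ℕ) : ℝ) / ((prP P t : ℝ) - 1)) *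
        ((prP P t : ℝ) / ((prP P t : ℝ) - 1))) ^ 2 *
      ∑ m ∈ (Icc 1 ⌊((2 : ℝ) ^ 2 ^ Jj) ^ (C0 * bb) * (Real.exp R) ^ 2⌋₊).filter Squarefree,
        (3 * ((k + 1 : ℕ) : ℝ)) ^ m.primeFactors.card * Dev a b x κ (W * m)))

theorem est_S2 {C0 : ℕ} (hPS : PS2At (k + 1) C0) (hEq : Eq2) (hTn : Tents) (hRC : RootsCount)
    (hSd : SdLZ) (H : Hyp α h D D' N v P) (G : Geo α h D D' N v P n0 Δ X x0 Xi vi)
    (hBD : BD D' = BD D * ∏ p ∈ QQ D D', (1 - 1 / (p : ℝ))) (hBD' : 0 < BD D') (i : Fin k)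
    (z : (IP P → Option (Option (Fin k))) → ℝ) (Bz : ℝ) (hBz : 0 < Bz) (hz : ∀ σ, |z σ| ≤ Bz)
    (R : ℝ) (hR : 0 ≤ R) (hsupp : ∀ σ, z σ ≠ 0 → lgt (prP P) σ ≤ R)
    (κ : ℝ) (b Jj : ℕ) (hb : C0 ≤ b) (hCD : C0 ≤ D) (hJ : D' ≤ 2 ^ 2 ^ Jj)
    (hκ : 0 < κ) (hκ1 : κ ≤ 1 / 64) (hx : 0 < x0 i) (hΔ : Δ = κ * x0 i)
    (hx1 : 1 ≤ x0 i * Real.exp (-(4 * κ))) (hx2 : x0 i * Real.exp (4 * κ) ≤ Xi i)
    (ε1 : ℝ) (hε0 : 0 ≤ ε1) (hε1 : ε1 ≤ 1)
    (hM1 : |Mt (aI α i) (x0 i) κ - ts (x0 i) κ| ≤ ε1 * (κ * x0 i))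
    (hM4 : |Mt (aI α i) (x0 i) (4 * κ) - ts (x0 i) (4 * κ)| ≤ ε1 * (4 * κ * x0 i))
    (E : ℝ) (hE : 0 ≤ E)
    (hE1 : E2 k P (aI α i) (bI α h N i) (WW D) Bz R (x0 i) κ C0 b Jj ≤ E)
    (hE4 : E2 k P (aI α i) (bI α h N i) (WW D) Bz R (x0 i) (4 * κ) C0 b Jj ≤ E) :
    (1 - (1 / 2 : ℝ) ^ b - ε1 - 60 * κ) * (Δ * (VV α h N D D' / (WW D * BD D') *
        QI (some i) (prP P) (cw (prP P) z))) - 2 * E ≤
      ∑ y ∈ Ys α h i D D' N (vi i) (Xi i),
        (lt (x0 i) Δ (((aI α i * y + bI α h N i : ℕ) : ℝ) / aI α i) *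
          ArithmeticFunction.vonMangoldt (aI α i * y + bI α h N i)) *
            (wIZ (uO α i) (wO α h N i) P i z y) ^ 2 ∧
      ∑ y ∈ Ys α h i D D' N (vi i) (Xi i),
        (lt (x0 i) Δ (((aI α i * y + bI α h N i : ℕ) : ℝ) / aI α i) *
          ArithmeticFunction.vonMangoldt (aI α i * y + bI α h N i)) *
            (wIZ (uO α i) (wO α h N i) P i z y) ^ 2 ≤
      (1 + (1 / 2 : ℝ) ^ b) * (1 + ε1 + 60 * κ) * (Δ * (VV α h N D D' / (WW D * BD D') *
        QI (some i) (prP P) (cw (prP P) z))) + 2 * E := by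
  have h4κ : 0 < 4 * κ := by linarith
  have ha : (0 : ℝ) < aI α i := by exact_mod_cast aI_pos α H.hα i
  obtain ⟨hb1, -, -⟩ := bI_spec α h H.hα N i
  have hx1' : 1 ≤ x0 i * Real.exp (-κ) := by
    refine hx1.trans ?_
    apply mul_le_mul_of_nonneg_left _ hx.le
    exact Real.exp_le_exp.2 (by linarith)
  have hx2' : x0 i * Real.exp κ ≤ Xi i := by
    refine le_trans ?_ hx2
    apply mul_le_mul_of_nonneg_left _ hx.le
    exact Real.exp_le_exp.2 (by linarith)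
  have t1 := hTn.2.2.1 (x0 i) κ hx hκ (by linarith)
  have t2 := hTn.2.2.1 (x0 i) (4 * κ) hx h4κ (by linarith)
  have hκx : 0 < κ * x0 i := by positivity
  have hMn1 : 0 ≤ Mt (aI α i) (x0 i) κ := by
    have := (abs_le.1 hM1).1
    nlinarith [t1.1]
  have hMn4 : 0 ≤ Mt (aI α i) (x0 i) (4 * κ) := by
    have := (abs_le.1 hM4).1
    nlinarith [t2.1]
  have hpJ : ∀ t : IP P, Fintype.card (Option (Fin k)) + 1 ≤ prP P t := by
    intro t
    rw [cardJ]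
    have h1 := (H.hP t.1 t.2).2
    have : prP P t = t.1 := rfl
    have := H.hDD
    have := H.hDk
    omega
  have hQ := QI_nn (prP P) (some i) hpJ (cw (prP P) z)
  have hA := S2main hPS hEq hRC hSd H hBD hBD' i (vi i) (vi_cop H G i) z Bz hBz hz R hR hsupp κ
    (x0 i) b Jj (Xi i) hb hCD hJ hκ hx1' hx2' hMn1
  have hB := S2main hPS hEq hRC hSd H hBD hBD' i (vi i) (vi_cop H G i) z Bz hBz hz R hR hsupp
    (4 * κ) (x0 i) b Jj (Xi i) hb hCD hJ h4κ hx1 hx2 hMn4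
  have hV := VV_pos hRC H
  have hW : (0 : ℝ) < WW D := by exact_mod_cast H.hW
  have hU : 0 ≤ VV α h N D D' / (WW D * BD D') * QI (some i) (prP P) (cw (prP P) z) := by
    positivity
  have hβ1 : (1 / 2 : ℝ) ^ b ≤ 1 := pow_le_one₀ (by norm_num) (by norm_num)
  have key := tent_sums hTn (Ys α h i D D' N (vi i) (Xi i))
    (fun y => ((aI α i * y + bI α h N i : ℕ) : ℝ) / aI α i)
    (fun y => ArithmeticFunction.vonMangoldt (aI α i * y + bI α h N i) *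
            (wIZ (uO α i) (wO α h N i) P i z y) ^ 2) (x0 i) κ Δ
    (Mt (aI α i) (x0 i) κ) (Mt (aI α i) (x0 i) (4 * κ)) ((1 / 2 : ℝ) ^ b) E
    (VV α h N D D' / (WW D * BD D') * QI (some i) (prP P) (cw (prP P) z)) hx hκ hκ1 hΔ
    (by positivity) hβ1 hE hU ε1 hε1 hε0
    (fun y _ => by
      have : 0 < aI α i * y + bI α h N i := by omega
      have : (0 : ℝ) < ((aI α i * y + bI α h N i : ℕ) : ℝ) := by exact_mod_cast this
      positivity)
    (fun y _ => mul_nonneg ArithmeticFunction.vonMangoldt_nonneg (sq_nonneg _)) hM1 hM4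
    (by
      refine le_trans (le_of_eq ?_) (le_trans hA ?_)
      · congr 2
        · refine Finset.sum_congr rfl fun y _ => ?_
          ring
        · ring
      · apply add_le_add (le_of_eq (by ring)) hE1)
    (by
      refine le_trans (le_of_eq ?_) (le_trans hB ?_)
      · congr 2
        · refine Finset.sum_congr rfl fun y _ => ?_
          ring
        · ring
      · apply add_le_add (le_of_eq (by ring)) hE4)
  have e : ∑ y ∈ Ys α h i D D' N (vi i) (Xi i),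
        lt (x0 i) Δ (((aI α i * y + bI α h N i : ℕ) : ℝ) / aI α i) *
          (ArithmeticFunction.vonMangoldt (aI α i * y + bI α h N i) *
            (wIZ (uO α i) (wO α h N i) P i z y) ^ 2) =
      ∑ y ∈ Ys α h i D D' N (vi i) (Xi i),
        (lt (x0 i) Δ (((aI α i * y + bI α h N i : ℕ) : ℝ) / aI α i) *
          ArithmeticFunction.vonMangoldt (aI α i * y + bI α h N i)) *
            (wIZ (uO α i) (wO α h N i) P i z y) ^ 2 :=
    Finset.sum_congr rfl fun y _ => by ring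
  rw [e] at key
  exact key

end Pool.Agent.W25.UN
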