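import Mathlib
import Pool.Agent.W25.UN.Est4
import Pool.Agent.H361R2.Ana

/-! Project UN: parameters depending on `N` and their sizes. -/

set_option autoImplicit false

namespace Pool.Agent.W25.UN

open Finset Filter Topology
open Pool.Agent.H410R2 hiding GP GP_prof GP_cut_some GP_cut_none GP_lip gg_pos gg_le_one gg_anti ee_bound ee_nonneg gg_lip LB_gg LB_ee Sums exists_sums yx wx wxi Br sum_GP_none sum_GP_some sum_GP_some_ee sum_GP_some_one sum_GPr_none sum_GPr_some S1_final QI_final S2_final w_abs_le wmax gg ee I1 I2 IE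
open Pool.Agent.H361R2.GM
open Pool.Agent.H362R2.CM

variable {k : ℕ}

/-- end of the presieve -/
noncomputable def Dp (N : ℕ) : ℕ := ⌊(Real.log N) ^ 3⌋₊

/-- exponent of the presieve level -/
noncomputable def Jn (N : ℕ) : ℕ := Nat.clog 2 (Nat.clog 2 (Dp N))

/-- the sieving primes -/
noncomputable def PN (α h : Fin k → ℤ) (N : ℕ) : Finset ℕ :=
  (Icc (Dp N + 1) ⌊Real.exp (Real.log N / 4)⌋₊).filter
    (fun p => p.Prime ∧ p ∉ CL (uB α) (wB h N))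

theorem PN_spec (α h : Fin k → ℤ) (N : ℕ) (hN : 1 ≤ N) : ∀ p ∈ PN α h N,
    p.Prime ∧ Dp N < p ∧ p ∉ CL (uB α) (wB h N) ∧ (p : ℝ) ≤ Real.exp (Real.log N / 4) ∧
      (p : ℝ) ≤ N := by
  intro p hp
  unfold PN at hp
  rw [Finset.mem_filter, Finset.mem_Icc] at hp
  have h1 : (p : ℝ) ≤ Real.exp (Real.log N / 4) :=
    (Nat.cast_le.2 hp.1.2).trans (Nat.floor_le (Real.exp_pos _).le)
  refine ⟨hp.2.1, by omega, hp.2.2, h1, h1.trans ?_⟩
  have hN0 : (0 : ℝ) < N := by exact_mod_cast hN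
  have h2 : Real.log N / 4 ≤ Real.log N := by
    have := Real.log_nonneg (by exact_mod_cast hN : (1 : ℝ) ≤ N)
    linarith
  calc Real.exp (Real.log N / 4) ≤ Real.exp (Real.log N) := Real.exp_le_exp.2 h2
    _ = N := Real.exp_log hN0

theorem tendsto_log_nat : Tendsto (fun N : ℕ => Real.log N) atTop atTop :=
  Real.tendsto_log_atTop.comp tendsto_natCast_atTop_atTop

theorem ev_log (C : ℝ) : ∀ᶠ N : ℕ in atTop, C ≤ Real.log N :=
  tendsto_log_nat.eventually_ge_atTop C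

theorem Dp_le (N : ℕ) (hN : 1 ≤ N) : (Dp N : ℝ) ≤ (Real.log N) ^ 3 := by
  unfold Dp
  apply Nat.floor_le
  have := Real.log_nonneg (by exact_mod_cast hN : (1 : ℝ) ≤ N)
  positivity

theorem Dp_ge : ∀ᶠ N : ℕ in atTop, Real.log N ≤ (Dp N : ℝ) := by
  filter_upwards [ev_log 2] with N hN
  unfold Dp
  have h1 : (Real.log N) ^ 3 < (⌊(Real.log N) ^ 3⌋₊ : ℝ) + 1 := Nat.lt_floor_add_one _
  have h2 : Real.log N + 1 ≤ (Real.log N) ^ 3 := by nlinarith [sq_nonneg (Real.log N)]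
  linarith

theorem ev_Dp (C : ℕ) : ∀ᶠ N : ℕ in atTop, C ≤ Dp N := by
  filter_upwards [Dp_ge, ev_log C] with N h1 h2
  have : (C : ℝ) ≤ Dp N := h2.trans h1
  exact_mod_cast this

theorem Jn_le (N : ℕ) : Dp N ≤ 2 ^ 2 ^ Jn N := by
  unfold Jn
  calc Dp N ≤ 2 ^ Nat.clog 2 (Dp N) := Nat.le_pow_clog (by norm_num) _
    _ ≤ 2 ^ 2 ^ Nat.clog 2 (Nat.clog 2 (Dp N)) :=
      Nat.pow_le_pow_right (by norm_num) (Nat.le_pow_clog (by norm_num) _)

theorem Jn_up : ∀ᶠ N : ℕ in atTop, ((2 : ℝ) ^ 2 ^ Jn N) ≤ (Real.log N) ^ 7 ∧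
    ((Jn N : ℝ) + 2) ≤ (Real.log N) ^ 8 := by
  filter_upwards [ev_Dp 5, ev_log 4, eventually_ge_atTop 1] with N hD hl hN
  have hDle := Dp_le N hN
  set m := Dp N with hm
  set m1 := Nat.clog 2 m with hm1
  have h1 : 2 ^ m1 ≤ 2 * m := by
    have h2 : 2 ^ m1.pred < m := Nat.pow_pred_clog_lt_self (by norm_num) (by omega)
    have h3 : 0 < m1 := Nat.clog_pos (by norm_num) (by omega)
    have h4 : m1 = m1.pred + 1 := by
      rw [Nat.pred_eq_sub_one]; omega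
    rw [h4, pow_succ]
    omega
  have hm12 : 2 ≤ m1 := by
    by_contra hc
    have h2 : m ≤ 2 ^ m1 := Nat.le_pow_clog (by norm_num) _
    have h3 : 2 ^ m1 ≤ 2 ^ 1 := Nat.pow_le_pow_right (by norm_num) (by omega)
    omega
  have h2 : 2 ^ Jn N ≤ 2 * m1 := by
    have e : Jn N = Nat.clog 2 m1 := rfl
    rw [e]
    have h2 : 2 ^ (Nat.clog 2 m1).pred < m1 := Nat.pow_pred_clog_lt_self (by norm_num) (by omega)
    have h3 : 0 < Nat.clog 2 m1 := Nat.clog_pos (by norm_num) (by omega)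
    have h4 : Nat.clog 2 m1 = (Nat.clog 2 m1).pred + 1 := by
      rw [Nat.pred_eq_sub_one]; omega
    rw [h4, pow_succ]
    omega
  have h3 : 2 ^ 2 ^ Jn N ≤ 4 * m ^ 2 := by
    calc 2 ^ 2 ^ Jn N ≤ 2 ^ (2 * m1) := Nat.pow_le_pow_right (by norm_num) h2
      _ = (2 ^ m1) ^ 2 := by rw [← pow_mul]; ring_nf
      _ ≤ (2 * m) ^ 2 := Nat.pow_le_pow_left h1 2
      _ = _ := by ring
  have h4 : ((2 : ℝ) ^ 2 ^ Jn N) ≤ 4 * ((Real.log N) ^ 3) ^ 2 := by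
    have h5 : (((2 ^ 2 ^ Jn N : ℕ)) : ℝ) ≤ ((4 * m ^ 2 : ℕ) : ℝ) := by exact_mod_cast h3
    push_cast at h5
    refine h5.trans ?_
    gcongr
  have h5 : ((2 : ℝ) ^ 2 ^ Jn N) ≤ (Real.log N) ^ 7 := by
    refine h4.trans ?_
    have : (0 : ℝ) ≤ (Real.log N) ^ 6 := by positivity
    calc 4 * ((Real.log N) ^ 3) ^ 2 = 4 * (Real.log N) ^ 6 := by ring
      _ ≤ Real.log N * (Real.log N) ^ 6 := by gcongr
      _ = _ := by ring
  refine ⟨h5, ?_⟩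
  have h6 : Jn N < 2 ^ Jn N := Nat.lt_two_pow_self
  have h7 : 2 ^ Jn N < 2 ^ 2 ^ Jn N := Nat.lt_two_pow_self
  have h8 : ((Jn N : ℕ) : ℝ) + 2 ≤ 2 * (2 : ℝ) ^ 2 ^ Jn N := by
    have h9 : Jn N + 2 ≤ 2 * 2 ^ 2 ^ Jn N := by omega
    exact_mod_cast h9
  refine h8.trans ?_
  have : (0 : ℝ) ≤ (Real.log N) ^ 7 := by positivity
  calc 2 * (2 : ℝ) ^ 2 ^ Jn N ≤ 2 * (Real.log N) ^ 7 := by gcongr
    _ ≤ Real.log N * (Real.log N) ^ 7 := by gcongr; linarith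
    _ = _ := by ring

theorem BD_split {D D' : ℕ} (h : D ≤ D') :
    BD D' = BD D * ∏ p ∈ QQ D D', (1 - 1 / (p : ℝ)) := by
  unfold BD QQ
  rw [← Finset.prod_union]
  · congr 1
    ext p
    simp only [Finset.mem_union, Finset.mem_filter, Finset.mem_Icc]
    constructor
    · rintro ⟨h1, h2⟩
      by_cases h3 : p ≤ D
      · left; exact ⟨⟨h1.1, h3⟩, h2⟩
      · right; exact ⟨⟨by omega, h1.2⟩, h2⟩
    · rintro (⟨h1, h2⟩ | ⟨h1, h2⟩)
      · exact ⟨⟨h1.1, by omega⟩, h2⟩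
      · exact ⟨⟨by omega, h1.2⟩, h2⟩
  · rw [Finset.disjoint_left]
    intro p hp hp'
    rw [Finset.mem_filter, Finset.mem_Icc] at hp hp'
    omega

theorem BD_pos (D : ℕ) : 0 < BD D := by
  unfold BD
  apply Finset.prod_pos
  intro p hp
  rw [Finset.mem_filter] at hp
  have h2 : (2 : ℝ) ≤ p := by exact_mod_cast hp.2.two_le
  rw [sub_pos, div_lt_one (by linarith)]
  linarith

theorem BD_le_one (D : ℕ) : BD D ≤ 1 := by
  unfold BD
  apply Finset.prod_le_one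
  · intro p hp
    rw [Finset.mem_filter] at hp
    have h2 : (2 : ℝ) ≤ p := by exact_mod_cast hp.2.two_le
    rw [sub_nonneg, div_le_one (by linarith)]
    linarith
  · intro p hp
    rw [Finset.mem_filter] at hp
    have h2 : (2 : ℝ) ≤ p := by exact_mod_cast hp.2.two_le
    have : 0 ≤ 1 / (p : ℝ) := by positivity
    linarith

/-- tails of the products over large primes -/
theorem tails (hTail : TailBound) (k : ℕ) (ε : ℝ) (hε : 0 < ε) : ∃ D₀ : ℕ, ∀ D, D₀ ≤ D →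
    ∀ P : Finset ℕ, (∀ p ∈ P, p.Prime ∧ D < p) →
    (∏ t : IP P, (1 + ((k + 1 : ℕ) : ℝ) / ((prP P t : ℝ) - 1) ^ 2) ≤ 1 + ε) ∧
    (((k + 1 : ℕ) : ℝ) ^ 2 * ∑ t : IP P, (hb (k + 1) (prP P t)) ^ 2 ≤ ε) ∧
    (∏ t : IP P, (1 + ((k + 1 : ℕ) : ℝ) * ((prP P t : ℝ) / ((prP P t : ℝ) - 1) ^ 3)) ≤
      1 + ε) := by
  obtain ⟨D1, h1⟩ := hTail ((k + 1 : ℕ) : ℝ) (Nat.cast_nonneg _) ε hε
  obtain ⟨D2, h2⟩ := hTail (((k + 1 : ℕ) : ℝ) ^ 2) (by positivity) ε hε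
  obtain ⟨D3, h3⟩ := hTail (2 * ((k + 1 : ℕ) : ℝ)) (by positivity) ε hε
  refine ⟨D1 + D2 + D3 + (k + 2), fun D hD P hP => ⟨?_, ?_, ?_⟩⟩
  · have h4 := (h1 D (by omega) P hP).1
    have e : ∏ t : IP P, (1 + ((k + 1 : ℕ) : ℝ) / ((prP P t : ℝ) - 1) ^ 2) =
        ∏ p ∈ P, (1 + ((k + 1 : ℕ) : ℝ) / ((p : ℝ) - 1) ^ 2) :=
      Finset.prod_coe_sort P (fun p => 1 + ((k + 1 : ℕ) : ℝ) / ((p : ℝ) - 1) ^ 2)
    rw [e]
    exact h4
  · have h4 := (h2 D (by omega) P hP).2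
    have e : ∑ t : IP P, (hb (k + 1) (prP P t)) ^ 2 = ∑ p ∈ P, (hb (k + 1) p) ^ 2 :=
      Finset.sum_coe_sort P (fun p => (hb (k + 1) p) ^ 2)
    rw [e, Finset.mul_sum]
    refine le_trans (Finset.sum_le_sum fun p hp => ?_) h4
    have hp' := hP p hp
    have hpk : k + 1 ≤ p := by omega
    have hpk' : (k : ℝ) + 1 ≤ p := by exact_mod_cast hpk
    have hp2 : (2 : ℝ) ≤ p := by exact_mod_cast hp'.1.two_le
    have hk0 : (0 : ℝ) ≤ k := Nat.cast_nonneg k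
    have hp1 : (0 : ℝ) < (p : ℝ) - 1 := by linarith
    have h2 : (hb (k + 1) p) ^ 2 ≤ 1 / ((p : ℝ) - 1) ^ 2 := by
      unfold hb
      push_cast
      rw [div_pow, div_le_div_iff₀ (by positivity) (by positivity)]
      have h3 : ((p : ℝ) - (k + 1)) ^ 2 ≤ ((p : ℝ) - 1) ^ 2 := by
        apply pow_le_pow_left₀ <;> linarith
      have h4 : 0 ≤ ((p : ℝ) - 1) ^ 2 := by positivity
      nlinarith
    calc ((k + 1 : ℕ) : ℝ) ^ 2 * (hb (k + 1) p) ^ 2 ≤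
        ((k + 1 : ℕ) : ℝ) ^ 2 * (1 / ((p : ℝ) - 1) ^ 2) := by gcongr
      _ = _ := by ring
  · have h4 := (h3 D (by omega) P hP).1
    have e : ∏ t : IP P, (1 + ((k + 1 : ℕ) : ℝ) * ((prP P t : ℝ) / ((prP P t : ℝ) - 1) ^ 3)) =
        ∏ p ∈ P, (1 + ((k + 1 : ℕ) : ℝ) * ((p : ℝ) / ((p : ℝ) - 1) ^ 3)) :=
      Finset.prod_coe_sort P (fun p => 1 + ((k + 1 : ℕ) : ℝ) * ((p : ℝ) / ((p : ℝ) - 1) ^ 3))
    rw [e]
    refine le_trans ?_ h4
    apply Finset.prod_le_prod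
    · intro p hp
      have hp2 : (2 : ℝ) ≤ p := by exact_mod_cast (hP p hp).1.two_le
      have : (0 : ℝ) < (p : ℝ) - 1 := by linarith
      positivity
    · intro p hp
      have hp2 : (2 : ℝ) ≤ p := by exact_mod_cast (hP p hp).1.two_le
      have hp1 : (0 : ℝ) < (p : ℝ) - 1 := by linarith
      have h2 : (p : ℝ) / ((p : ℝ) - 1) ^ 3 ≤ 2 / ((p : ℝ) - 1) ^ 2 := by
        rw [div_le_div_iff₀ (by positivity) (by positivity)]
        have h3 : 0 < ((p : ℝ) - 1) ^ 2 := by positivity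
        have h4 : (p : ℝ) ≤ 2 * ((p : ℝ) - 1) := by linarith
        calc (p : ℝ) * ((p : ℝ) - 1) ^ 2 ≤ (2 * ((p : ℝ) - 1)) * ((p : ℝ) - 1) ^ 2 := by gcongr
          _ = _ := by ring
      have h5 := mul_le_mul_of_nonneg_left h2 (Nat.cast_nonneg (k + 1) : (0 : ℝ) ≤ ((k + 1 : ℕ) : ℝ))
      have h6 : ((k + 1 : ℕ) : ℝ) * (2 / ((p : ℝ) - 1) ^ 2) =
          2 * ((k + 1 : ℕ) : ℝ) / ((p : ℝ) - 1) ^ 2 := by ring
      linarith

/-- products over sets of primes up to `N` -/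
theorem prods_le (c : ℝ) (hc : 0 ≤ c) : ∃ m : ℕ, ∀ᶠ N : ℕ in atTop,
    ∀ P : Finset ℕ, (∀ p ∈ P, p.Prime ∧ (p : ℝ) ≤ N) →
      ∏ t : IP P, (1 + c / (prP P t : ℝ)) ≤ (Real.log N) ^ m := by
  obtain ⟨C, hC, m, h⟩ := Pool.Agent.H361R2.prodBound c hc
  refine ⟨m + 1, ?_⟩
  filter_upwards [ev_log (C + 1), eventually_ge_atTop 3] with N hl hN P hP
  have h3 : ∏ t : IP P, (1 + c / (prP P t : ℝ)) = ∏ p ∈ P, (1 + c / (p : ℝ)) :=
    Finset.prod_coe_sort P (fun p => 1 + c / (p : ℝ))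
  rw [h3]
  have hN3 : (3 : ℝ) ≤ N := by exact_mod_cast hN
  have hl0 : 0 ≤ Real.log N := by linarith
  calc ∏ p ∈ P, (1 + c / (p : ℝ)) ≤
        ∏ p ∈ (Icc 1 ⌊(N : ℝ)⌋₊).filter Nat.Prime, (1 + c / (p : ℝ)) := by
        apply prod_le_prod_subset
        · intro p hp
          rw [Finset.mem_filter, Finset.mem_Icc]
          have := hP p hp
          exact ⟨⟨this.1.one_lt.le, Nat.le_floor this.2⟩, this.1⟩
        · intro p _
          have : 0 ≤ c / (p : ℝ) := by positivity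
          linarith
    _ ≤ C * (Real.log N) ^ m := h _ hN3
    _ ≤ Real.log N * (Real.log N) ^ m := by
        have : C ≤ Real.log N := by linarith
        gcongr
    _ = _ := by ring

/-- a polylogarithm is beaten by any power -/
theorem ev_poly (C : ℝ) (m : ℕ) (s t : ℝ) (h : s < t) :
    ∀ᶠ N : ℕ in atTop, C * (Real.log N) ^ m * (N : ℝ) ^ s ≤ (N : ℝ) ^ t :=
  tendsto_natCast_atTop_atTop.eventually (ev_polylog C m s t h)

end Pool.Agent.W25.UN
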