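import Mathlib
import Pool.Agent.W25.UN.Ev

/-! Project UN: the geometric parameters. -/

set_option autoImplicit false

namespace Pool.Agent.W25.UN

open Finset Filter Topology
open Pool.Agent.H410R2 hiding GP GP_prof GP_cut_some GP_cut_none GP_lip gg_pos gg_le_one gg_anti ee_bound ee_nonneg gg_lip LB_gg LB_ee Sums exists_sums yx wx wxi Br sum_GP_none sum_GP_some sum_GP_some_ee sum_GP_some_one sum_GPr_none sum_GPr_some S1_final QI_final S2_final w_abs_le wmax gg ee I1 I2 IE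
open Pool.Agent.H361R2.GM
open Pool.Agent.H362R2.CM

variable {k : ℕ}

noncomputable def n0f (A0 N : ℕ) : ℝ := N / (8 * A0)

noncomputable def x0f (α h : Fin k → ℤ) (A0 N : ℕ) (i : Fin k) : ℝ :=
  (N + α i * n0f A0 N + h i) / aI α i

noncomputable def vf (α h : Fin k → ℤ) (D N v : ℕ) (i : Fin k) : ℕ :=
  ((sI α i * ((v : ℤ) - tI α h N i)) % (WW D : ℤ)).toNat

theorem vf_spec (α h : Fin k → ℤ) (hα : ∀ i, α i ≠ 0) (D N v : ℕ) (hW : 1 ≤ WW D) (i : Fin k)
    (y : ℤ) : y ≡ (vf α h D N v i : ℤ) [ZMOD (WW D)] ↔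
      sI α i * y + tI α h N i ≡ (v : ℤ) [ZMOD (WW D)] := by
  have hW0 : ((WW D : ℕ) : ℤ) ≠ 0 := by
    have : 0 < WW D := hW
    exact_mod_cast this.ne'
  have h1 : ((vf α h D N v i : ℕ) : ℤ) = (sI α i * ((v : ℤ) - tI α h N i)) % (WW D : ℤ) := by
    unfold vf
    exact Int.toNat_of_nonneg (Int.emod_nonneg _ hW0)
  have hs := sI_sq α hα i
  rw [h1]
  have h2 : (sI α i * ((v : ℤ) - tI α h N i)) % (WW D : ℤ) ≡ sI α i * ((v : ℤ) - tI α h N i)
      [ZMOD (WW D)] := Int.mod_modEq _ _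
  constructor
  · intro h3
    have h4 := (h3.trans h2).mul_left (sI α i)
    have h5 := h4.add_right (tI α h N i)
    have e : sI α i * (sI α i * ((v : ℤ) - tI α h N i)) + tI α h N i = v := by
      rw [← mul_assoc, hs]; ring
    rw [e] at h5
    exact h5
  · intro h3
    have h4 := (h3.add_right (-tI α h N i)).mul_left (sI α i)
    have e : sI α i * (sI α i * y + tI α h N i + -tI α h N i) = y := by
      have : sI α i * (sI α i * y + tI α h N i + -tI α h N i) = (sI α i * sI α i) * y := by ring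
      rw [this, hs, one_mul]
    rw [e] at h4
    have e2 : sI α i * ((v : ℤ) + -tI α h N i) = sI α i * ((v : ℤ) - tI α h N i) := by ring
    rw [e2] at h4
    exact h4.trans h2.symm

/-- sizes of the centres -/
theorem x0f_ev (α h : Fin k → ℤ) (hα : ∀ i, α i ≠ 0) (A0 : ℕ) (hA0 : 1 ≤ A0)
    (hA : ∀ i, aI α i ≤ A0) : ∀ᶠ N : ℕ in atTop, ∀ i,
      (N : ℝ) / 2 ≤ aI α i * x0f α h A0 N i ∧ aI α i * x0f α h A0 N i ≤ 2 * N ∧
      (N : ℝ) / (2 * A0) ≤ x0f α h A0 N i ∧ x0f α h A0 N i ≤ 2 * N := by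
  rw [Filter.eventually_all]
  intro i
  have h1 : ∀ᶠ N : ℕ in atTop, 8 * |(h i : ℝ)| ≤ (N : ℝ) :=
    tendsto_natCast_atTop_atTop.eventually_ge_atTop _
  filter_upwards [h1, eventually_ge_atTop 1] with N hN hN1
  have ha1 : (1 : ℝ) ≤ aI α i := by exact_mod_cast aI_pos α hα i
  have ha : (0 : ℝ) < aI α i := by linarith
  have hA1 : (1 : ℝ) ≤ A0 := by exact_mod_cast hA0
  have haA : (aI α i : ℝ) ≤ A0 := by exact_mod_cast hA i
  have hN0 : (1 : ℝ) ≤ N := by exact_mod_cast hN1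
  have e1 : aI α i * x0f α h A0 N i = N + α i * n0f A0 N + h i := by
    unfold x0f
    field_simp
  have habs : |(α i : ℝ)| = aI α i := by
    have := aI_abs α i
    rw [← Int.cast_abs, ← this, Int.cast_natCast]
  have h2 : |(α i : ℝ) * n0f A0 N| ≤ N / 8 := by
    rw [abs_mul, habs]
    unfold n0f
    rw [abs_of_nonneg (by positivity)]
    rw [← mul_div_assoc, div_le_div_iff₀ (by positivity) (by norm_num)]
    nlinarith [mul_le_mul_of_nonneg_right haA (by linarith : (0 : ℝ) ≤ N)]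
  have h3 := abs_le.1 h2
  have h4 := abs_le.1 (le_refl |(h i : ℝ)|)
  have b1 : (N : ℝ) / 2 ≤ aI α i * x0f α h A0 N i := by rw [e1]; linarith [h3.1, h4.1]
  have b2 : aI α i * x0f α h A0 N i ≤ 2 * N := by rw [e1]; linarith [h3.2, h4.2]
  have hx : 0 ≤ x0f α h A0 N i := by
    by_contra hc
    have := mul_neg_of_pos_of_neg ha (not_le.1 hc)
    linarith
  refine ⟨b1, b2, ?_, ?_⟩
  · rw [div_le_iff₀ (by positivity)]
    have := mul_le_mul_of_nonneg_right haA hx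
    linarith
  · have := mul_le_mul_of_nonneg_right ha1 hx
    linarith

/-- the bundle of sizes for the form `i` -/
structure Sz (α h : Fin k → ℤ) (A0 : ℕ) (κ : ℝ) (N : ℕ) (i : Fin k) : Prop where
  hx : 0 < x0f α h A0 N i
  hκ : 0 < κ * n0f A0 N / x0f α h A0 N i
  hκlo : κ / (16 * A0) ≤ κ * n0f A0 N / x0f α h A0 N i
  hκhi : κ * n0f A0 N / x0f α h A0 N i ≤ κ
  hx1 : 1 ≤ x0f α h A0 N i * Real.exp (-(4 * (κ * n0f A0 N / x0f α h A0 N i)))
  hx2 : x0f α h A0 N i * Real.exp (4 * (κ * n0f A0 N / x0f α h A0 N i)) ≤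
    ⌈3 * x0f α h A0 N i⌉₊
  big : (N : ℝ) / 4 ≤ aI α i * (x0f α h A0 N i - κ * n0f A0 N)
  up : aI α i * (x0f α h A0 N i + κ * n0f A0 N) ≤ 4 * N
  hXi : x0f α h A0 N i + κ * n0f A0 N ≤ ⌈3 * x0f α h A0 N i⌉₊
  lo : (N : ℝ) / (2 * A0) ≤ x0f α h A0 N i
  hi : x0f α h A0 N i ≤ 2 * N
  one : 1 ≤ x0f α h A0 N i + κ * n0f A0 N

theorem sz_ev (α h : Fin k → ℤ) (hα : ∀ i, α i ≠ 0) (A0 : ℕ) (hA0 : 1 ≤ A0)
    (hA : ∀ i, aI α i ≤ A0) (κ : ℝ) (hκ : 0 < κ) (hκ1 : κ ≤ 1 / 64) :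
    ∀ᶠ N : ℕ in atTop, ∀ i, Sz α h A0 κ N i := by
  have h1 : ∀ᶠ N : ℕ in atTop, 8 * (A0 : ℝ) ≤ (N : ℝ) :=
    tendsto_natCast_atTop_atTop.eventually_ge_atTop _
  filter_upwards [x0f_ev α h hα A0 hA0 hA, h1] with N hx hN i
  obtain ⟨b1, b2, b3, b4⟩ := hx i
  have ha1 : (1 : ℝ) ≤ aI α i := by exact_mod_cast aI_pos α hα i
  have ha : (0 : ℝ) < aI α i := by linarith
  have hA1 : (1 : ℝ) ≤ A0 := by exact_mod_cast hA0
  have haA : (aI α i : ℝ) ≤ A0 := by exact_mod_cast hA i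
  have hN0 : (8 : ℝ) ≤ N := by linarith
  set x := x0f α h A0 N i with hxd
  set n := n0f A0 N with hnd
  have hn : n = N / (8 * A0) := rfl
  have hn0 : 0 < n := by rw [hn]; positivity
  have hx0 : 0 < x := lt_of_lt_of_le (by positivity) b3
  have hx4 : 4 ≤ x := by
    refine le_trans ?_ b3
    rw [le_div_iff₀ (by positivity)]
    linarith
  have hnx : n ≤ x / 4 := by
    have : n = (N / (2 * A0)) / 4 := by rw [hn]; ring
    rw [this]
    linarith
  have han : aI α i * n ≤ N / 8 := by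
    rw [hn, ← mul_div_assoc, div_le_div_iff₀ (by positivity) (by norm_num)]
    nlinarith [mul_le_mul_of_nonneg_right haA (by linarith : (0 : ℝ) ≤ N)]
  have hκi : κ * n / x ≤ κ / 4 := by
    rw [div_le_iff₀ hx0]
    have := mul_le_mul_of_nonneg_left hnx hκ.le
    calc κ * n ≤ κ * (x / 4) := this
      _ = _ := by ring
  have hκi0 : 0 < κ * n / x := by positivity
  have hκn : κ * n ≤ x := by nlinarith
  have hexp : Real.exp (4 * (κ * n / x)) ≤ 2 := by
    have h2 : 4 * (κ * n / x) ≤ 1 / 64 := by linarith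
    calc Real.exp (4 * (κ * n / x)) ≤ Real.exp (1 / 64) := Real.exp_le_exp.2 h2
      _ ≤ 2 := by
        have := Real.exp_one_lt_d9
        have h3 : Real.exp (1 / 64) ^ 64 = Real.exp 1 := by
          rw [← Real.exp_nat_mul]; norm_num
        by_contra hc
        have h4 : (2 : ℝ) ^ 64 < Real.exp (1 / 64) ^ 64 :=
          pow_lt_pow_left₀ (not_le.1 hc) (by norm_num) (by norm_num)
        rw [h3] at h4
        norm_num at h4
        linarith
  have hexp' : 1 / 2 ≤ Real.exp (-(4 * (κ * n / x))) := by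
    rw [Real.exp_neg, one_div]
    exact inv_anti₀ (Real.exp_pos _) hexp
  have hc : 3 * x ≤ (⌈3 * x⌉₊ : ℝ) := Nat.le_ceil _
  refine ⟨hx0, hκi0, ?_, by linarith, ?_, ?_, ?_, ?_, ?_, b3, b4, ?_⟩
  · rw [div_le_div_iff₀ (by positivity) hx0]
    have h2 : κ * n0f A0 N * (16 * A0) = κ * (2 * N) := by
      unfold n0f
      field_simp
      ring
    rw [h2]
    exact mul_le_mul_of_nonneg_left b4 hκ.le
  · calc (1 : ℝ) ≤ x * (1 / 2) := by linarith
      _ ≤ _ := mul_le_mul_of_nonneg_left hexp' hx0.le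
  · calc x * Real.exp (4 * (κ * n / x)) ≤ x * 2 := mul_le_mul_of_nonneg_left hexp hx0.le
      _ ≤ _ := by linarith
  · have h2 : aI α i * (κ * n) ≤ N / 8 := by
      have : aI α i * (κ * n) = κ * (aI α i * n) := by ring
      rw [this]
      have h3 : 0 ≤ aI α i * n := by positivity
      nlinarith
    rw [mul_sub]
    linarith
  · have h2 : aI α i * (κ * n) ≤ N / 8 := by
      have : aI α i * (κ * n) = κ * (aI α i * n) := by ring
      rw [this]
      have h3 : 0 ≤ aI α i * n := by positivity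
      nlinarith
    rw [mul_add]
    linarith
  · linarith
  · have : 0 ≤ κ * n := by positivity
    linarith

theorem CL_ndvd {u w : Option (Fin k) → ℤ} (hne : ∀ j l, j ≠ l → u j * w l - u l * w j ≠ 0)
    {p : ℕ} (hp : p.Prime) (hpC : p ∉ CL u w) (j l : Option (Fin k)) (hjl : j ≠ l) :
    ¬ (p : ℤ) ∣ u j * w l - u l * w j := by
  intro hd
  apply hpC
  unfold CL
  rw [Nat.mem_primeFactors]
  refine ⟨hp, ?_, ?_⟩
  · have h1 : (p : ℤ) ∣ ∏ j, ∏ l, if j = l then (1 : ℤ) else u j * w l - u l * w j := by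
      refine dvd_trans ?_ (Finset.dvd_prod_of_mem _ (Finset.mem_univ j))
      refine dvd_trans ?_ (Finset.dvd_prod_of_mem _ (Finset.mem_univ l))
      rw [if_neg hjl]
      exact hd
    exact Int.natCast_dvd.1 h1
  · rw [Int.natAbs_ne_zero, Finset.prod_ne_zero_iff]
    intro j _
    rw [Finset.prod_ne_zero_iff]
    intro l _
    split_ifs with h
    · norm_num
    · exact hne j l h

theorem geo_ev (α h : Fin k → ℤ) (hα : ∀ i, α i ≠ 0) (A0 : ℕ) (hA0 : 1 ≤ A0)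
    (hA : ∀ i, aI α i ≤ A0) (κ : ℝ) (hκ : 0 < κ) (hκ1 : κ ≤ 1 / 64) (D : ℕ) (hW : 1 ≤ WW D) :
    ∀ᶠ N : ℕ in atTop, ∀ v : ℕ, Geo α h D (Dp N) N v (PN α h N) (n0f A0 N) (κ * n0f A0 N) N
      (x0f α h A0 N) (fun i => ⌈3 * x0f α h A0 N i⌉₊) (vf α h D N v) := by
  have h2 : ∀ᶠ N : ℕ in atTop, ((A0 : ℝ) + 2) * (Real.log N) ^ 3 * (N : ℝ) ^ (0 : ℝ) ≤
      (N : ℝ) ^ (1 / 2 : ℝ) := ev_poly _ 3 0 (1 / 2) (by norm_num)
  have h3 : ∀ᶠ N : ℕ in atTop, (16 : ℝ) * (Real.log N) ^ 0 * (N : ℝ) ^ (1 / 2 : ℝ) ≤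
      (N : ℝ) ^ (1 : ℝ) := ev_poly _ 0 (1 / 2) 1 (by norm_num)
  filter_upwards [sz_ev α h hα A0 hA0 hA κ hκ hκ1, h2, h3, ev_log 1, eventually_ge_atTop 8]
    with N hsz h2 h3 hl hN v
  have hN8 : (8 : ℝ) ≤ N := by exact_mod_cast hN
  have hN0 : (0 : ℝ) < N := by linarith
  have hA1 : (1 : ℝ) ≤ A0 := by exact_mod_cast hA0
  rw [Real.rpow_zero, mul_one] at h2
  rw [pow_zero, mul_one, Real.rpow_one] at h3
  have hn0 : 0 < n0f A0 N := by unfold n0f; positivity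
  have hnN : n0f A0 N ≤ N / 8 := by
    unfold n0f
    rw [div_le_div_iff₀ (by positivity) (by norm_num)]
    nlinarith
  have hl3 : 1 ≤ (Real.log N) ^ 3 := one_le_pow₀ hl
  constructor
  · positivity
  · nlinarith
  · nlinarith
  · exact le_rfl
  · intro i
    have ha : (0 : ℝ) < aI α i := by exact_mod_cast aI_pos α hα i
    unfold x0f
    field_simp
  · intro i
    exact (hsz i).hXi
  · intro i
    have h4 := (hsz i).big
    have h5 := Dp_le N (by omega)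
    have haA : (aI α i : ℝ) ≤ A0 := by exact_mod_cast hA i
    have h6 : (Dp N : ℝ) + aI α i + 1 ≤ ((A0 : ℝ) + 2) * (Real.log N) ^ 3 := by nlinarith
    have h7 : (0 : ℝ) < (N : ℝ) ^ (1 / 2 : ℝ) := by positivity
    linarith
  · intro i p hp
    have h4 := (hsz i).big
    have h5 := (PN_spec α h N (by omega) p hp).2.2.2.1
    have h6 : Real.exp (Real.log N / 4) ≤ (N : ℝ) ^ (1 / 2 : ℝ) := by
      rw [Real.rpow_def_of_pos hN0]
      apply Real.exp_le_exp.2
      linarith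
    have h7 : (0 : ℝ) < (N : ℝ) ^ (1 / 2 : ℝ) := by positivity
    linarith
  · intro i y
    exact vf_spec α h hα D N v hW i y

end Pool.Agent.W25.UN
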