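import Mathlib
import Pool.Agent.W25.UN.Par
import Pool.Agent.H362R2.CM.PairB

/-! Project UN: the three estimates for all large `N`. -/

set_option autoImplicit false

namespace Pool.Agent.W25.UN

open Finset Filter Topology
open Pool.Agent.H410R2 hiding GP GP_prof GP_cut_some GP_cut_none GP_lip gg_pos gg_le_one gg_anti ee_bound ee_nonneg gg_lip LB_gg LB_ee Sums exists_sums yx wx wxi Br sum_GP_none sum_GP_some sum_GP_some_ee sum_GP_some_one sum_GPr_none sum_GPr_some S1_final QI_final S2_final w_abs_le wmax gg ee I1 I2 IE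
open Pool.Agent.H361R2.GM
open Pool.Agent.H362R2.CM

variable {k : ℕ}

/-- the main size -/
noncomputable def ZZ (k : ℕ) (V Δ W B L : ℝ) : ℝ := V * Δ / W * (B * (L / 48) * (B * L) ^ k)

theorem ZZ_low (k : ℕ) (V Δ W B L c l N D' ρ : ℝ) (hl : 1 ≤ l) (hW : 0 < W) (hρ : 0 < ρ)
    (hL : L = ρ * l) (hD'0 : 0 < D') (hD' : D' ≤ l ^ 3) (hV : (1 / D') ^ (2 * (k + 1)) ≤ V)
    (hB : 1 / D' ≤ B) (hΔ : Δ = c * N) (hc : 0 < c) (hN : 0 ≤ N)
    (hbig : 48 * W / (c * ρ ^ (k + 1)) ≤ l) :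
    N / l ^ (8 * (k + 1) + 1) ≤ ZZ k V Δ W B L := by
  have hl0 : 0 < l := by linarith
  have h1 : 1 / l ^ 3 ≤ 1 / D' := one_div_le_one_div_of_le hD'0 hD'
  have hB' : 1 / l ^ 3 ≤ B := h1.trans hB
  have hV' : (1 / l ^ 3) ^ (2 * (k + 1)) ≤ V := by
    refine le_trans ?_ hV
    gcongr
  have hBL : ρ / l ^ 2 ≤ B * L := by
    rw [hL]
    calc ρ / l ^ 2 = 1 / l ^ 3 * (ρ * l) := by field_simp
      _ ≤ B * (ρ * l) := by gcongr
  have hBL0 : 0 ≤ ρ / l ^ 2 := by positivity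
  unfold ZZ
  have h2 : (1 / l ^ 3) ^ (2 * (k + 1)) * (c * N) / W * ((ρ / l ^ 2) / 48 * (ρ / l ^ 2) ^ k) ≤
      V * Δ / W * (B * (L / 48) * (B * L) ^ k) := by
    rw [hΔ]
    have h3 : (ρ / l ^ 2) / 48 ≤ B * (L / 48) := by
      have : B * (L / 48) = B * L / 48 := by ring
      rw [this]
      gcongr
    have h4 : 0 ≤ V := le_trans (by positivity) hV'
    have h5 : 0 ≤ B * (L / 48) := le_trans (by positivity) h3
    gcongr
  refine le_trans ?_ h2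
  have e : (1 / l ^ 3) ^ (2 * (k + 1)) * (c * N) / W * ((ρ / l ^ 2) / 48 * (ρ / l ^ 2) ^ k) =
      N / l ^ (8 * (k + 1) + 1) * (c * ρ ^ (k + 1) / (48 * W) * l) := by
    have e1 : (1 / l ^ 3) ^ (2 * (k + 1)) = 1 / l ^ (6 * (k + 1)) := by
      rw [div_pow, one_pow, ← pow_mul]
      congr 2
      ring
    have e2 : (ρ / l ^ 2) / 48 * (ρ / l ^ 2) ^ k = ρ ^ (k + 1) / (48 * l ^ (2 * (k + 1))) := by
      rw [div_pow, ← pow_mul]
      have : l ^ (2 * (k + 1)) = l ^ 2 * l ^ (2 * k) := by rw [← pow_add]; congr 1; ring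
      rw [this, pow_succ]
      rw [div_div, div_mul_div_comm]
      congr 1
      · ring
      · ring
    have e3 : l ^ (8 * (k + 1) + 1) = l ^ (6 * (k + 1)) * l ^ (2 * (k + 1)) * l := by
      rw [← pow_add, ← pow_succ]
      congr 1
      ring
    rw [e1, e2, e3]
    field_simp
  rw [e]
  apply le_mul_of_one_le_right (by positivity)
  rw [div_le_iff₀ (by positivity)] at hbig
  rw [div_mul_eq_mul_div, le_div_iff₀ (by positivity)]
  linarith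

/-- algebra of the lower bound -/
theorem low_alg (k : ℕ) (hk : 1 ≤ k) (V Δ W B L ε I1 Br' qq : ℝ) (hW : 0 < W) (hB : 0 < B)
    (hV : 0 < V) (hΔ : 0 < Δ) (hε1 : ε < 1)
    (h : (1 - ε) ^ 2 * (B * L * (I1 - ε)) ^ 2 * (B * (L / 48) * (B * L) ^ (k - 1) * Br') ≤ qq) :
    L * ZZ k V Δ W B L * ((1 - ε) ^ 3 * (I1 - ε) ^ 2 * Br') ≤
      (1 - ε) * (Δ * (V / (W * B) * qq)) := by
  have hk' : (B * L) ^ k = (B * L) ^ (k - 1) * (B * L) := by
    rw [← pow_succ]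
    congr 1
    omega
  have h1 : (1 - ε) * (Δ * (V / (W * B) * ((1 - ε) ^ 2 * (B * L * (I1 - ε)) ^ 2 *
      (B * (L / 48) * (B * L) ^ (k - 1) * Br')))) ≤ (1 - ε) * (Δ * (V / (W * B) * qq)) := by
    have h2 : 0 ≤ 1 - ε := by linarith
    gcongr
  refine le_trans (le_of_eq ?_) h1
  unfold ZZ
  rw [hk']
  field_simp

/-- algebra of the upper bound for pairs -/
theorem up_alg (k : ℕ) (hk : 2 ≤ k) (V Δ W B L Λ l ρ ε I1 I2 : ℝ) (hW : 0 < W) (hB : 0 < B)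
    (hl : 0 < l) (hρ : 0 < ρ) (hρ1 : ρ ≤ 1 / 16) (hε1 : ε < 1 / 3) (hL : L = ρ * l)
    (hΛ : Λ = (1 / 4 - 2 * ρ) * l) :
    (1 + ε) * (Δ * (V / (W * B) * ((B * L * (I1 + ε)) ^ 2 / (B * Λ * (1 - ε)) ^ 2 *
      (1 + ε) ^ 2 * (B * L * (I1 + ε)) ^ 2 * ((B * (L / 48) * (1 / 3 + ε)) *
        ((B * Λ * (1 + ε)) * (B * L * (I2 + ε)) ^ (k - 2)))))) =
    ZZ k V Δ W B L * (ρ ^ 2 / (1 / 4 - 2 * ρ) *
        ((1 + ε) ^ 4 / (1 - ε) ^ 3) * ((I1 + ε) ^ 4 * ((1 / 3 + ε) * (I2 + ε) ^ (k - 2)))) *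
        ((1 - ε) * l) := by
  have h := pair_alg (V * Δ) W B L Λ l ρ ε I1 I2 k hk hW hB hl hρ hρ1 hε1 hL hΛ
  unfold ZZ
  rw [← h]
  ring

end Pool.Agent.W25.UN
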