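import Mathlib
import Pool.Agent.W25.UN.Three

/-! Project UN: pieces at a fixed `N`. -/

set_option autoImplicit false

namespace Pool.Agent.W25.UN

open Finset Filter Topology
open Pool.Agent.H410R2 hiding GP GP_prof GP_cut_some GP_cut_none GP_lip gg_pos gg_le_one gg_anti ee_bound ee_nonneg gg_lip LB_gg LB_ee Sums exists_sums yx wx wxi Br sum_GP_none sum_GP_some sum_GP_some_ee sum_GP_some_one sum_GPr_none sum_GPr_some S1_final QI_final S2_final w_abs_le wmax gg ee I1 I2 IE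
open Pool.Agent.H361R2.GM
open Pool.Agent.H362R2.CM

variable {k : ℕ}

/-- admissibility at `N` -/
def Adm (α h : Fin k → ℤ) (N : ℕ) : Prop :=
  ∀ p : ℕ, p.Prime → ∃ n : ℤ, ¬ (p : ℤ) ∣ n ∧ ∀ i, ¬ (p : ℤ) ∣ Fm α h N i n

open Classical in
/-- the outcome of the sieve at `N` -/
def Out (Q : SPar) (ρ ε : ℝ) (α h : Fin k → ℤ) (A : ℕ) (e : ℝ) (N : ℕ) : Prop :=
  ∃ (S : Finset ℕ) (u : ℕ → ℝ) (Z : ℝ), 0 < Z ∧ (N : ℝ) / (Real.log N) ^ A ≤ Z ∧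
    S ⊆ Icc 1 N ∧ (∀ n ∈ S, 0 ≤ u n ∧ u n ≤ (N : ℝ) ^ e) ∧
    ∑ n ∈ S, u n ≤ Z * Ac Q k ε ∧
    (∀ i, Z * (ρ * βc Q k ε) ≤ ∑ n ∈ S, if (Fm α h N i n).toNat.Prime then u n else 0) ∧
    (∀ i j, i ≠ j → (∑ n ∈ S, if (Fm α h N i n).toNat.Prime ∧ (Fm α h N j n).toNat.Prime
      then u n else 0) ≤ Z * γc Q k ρ ε)

theorem supp_y (Q : SPar) (P : Finset ℕ) (ρ l : ℝ) (hρ1 : ρ ≤ 1 / 16) (hl : 0 < l)
    (σ : IP P → Option (Option (Fin k))) (hσ : yP Q k P (ρ * l) σ ≠ 0) :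
    lgt (prP P) σ ≤ (1 / 4 - ρ / 2) * l := by
  refine (yw_supp (prP P) none (GP Q k (ρ * l) (ρ * l / 48)) (ρ * l) (ρ * l / 48)
      (fun s hs hs' => GP_cut_none Q k _ _ s hs hs') σ hσ).trans ?_
  nlinarith

theorem supp_z (Q : SPar) (P : Finset ℕ) (hP2 : ∀ p ∈ P, 2 ≤ p) (ρ l : ℝ) (hρ : 0 < ρ)
    (hl : 0 < l) (j : Fin k)
    (σ : IP P → Option (Option (Fin k))) (hσ : zP Q k P (ρ * l) ((1 / 4 - 2 * ρ) * l) j σ ≠ 0) :
    lgt (prP P) σ ≤ (1 / 4 - ρ / 2) * l := by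
  refine (zP_supp Q P hP2 (ρ * l) ((1 / 4 - 2 * ρ) * l) (by positivity) j σ hσ).trans ?_
  nlinarith [mul_pos hρ hl]

theorem y_le_one (Q : SPar) (P : Finset ℕ) (L : ℝ) (hL : 0 < L)
    (σ : IP P → Option (Option (Fin k))) : |yP Q k P L σ| ≤ 1 := by
  have hprofP := GP_prof Q k L (L / 48) hL (by positivity)
  unfold yP
  rw [abs_of_nonneg (yw_nonneg _ _ _ hprofP _ _)]
  exact yw_le_one _ _ _ hprofP _ _

theorem cL_le (Q : SPar) (ρ l : ℝ) (hρ : 0 < ρ) (hρ1 : ρ ≤ 1 / 16) (hl : 0 < l) :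
    Q.c * (ρ * l) ≤ (1 / 4 - 2 * ρ) * l := by
  have h1 := Q.hc1
  have h0 : 0 < ρ * l := by positivity
  have h2 : Q.c * (ρ * l) ≤ 1 * (ρ * l) := by gcongr
  nlinarith

theorem zP_bd (Q : SPar) (P : Finset ℕ) (hP : ∀ p ∈ P, p.Prime) (L Λ : ℝ) (hL : 0 < L)
    (hΛ : 0 < Λ) (h : Q.c * L ≤ Λ) (j : Fin k) (σ : IP P → Option (Option (Fin k))) :
    |zP Q k P L Λ j σ| ≤ ∏ t : IP P, (1 + 2 / (prP P t : ℝ)) := by
  have hP2 : ∀ p ∈ P, 2 ≤ p := fun p hp => (hP p hp).two_le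
  rw [abs_of_nonneg (zP_nonneg Q P hP2 L Λ hL j σ)]
  refine (zP_le_prod Q P hP2 L Λ hL hΛ h j σ).trans ?_
  apply Finset.prod_le_prod
  · intro t _
    have : (2 : ℝ) ≤ (prP P t : ℝ) := by exact_mod_cast hP2 t.1 t.2
    have h1 : (0 : ℝ) < (prP P t : ℝ) - 1 := by linarith
    positivity
  · intro t _
    have h2 : (2 : ℝ) ≤ (prP P t : ℝ) := by exact_mod_cast hP2 t.1 t.2
    have h3 : (0 : ℝ) < (prP P t : ℝ) - 1 := by linarith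
    have h0 : (0 : ℝ) < (prP P t : ℝ) := by linarith
    have e : 1 + 2 / (prP P t : ℝ) = ((prP P t : ℝ) + 2) / (prP P t : ℝ) := by
      field_simp
    rw [e, div_le_div_iff₀ h3 h0]
    nlinarith

theorem Bz_one (P : Finset ℕ) : 1 ≤ ∏ t : IP P, (1 + 2 / (prP P t : ℝ)) := by
  calc (1 : ℝ) = ∏ _t : IP P, (1 : ℝ) := by simp
    _ ≤ ∏ t : IP P, (1 + 2 / (prP P t : ℝ)) := by
      apply Finset.prod_le_prod
      · intro t _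
        norm_num
      · intro t _
        have : 0 ≤ 2 / (prP P t : ℝ) := by positivity
        linarith

/-- the error of the second sums -/
theorem E2_le (hEq : Eq2) (P : Finset ℕ) (a b' D : ℕ) (ha : 1 ≤ a) (hb1 : 1 ≤ b')
    (hW : 1 ≤ WW D) (haW : ∀ p : ℕ, p.Prime → p ∣ a → p ∣ WW D) (Bw Bz R x κ' l Er : ℝ)
    (C2 b J m2 Bq : ℕ) (hl1 : 1 ≤ l) (hκ' : 0 < κ') (hκ'1 : κ' ≤ 1) (hx : 3 ≤ x)
    (hBw0 : 0 ≤ Bw) (hBw : Bw ≤ Bz) (hBzl : Bz ≤ l ^ m2) (hJ1 : ((J : ℝ) + 2) ≤ l ^ 8)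
    (hBq : 2 * m2 + 8 ≤ Bq)
    (h1 : l ^ Bq *
      ((∏ t : IP P, (1 + ((k + 1 : ℕ) : ℝ) / ((prP P t : ℝ) - 1)) *
        ((prP P t : ℝ) / ((prP P t : ℝ) - 1))) ^ 2 *
      ∑ m ∈ (Icc 1 ⌊((2 : ℝ) ^ 2 ^ J) ^ (C2 * b) * (Real.exp R) ^ 2⌋₊).filter Squarefree,
        (3 * ((k + 1 : ℕ) : ℝ)) ^ m.primeFactors.card * Dev a b' x κ' (WW D * m)) ≤ Er) :
    E2 k P a b' (WW D) Bw R x κ' C2 b J ≤ Er := by
  refine le_trans ?_ h1
  unfold E2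
  have h2 : Bw ^ 2 * ((J : ℝ) + 2) ≤ l ^ Bq := by
    calc Bw ^ 2 * ((J : ℝ) + 2) ≤ (l ^ m2) ^ 2 * l ^ 8 := by
          have h3 : Bw ≤ l ^ m2 := hBw.trans hBzl
          gcongr
      _ = l ^ (2 * m2 + 8) := by rw [← pow_mul, ← pow_add]; ring_nf
      _ ≤ l ^ Bq := pow_le_pow_right₀ hl1 hBq
  rw [← mul_assoc]
  apply mul_le_mul_of_nonneg_right h2
  apply mul_nonneg (sq_nonneg _)
  apply Finset.sum_nonneg
  intro m _
  apply mul_nonneg (by positivity)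
  have hx4 : x * Real.exp κ' ≤ (⌈x * Real.exp κ'⌉₊ : ℝ) := Nat.le_ceil _
  have hx5 : 1 ≤ x * Real.exp (-κ') := by
    have h3 : Real.exp κ' ≤ 3 := by
      calc Real.exp κ' ≤ Real.exp 1 := Real.exp_le_exp.2 hκ'1
        _ ≤ 3 := by
          have := Real.exp_one_lt_d9
          linarith
    rw [Real.exp_neg, ← div_eq_mul_inv, le_div_iff₀ (Real.exp_pos _)]
    linarith
  exact (hEq a b' (WW D) x κ' ⌈x * Real.exp κ'⌉₊ ha hb1 hW haW hκ' hx5 hx4).1 _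

/-- error of the first sum -/
theorem E1_small (N A1 C1 b m3 J : ℕ) (ρ κ l E1 n0 : ℝ) (hl : l = Real.log N) (hl1 : 1 ≤ l)
    (hN : 1 ≤ N) (hκ : 0 < κ) (hJ1 : ((2 : ℝ) ^ 2 ^ J) ≤ l ^ 7)
    (hJ2 : ((J : ℝ) + 2) ≤ l ^ 8) (hE1 : E1 ≤ Real.exp (ρ * l / 48 + ρ * l) * l ^ m3)
    (hE0 : 0 ≤ E1) (hn0 : 1 ≤ n0 * Real.exp (4 * κ)) (hn1 : n0 * Real.exp (4 * κ) ≤ N)
    (hpoly : (16 / κ) * (Real.log N) ^ (8 + 14 * (C1 * b) + 1 + 2 * m3 + A1) *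
      (N : ℝ) ^ (49 / 24 * ρ) ≤ (N : ℝ) ^ (1 : ℝ)) :
    2 * (((J : ℝ) + 2) * ((2 : ℝ) ^ 2 ^ J) ^ (2 * (C1 * b)) *
          (4 / κ * (Real.log (n0 * Real.exp (4 * κ)) + 1) * E1 ^ 2)) ≤ N / l ^ A1 := by
  have hN0 : (0 : ℝ) < N := by exact_mod_cast hN
  have hl0 : 0 < l := by linarith
  rw [le_div_iff₀ (by positivity)]
  rw [Real.rpow_one, ← hl] at hpoly
  refine le_trans ?_ hpoly
  have h1 : Real.log (n0 * Real.exp (4 * κ)) + 1 ≤ 2 * l := by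
    have := Real.log_le_log (by linarith) hn1
    rw [← hl] at this
    linarith
  have h10 : 0 ≤ Real.log (n0 * Real.exp (4 * κ)) + 1 := by
    have := Real.log_nonneg hn0
    linarith
  have h2 : ((2 : ℝ) ^ 2 ^ J) ^ (2 * (C1 * b)) ≤ l ^ (14 * (C1 * b)) := by
    calc ((2 : ℝ) ^ 2 ^ J) ^ (2 * (C1 * b)) ≤ (l ^ 7) ^ (2 * (C1 * b)) :=
          pow_le_pow_left₀ (by positivity) hJ1 _
      _ = l ^ (14 * (C1 * b)) := by rw [← pow_mul]; congr 1; ring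
  have h3 : E1 ^ 2 ≤ (N : ℝ) ^ (49 / 24 * ρ) * l ^ (2 * m3) := by
    calc E1 ^ 2 ≤ (Real.exp (ρ * l / 48 + ρ * l) * l ^ m3) ^ 2 :=
          pow_le_pow_left₀ hE0 hE1 2
      _ = (N : ℝ) ^ (49 / 24 * ρ) * l ^ (2 * m3) := by
        rw [mul_pow, ← Real.exp_nat_mul, Real.rpow_def_of_pos hN0, ← hl, ← pow_mul]
        congr 1
        · congr 1
          push_cast
          ring
        · congr 1
          ring
  calc 2 * (((J : ℝ) + 2) * ((2 : ℝ) ^ 2 ^ J) ^ (2 * (C1 * b)) *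
          (4 / κ * (Real.log (n0 * Real.exp (4 * κ)) + 1) * E1 ^ 2)) * l ^ A1
      ≤ 2 * (l ^ 8 * l ^ (14 * (C1 * b)) *
          (4 / κ * (2 * l) * ((N : ℝ) ^ (49 / 24 * ρ) * l ^ (2 * m3)))) * l ^ A1 := by
        gcongr
    _ = (16 / κ) * l ^ (8 + 14 * (C1 * b) + 1 + 2 * m3 + A1) * (N : ℝ) ^ (49 / 24 * ρ) := by
        rw [pow_add, pow_add, pow_add, pow_add, pow_one]
        ring

/-- the prime powers are negligible -/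
theorem bad_small (N A1 : ℕ) (l y : ℝ) (hl : l = Real.log N) (hl2 : 2 ≤ l) (hN : 8 ≤ N)
    (hy1 : 1 ≤ y) (hy : y ≤ 4 * N)
    (hpoly : 8 * (Real.log N) ^ (A1 + 1) * (N : ℝ) ^ (6 / 10 : ℝ) ≤ (N : ℝ) ^ (1 : ℝ)) :
    (N : ℝ) ^ (1 / 10 : ℝ) * (2 * √y * Real.log y) ≤ N / l ^ A1 := by
  have hNR : (8 : ℝ) ≤ N := by exact_mod_cast hN
  have hN0 : (0 : ℝ) < N := by linarith
  have hl0 : 0 < l := by linarith
  rw [le_div_iff₀ (by positivity)]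
  rw [Real.rpow_one, ← hl] at hpoly
  refine le_trans ?_ hpoly
  have h1 : √y ≤ 2 * (N : ℝ) ^ (1 / 2 : ℝ) := by
    calc √y ≤ √(4 * N) := Real.sqrt_le_sqrt hy
      _ = 2 * (N : ℝ) ^ (1 / 2 : ℝ) := by
        rw [Real.sqrt_mul (by norm_num), Real.sqrt_eq_rpow (N : ℝ)]
        congr 1
        rw [show (4 : ℝ) = 2 ^ 2 by norm_num]
        exact Real.sqrt_sq (by norm_num)
  have h2 : Real.log y ≤ 2 * l := by
    have h3 : Real.log y ≤ Real.log (4 * N) := Real.log_le_log (by linarith) hy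
    have h4 : Real.log (4 * N) = Real.log 4 + l := by
      rw [Real.log_mul (by norm_num) hN0.ne', hl]
    have h5 : Real.log 4 ≤ 2 := by
      have h6 : Real.log 4 = 2 * Real.log 2 := by
        rw [show (4 : ℝ) = 2 ^ 2 by norm_num, Real.log_pow]
        norm_num
      have := Real.log_two_lt_d9
      linarith
    linarith
  have h2' : 0 ≤ Real.log y := Real.log_nonneg hy1
  calc (N : ℝ) ^ (1 / 10 : ℝ) * (2 * √y * Real.log y) * l ^ A1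
      ≤ (N : ℝ) ^ (1 / 10 : ℝ) * (2 * (2 * (N : ℝ) ^ (1 / 2 : ℝ)) * (2 * l)) * l ^ A1 := by
        gcongr
    _ = 8 * l ^ (A1 + 1) * ((N : ℝ) ^ (1 / 10 : ℝ) * (N : ℝ) ^ (1 / 2 : ℝ)) := by
        rw [pow_succ]; ring
    _ = 8 * l ^ (A1 + 1) * (N : ℝ) ^ (6 / 10 : ℝ) := by
        rw [← Real.rpow_add hN0]
        norm_num

end Pool.Agent.W25.UN
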