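import Mathlib
import Pool.Agent.W25.UN.FixB

/-! Project UN: the three bounds at a fixed `N`, final form. -/

set_option autoImplicit false

namespace Pool.Agent.W25.UN

open Finset Filter Topology
open Pool.Agent.H410R2 hiding GP GP_prof GP_cut_some GP_cut_none GP_lip gg_pos gg_le_one gg_anti ee_bound ee_nonneg gg_lip LB_gg LB_ee Sums exists_sums yx wx wxi Br sum_GP_none sum_GP_some sum_GP_some_ee sum_GP_some_one sum_GPr_none sum_GPr_some S1_final QI_final S2_final w_abs_le wmax gg ee I1 I2 IE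
open Pool.Agent.H361R2.GM
open Pool.Agent.H362R2.CM

variable {k : ℕ}

variable {α h : Fin k → ℤ} {D N v : ℕ} {P : Finset ℕ}

theorem s1g_nonneg (hS1G : S1Gen) {u w : Option (Fin k) → ℤ}
    (hsd : SieveData (IP P) (Option (Fin k)) (prP P) (LZ u w) 1)
    (c : (IP P → Option (Option (Fin k))) → ℝ) :
    0 ≤ Q1f (prP P) c ∧ Q1f (prP P) c ≤ ∑ σ, c σ ^ 2 * mulc (prP P) (fun p => (p : ℝ)) σ := by
  classical
  have h1 := hS1G (IP P) (Option (Fin k)) (prP P) (LZ u w) hsd c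
  constructor
  · refine le_trans h1.1 (le_of_eq ?_)
    congr
  · refine le_trans (le_of_eq ?_) (le_trans h1.2.1 (le_of_eq ?_))
    · congr
    · congr
      all_goals exact Subsingleton.elim _ _

/-- bound (I) -/
theorem fix_I {C1 : ℕ} (hPS : PS1At (k + 1) C1) (hTn : Tents) (hRC : RootsCount) (hSd : SdLZ)
    (hS1P : S1Parts) (hS1G : S1Gen) (H : Hyp α h D (Dp N) N v P) (Q : SPar) (ρ ε l : ℝ) (b A1 : ℕ)
    (A0 m3 : ℕ) (hρ : 0 < ρ) (hρ1 : ρ ≤ 1 / 16) (hε : 0 < ε) (hε1 : ε < 1 / 3) (hI2 : 0 < Q.I2)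
    (hl : l = Real.log N) (hl1 : 1 ≤ l) (hN : 8 ≤ N)
    (hb : C1 ≤ b) (hCD : C1 ≤ D) (hβ : (1 / 2 : ℝ) ^ b ≤ ε / 8) (hA0 : 1 ≤ A0)
    (hNA : 8 * (A0 : ℝ) ≤ N / 2)
    (hJ : ((2 : ℝ) ^ 2 ^ Jn N) ≤ l ^ 7 ∧ ((Jn N : ℝ) + 2) ≤ l ^ 8)
    (hm3 : ∏ t : IP P, (1 + 3 * ((k + 1 : ℕ) : ℝ) / (prP P t : ℝ)) ≤ l ^ m3)
    (hpoly : (16 / (ε / 400)) * (Real.log N) ^ (8 + 14 * (C1 * b) + 1 + 2 * m3 + A1) *
      (N : ℝ) ^ (49 / 24 * ρ) ≤ (N : ℝ) ^ (1 : ℝ))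
    (hS : Sums Q (Dp N) ε (k + 1) (ρ * l) (ρ * l / 48) P)
    (Z : ℝ) (hZ : Z = ZZ k (VV α h N D (Dp N)) (ε / 400 * n0f A0 N) (WW D) (BD (Dp N)) (ρ * l))
    (hErr : N / l ^ A1 ≤ Z / l) (hlA : 2 / (ε * ((1 / 3 + ε) * (Q.I2 + ε) ^ k)) ≤ l) :
    ∑ n ∈ Ns α h D (Dp N) N v N, lt (n0f A0 N) (ε / 400 * n0f A0 N) n *
      (wZ Q (uB α) (wB h N) P (ρ * l) n) ^ 2 ≤ Z * Ac Q k ε := by
  have hNR : (8 : ℝ) ≤ N := by exact_mod_cast hN
  have hN0 : (0 : ℝ) < N := by linarith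
  have hA0R : (1 : ℝ) ≤ A0 := by exact_mod_cast hA0
  have hl0 : 0 < l := by linarith
  have hL : 0 < ρ * l := by positivity
  have hκ : 0 < ε / 400 := by positivity
  have hκ1 : ε / 400 ≤ 1 / 64 := by linarith
  have hn0 : n0f A0 N = N / (8 * A0) := rfl
  have hn0p : 0 < n0f A0 N := by rw [hn0]; positivity
  have hn2 : 2 ≤ n0f A0 N := by
    rw [hn0, le_div_iff₀ (by positivity)]
    linarith
  have hnN : n0f A0 N ≤ N / 8 := by
    rw [hn0, div_le_div_iff₀ (by positivity) (by norm_num)]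
    nlinarith
  have hexp : Real.exp (4 * (ε / 400)) ≤ 2 := by
    have h2 : 4 * (ε / 400) ≤ 1 / 2 := by linarith
    calc Real.exp (4 * (ε / 400)) ≤ Real.exp (1 / 2) := Real.exp_le_exp.2 h2
      _ ≤ 2 := by
        have := Real.exp_one_lt_d9
        have h3 : Real.exp (1 / 2) ^ 2 = Real.exp 1 := by
          rw [← Real.exp_nat_mul]; norm_num
        by_contra hc
        have h4 : (2 : ℝ) ^ 2 < Real.exp (1 / 2) ^ 2 :=
          pow_lt_pow_left₀ (not_le.1 hc) (by norm_num) (by norm_num)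
        rw [h3] at h4
        norm_num at h4
        linarith
  have hexp' : 1 / 2 ≤ Real.exp (-(4 * (ε / 400))) := by
    rw [Real.exp_neg, one_div]
    exact inv_anti₀ (Real.exp_pos _) hexp
  have hx1 : 1 ≤ n0f A0 N * Real.exp (-(4 * (ε / 400))) := by
    calc (1 : ℝ) ≤ n0f A0 N * (1 / 2) := by linarith
      _ ≤ _ := mul_le_mul_of_nonneg_left hexp' hn0p.le
  have hx2 : n0f A0 N * Real.exp (4 * (ε / 400)) ≤ N := by
    calc n0f A0 N * Real.exp (4 * (ε / 400)) ≤ n0f A0 N * 2 :=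
          mul_le_mul_of_nonneg_left hexp hn0p.le
      _ ≤ _ := by linarith
  have hx3 : 1 ≤ n0f A0 N * Real.exp (4 * (ε / 400)) := by
    have := Real.one_le_exp (by positivity : 0 ≤ 4 * (ε / 400))
    nlinarith
  have hBD := BD_pos (Dp N)
  have hS1 := hS1P Q k (Dp N) ε (ρ * l) P hε hL hI2 hBD H.hP hS
  have hsd := H.sd0 hSd
  have hI := est_I hPS hTn hRC hSd (fun c => (s1g_nonneg hS1G hsd c).1) H Q (ρ * l) (ε / 400)
    (Real.exp (ρ * l / 48 + ρ * l) *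
      ∏ t : IP P, (1 + 3 * ((k + 1 : ℕ) : ℝ) / (prP P t : ℝ))) b (Jn N) hb hCD (Jn_le N) hκ hκ1
    hn0p rfl hx1 hx2 hS1.2
  have hprod0 : 0 ≤ ∏ t : IP P, (1 + 3 * ((k + 1 : ℕ) : ℝ) / (prP P t : ℝ)) :=
    Finset.prod_nonneg fun t _ => by positivity
  have hEs := E1_small N A1 C1 b m3 (Jn N) ρ (ε / 400) l (Real.exp (ρ * l / 48 + ρ * l) *
      ∏ t : IP P, (1 + 3 * ((k + 1 : ℕ) : ℝ) / (prP P t : ℝ))) (n0f A0 N) hl hl1 (by omega) hκ
    hJ.1 hJ.2 (by gcongr) (by positivity) hx3 hx2 hpoly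
  have hQ1 := (s1g_nonneg hS1G hsd (cw (prP P) (yP Q k P (ρ * l)))).2.trans hS1.1
  have hQ0 := (s1g_nonneg hS1G hsd (cw (prP P) (yP Q k P (ρ * l)))).1
  have hW : (0 : ℝ) < WW D := by exact_mod_cast H.hW
  have hV := VV_pos hRC H
  set A0c : ℝ := (1 / 3 + ε) * (Q.I2 + ε) ^ k with hA0c
  have hA0cp : 0 < A0c := by
    rw [hA0c]
    positivity
  have hmain : VV α h N D (Dp N) * (ε / 400 * n0f A0 N) / WW D *
        Q1f (prP P) (cw (prP P) (yP Q k P (ρ * l))) ≤ Z * A0c := by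
    have e : Z * A0c = VV α h N D (Dp N) * (ε / 400 * n0f A0 N) / WW D *
        ((BD (Dp N) * (ρ * l / 48) * (1 / 3 + ε)) *
          (BD (Dp N) * (ρ * l) * (Q.I2 + ε)) ^ k) := by
      rw [hZ, hA0c]
      unfold ZZ
      rw [mul_pow (BD (Dp N) * (ρ * l)) (Q.I2 + ε) k]
      ring
    rw [e]
    apply mul_le_mul_of_nonneg_left hQ1
    positivity
  have hZ0 : 0 < Z := by
    rw [hZ]
    unfold ZZ
    positivity
  have hZA : 0 < Z * A0c := by positivity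
  have hβ0 : 0 ≤ (1 / 2 : ℝ) ^ b := by positivity
  have hcoef : (1 + (1 / 2 : ℝ) ^ b) * (1 + 25 * (ε / 400)) ≤ 1 + ε / 2 := by
    nlinarith [mul_nonneg hβ0 hε.le]
  have herr : (N : ℝ) / l ^ A1 ≤ ε / 2 * (Z * A0c) := by
    refine hErr.trans ?_
    rw [div_le_iff₀ hl0]
    rw [div_le_iff₀ (by positivity)] at hlA
    have h1 : Z * 2 ≤ Z * (l * (ε * A0c)) := mul_le_mul_of_nonneg_left hlA hZ0.le
    linarith
  have hM0 : 0 ≤ VV α h N D (Dp N) * (ε / 400 * n0f A0 N) / WW D *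
        Q1f (prP P) (cw (prP P) (yP Q k P (ρ * l))) := by positivity
  calc _ ≤ (1 + (1 / 2 : ℝ) ^ b) * (1 + 25 * (ε / 400)) * (VV α h N D (Dp N) *
        (ε / 400 * n0f A0 N) / WW D * Q1f (prP P) (cw (prP P) (yP Q k P (ρ * l)))) +
        N / l ^ A1 := by linarith
    _ ≤ (1 + ε / 2) * (Z * A0c) + ε / 2 * (Z * A0c) := by
        have h1 : (1 + (1 / 2 : ℝ) ^ b) * (1 + 25 * (ε / 400)) * (VV α h N D (Dp N) *
            (ε / 400 * n0f A0 N) / WW D * Q1f (prP P) (cw (prP P) (yP Q k P (ρ * l)))) ≤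
            (1 + ε / 2) * (Z * A0c) := mul_le_mul hcoef hmain hM0 (by linarith)
        linarith
    _ = Z * Ac Q k ε := by
        unfold Ac
        rw [hA0c]
        ring

/-- bound (II) -/
theorem fix_II {C2 : ℕ} (hPS : PS2At (k + 1) C2) (hEq : Eq2) (hTn : Tents) (hRC : RootsCount)
    (hSd : SdLZ) (hWE : WEq) (H : Hyp α h D (Dp N) N v P) (Q : SPar) (ρ ε l : ℝ) (b A1 : ℕ)
    (A0 : ℕ) (hk : 2 ≤ k) (hρ : 0 < ρ) (hρ1 : ρ ≤ 1 / 16) (hε : 0 < ε) (hε1 : ε < 1 / 3)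
    (hI1 : ε < Q.I1) (hBr : 0 < Br Q k ε)
    (hl : l = Real.log N) (hl2 : 2 ≤ l) (hN : 8 ≤ N)
    (hb : C2 ≤ b) (hCD : C2 ≤ D) (hβ : (1 / 2 : ℝ) ^ b ≤ ε / 8) (hA0 : 1 ≤ A0)
    (G : Geo α h D (Dp N) N v P (n0f A0 N) (ε / 400 * n0f A0 N) N
      (x0f α h A0 N) (fun i => ⌈3 * x0f α h A0 N i⌉₊) (vf α h D N v)) (i : Fin k)
    (hsz : Sz α h A0 (ε / 400) N i)
    (hpn : ∀ κ' : ℝ, ε / 400 / (16 * A0) ≤ κ' → κ' ≤ 1 →
      |Mt (aI α i) (x0f α h A0 N i) κ' - ts (x0f α h A0 N i) κ'| ≤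
        ε / 8 * (κ' * x0f α h A0 N i))
    (hE2 : ∀ κ' : ℝ, ε / 400 / (16 * A0) ≤ κ' → κ' ≤ 1 →
      E2 k P (aI α i) (bI α h N i) (WW D) 1 ((1 / 4 - ρ / 2) * l) (x0f α h A0 N i) κ' C2 b
        (Jn N) ≤ N / l ^ A1)
    (hQL : (1 - ε) ^ 2 * (BD (Dp N) * (ρ * l) * (Q.I1 - ε)) ^ 2 *
      (BD (Dp N) * (ρ * l / 48) * (BD (Dp N) * (ρ * l)) ^ (k - 1) * Br Q k ε) ≤
      QI (some i) (prP P) (cw (prP P) (yP Q k P (ρ * l))))
    (hw : ∀ n : ℕ, |(n : ℝ) - n0f A0 N| < ε / 400 * n0f A0 N →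
      (wIZ (uB α) (wB h N) P i (yP Q k P (ρ * l)) n) ^ 2 ≤ (N : ℝ) ^ (1 / 10 : ℝ))
    (hpoly : 8 * (Real.log N) ^ (A1 + 1) * (N : ℝ) ^ (6 / 10 : ℝ) ≤ (N : ℝ) ^ (1 : ℝ))
    (Z : ℝ) (hZ : Z = ZZ k (VV α h N D (Dp N)) (ε / 400 * n0f A0 N) (WW D) (BD (Dp N)) (ρ * l))
    (hErr : N / l ^ A1 ≤ Z / l)
    (hlA : (3 / (ρ * ((1 - ε) ^ 3 * (Q.I1 - ε) ^ 2 * Br Q k ε)) + 2) / ε ≤ l) :
    Z * (ρ * βc Q k ε) ≤ ∑ n ∈ Ns α h D (Dp N) N v N, (if (Fm α h N i n).toNat.Prime then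
      lt (n0f A0 N) (ε / 400 * n0f A0 N) n * (wZ Q (uB α) (wB h N) P (ρ * l) n) ^ 2 else 0) := by
  have hNR : (8 : ℝ) ≤ N := by exact_mod_cast hN
  have hN0 : (0 : ℝ) < N := by linarith
  have hA0R : (1 : ℝ) ≤ A0 := by exact_mod_cast hA0
  have hl0 : 0 < l := by linarith
  have hL : 0 < ρ * l := by positivity
  have h1ε : 0 < 1 - ε := by linarith
  have hI1ε : 0 < Q.I1 - ε := by linarith
  have hR0 : 0 ≤ (1 / 4 - ρ / 2) * l := mul_nonneg (by linarith) hl0.le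
  have hn0 : n0f A0 N = N / (8 * A0) := rfl
  have hn0p : 0 < n0f A0 N := by rw [hn0]; positivity
  have hxp := hsz.hx
  set κi := ε / 400 * n0f A0 N / x0f α h A0 N i with hκi
  have hκ4 : κi ≤ ε / 400 := hsz.hκhi
  have hκ0 : 0 < κi := hsz.hκ
  have hκlo : ε / 400 / (16 * A0) ≤ κi := hsz.hκlo
  have hΔi : ε / 400 * n0f A0 N = κi * x0f α h A0 N i := by
    rw [hκi]; field_simp
  have hBD := BD_pos (Dp N)
  have hW : (0 : ℝ) < WW D := by exact_mod_cast H.hW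
  have hV := VV_pos hRC H
  have hNl : 0 ≤ (N : ℝ) / l ^ A1 := by positivity
  have hS2 := (est_S2 hPS hEq hTn hRC hSd H G (BD_split H.hDD) hBD i (yP Q k P (ρ * l)) 1
    one_pos (fun σ => y_le_one Q P (ρ * l) hL σ) ((1 / 4 - ρ / 2) * l) hR0
    (fun σ hσ => supp_y Q P ρ l hρ1 hl0 σ hσ) κi b (Jn N) hb hCD (Jn_le N) hκ0 (by linarith) hxp
    hΔi hsz.hx1 hsz.hx2 (ε / 8) (by positivity) (by linarith)
    (hpn κi hκlo (by linarith)) (hpn (4 * κi) (by linarith) (by linarith)) (N / l ^ A1) hNl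
    (hE2 κi hκlo (by linarith)) (hE2 (4 * κi) (by linarith) (by linarith))).1
  obtain ⟨j, hij⟩ : ∃ j : Fin k, i ≠ j := by
    by_cases h0 : i = ⟨0, by omega⟩
    · exact ⟨⟨1, by omega⟩, by rw [h0]; simp⟩
    · exact ⟨⟨0, by omega⟩, h0⟩
  have hlog : Real.log (aI α i * (x0f α h A0 N i + ε / 400 * n0f A0 N)) ≤ l + 2 := by
    have ha1 : (1 : ℝ) ≤ aI α i := by exact_mod_cast aI_pos α H.hα i
    have h3 : Real.log (aI α i * (x0f α h A0 N i + ε / 400 * n0f A0 N)) ≤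
        Real.log (4 * N) := by
      apply Real.log_le_log _ hsz.up
      have := hsz.one
      nlinarith
    have h4 : Real.log (4 * N) = Real.log 4 + l := by
      rw [Real.log_mul (by norm_num) hN0.ne', hl]
    have h5 : Real.log 4 ≤ 2 := by
      have h6 : Real.log 4 = 2 * Real.log 2 := by
        rw [show (4 : ℝ) = 2 ^ 2 by norm_num, Real.log_pow]
        norm_num
      have := Real.log_two_lt_d9
      linarith
    linarith
  have hconv := conv_low hRC hWE H G Q (ρ * l) (l + 2) ((N : ℝ) ^ (1 / 10 : ℝ)) i j hij hlog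
    (by positivity) hw hsz.one
  have hbad := bad_small N A1 l (aI α i * (x0f α h A0 N i + ε / 400 * n0f A0 N)) hl hl2 hN (by
    have ha1 : (1 : ℝ) ≤ aI α i := by exact_mod_cast aI_pos α H.hα i
    have := hsz.one
    nlinarith) hsz.up hpoly
  set β00 : ℝ := (1 - ε) ^ 3 * (Q.I1 - ε) ^ 2 * Br Q k ε with hβ00
  have hβ00p : 0 < β00 := by rw [hβ00]; positivity
  have hlow := low_alg k (by omega) (VV α h N D (Dp N)) (ε / 400 * n0f A0 N) (WW D)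
    (BD (Dp N)) (ρ * l) ε Q.I1 (Br Q k ε) _ hW hBD hV (by positivity) (by linarith) hQL
  rw [← hZ, ← hβ00] at hlow
  have hQI0 : 0 ≤ ε / 400 * n0f A0 N * (VV α h N D (Dp N) / (WW D * BD (Dp N)) *
      QI (some i) (prP P) (cw (prP P) (yP Q k P (ρ * l)))) := by
    have h3 : 0 ≤ QI (some i) (prP P) (cw (prP P) (yP Q k P (ρ * l))) := by
      refine le_trans ?_ hQL
      positivity
    positivity
  have hβ0 : 0 ≤ (1 / 2 : ℝ) ^ b := by positivity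
  have hcoef : 1 - ε ≤ 1 - (1 / 2 : ℝ) ^ b - ε / 8 - 60 * κi := by linarith
  have h5 := mul_le_mul_of_nonneg_right hcoef hQI0
  have hZ0 : 0 < Z := by
    rw [hZ]
    unfold ZZ
    positivity
  set S := ∑ n ∈ Ns α h D (Dp N) N v N, (if (Fm α h N i n).toNat.Prime then
      lt (n0f A0 N) (ε / 400 * n0f A0 N) n * (wZ Q (uB α) (wB h N) P (ρ * l) n) ^ 2 else 0)
    with hSdef
  have hkey : ρ * l * Z * β00 - 3 * (Z / l) ≤ (l + 2) * S := by linarith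
  have hZl : Z / l ≤ Z := div_le_self hZ0.le (by linarith)
  have hfin : (l + 2) * (Z * (ρ * βc Q k ε)) ≤ (l + 2) * S := by
    refine le_trans ?_ hkey
    have e2 : Z * (ρ * βc Q k ε) = (1 - ε) * (ρ * β00) * Z := by
      unfold βc
      rw [hβ00]
      ring
    rw [e2]
    rw [div_le_iff₀ hε] at hlA
    have hρβ : 0 < ρ * β00 := by positivity
    have h6 : 3 ≤ (ρ * β00) * (ε * l - 2) := by
      have h7 : 3 / (ρ * β00) ≤ ε * l - 2 := by linarith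
      rw [div_le_iff₀ hρβ] at h7
      linarith
    have h8 : (l + 2) * ((1 - ε) * (ρ * β00)) ≤ l * (ρ * β00) - 3 := by nlinarith
    have h9 := mul_le_mul_of_nonneg_right h8 hZ0.le
    calc (l + 2) * ((1 - ε) * (ρ * β00) * Z) = (l + 2) * ((1 - ε) * (ρ * β00)) * Z := by ring
      _ ≤ (l * (ρ * β00) - 3) * Z := h9
      _ = ρ * l * Z * β00 - 3 * Z := by ring
      _ ≤ _ := by linarith
  exact le_of_mul_le_mul_left hfin (by linarith)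

/-- bound (III) -/
theorem fix_III {C2 : ℕ} (hPS : PS2At (k + 1) C2) (hEq : Eq2) (hTn : Tents) (hRC : RootsCount)
    (hSd : SdLZ) (hWE : WEq) (H : Hyp α h D (Dp N) N v P) (Q : SPar) (ρ ε l : ℝ) (b A1 : ℕ)
    (A0 : ℕ) (hk : 2 ≤ k) (hρ : 0 < ρ) (hρ1 : ρ ≤ 1 / 16) (hε : 0 < ε) (hε1 : ε < 1 / 3)
    (hI1 : 0 < Q.I1) (hI2 : 0 < Q.I2)
    (hl : l = Real.log N) (hl2 : 2 ≤ l) (hN : 8 ≤ N)
    (hb : C2 ≤ b) (hCD : C2 ≤ D) (hβ : (1 / 2 : ℝ) ^ b ≤ ε / 8) (hA0 : 1 ≤ A0)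
    (G : Geo α h D (Dp N) N v P (n0f A0 N) (ε / 400 * n0f A0 N) N
      (x0f α h A0 N) (fun i => ⌈3 * x0f α h A0 N i⌉₊) (vf α h D N v)) (i j : Fin k)
    (hij : i ≠ j) (hsz : Sz α h A0 (ε / 400) N i)
    (hpn : ∀ κ' : ℝ, ε / 400 / (16 * A0) ≤ κ' → κ' ≤ 1 →
      |Mt (aI α i) (x0f α h A0 N i) κ' - ts (x0f α h A0 N i) κ'| ≤
        ε / 8 * (κ' * x0f α h A0 N i))
    (hE2 : ∀ κ' : ℝ, ε / 400 / (16 * A0) ≤ κ' → κ' ≤ 1 →
      E2 k P (aI α i) (bI α h N i) (WW D) (∏ t : IP P, (1 + 2 / (prP P t : ℝ)))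
        ((1 / 4 - ρ / 2) * l) (x0f α h A0 N i) κ' C2 b (Jn N) ≤ N / l ^ A1)
    (hκP : ∏ t : IP P, (1 + ((k + 1 : ℕ) : ℝ) * ((prP P t : ℝ) / ((prP P t : ℝ) - 1) ^ 3)) ≤
      1 + ε)
    (hS2 : Sums2 Q (Dp N) ε (ρ * l) ((1 / 4 - 2 * ρ) * l) P)
    (hF1 : ∀ n : ℕ, |(n : ℝ) - n0f A0 N| < ε / 400 * n0f A0 N →
      (Fm α h N j n).toNat.Prime → ∀ p ∈ P, ¬ p ∣ LZ (uB α) (wB h N) (some j) n)
    (Z : ℝ) (hZ : Z = ZZ k (VV α h N D (Dp N)) (ε / 400 * n0f A0 N) (WW D) (BD (Dp N)) (ρ * l))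
    (hErr : N / l ^ A1 ≤ Z / l) (δ : ℝ) (hδ0 : 0 < δ)
    (hδ : ρ ^ 2 / (1 / 4 - 2 * ρ) * ((1 + ε) ^ 4 / (1 - ε) ^ 3) *
      ((Q.I1 + ε) ^ 4 * ((1 / 3 + ε) * (Q.I2 + ε) ^ (k - 2))) + δ ≤ γc Q k ρ ε)
    (hlA : 3 / δ ≤ l) (hlB : 2 / ε ≤ l) :
    ∑ n ∈ Ns α h D (Dp N) N v N, (if (Fm α h N i n).toNat.Prime ∧
      (Fm α h N j n).toNat.Prime then lt (n0f A0 N) (ε / 400 * n0f A0 N) n *
        (wZ Q (uB α) (wB h N) P (ρ * l) n) ^ 2 else 0) ≤ Z * γc Q k ρ ε := by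
  have hNR : (8 : ℝ) ≤ N := by exact_mod_cast hN
  have hN0 : (0 : ℝ) < N := by linarith
  have hA0R : (1 : ℝ) ≤ A0 := by exact_mod_cast hA0
  have hl0 : 0 < l := by linarith
  have hL : 0 < ρ * l := by positivity
  have h1ε : 0 < 1 - ε := by linarith
  have h14 : 0 < 1 / 4 - 2 * ρ := by linarith
  have hΛ : 0 < (1 / 4 - 2 * ρ) * l := by positivity
  have hR0 : 0 ≤ (1 / 4 - ρ / 2) * l := mul_nonneg (by linarith) hl0.le
  have hn0 : n0f A0 N = N / (8 * A0) := rfl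
  have hn0p : 0 < n0f A0 N := by rw [hn0]; positivity
  have hxp := hsz.hx
  set κi := ε / 400 * n0f A0 N / x0f α h A0 N i with hκi
  have hκ4 : κi ≤ ε / 400 := hsz.hκhi
  have hκ0 : 0 < κi := hsz.hκ
  have hκlo : ε / 400 / (16 * A0) ≤ κi := hsz.hκlo
  have hΔi : ε / 400 * n0f A0 N = κi * x0f α h A0 N i := by
    rw [hκi]; field_simp
  have hBD := BD_pos (Dp N)
  have hW : (0 : ℝ) < WW D := by exact_mod_cast H.hW
  have hV := VV_pos hRC H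
  have hNl : 0 ≤ (N : ℝ) / l ^ A1 := by positivity
  have hPp : ∀ p ∈ P, p.Prime := fun p hp => (H.hP p hp).1
  have hcL := cL_le Q ρ l hρ hρ1 hl0
  have hBz1 := Bz_one P
  have hest := (est_S2 hPS hEq hTn hRC hSd H G (BD_split H.hDD) hBD i
    (zP Q k P (ρ * l) ((1 / 4 - 2 * ρ) * l) j) (∏ t : IP P, (1 + 2 / (prP P t : ℝ)))
    (by linarith) (fun σ => zP_bd Q P hPp (ρ * l) ((1 / 4 - 2 * ρ) * l) hL hΛ hcL j σ)
    ((1 / 4 - ρ / 2) * l) hR0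
    (fun σ hσ => supp_z Q P (fun p hp => (hPp p hp).two_le) ρ l hρ hl0 j σ hσ) κi b (Jn N) hb hCD
    (Jn_le N) hκ0 (by linarith) hxp
    hΔi hsz.hx1 hsz.hx2 (ε / 8) (by positivity) (by linarith)
    (hpn κi hκlo (by linarith)) (hpn (4 * κi) (by linarith) (by linarith)) (N / l ^ A1) hNl
    (hE2 κi hκlo (by linarith)) (hE2 (4 * κi) (by linarith) (by linarith))).2
  have hlo : (1 - ε) * l ≤ Real.log (aI α i * (x0f α h A0 N i - ε / 400 * n0f A0 N)) := by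
    have h3 : Real.log (N / 4) ≤
        Real.log (aI α i * (x0f α h A0 N i - ε / 400 * n0f A0 N)) :=
      Real.log_le_log (by positivity) hsz.big
    have h4 : Real.log (N / 4) = l - Real.log 4 := by
      rw [Real.log_div hN0.ne' (by norm_num), hl]
    have h5 : Real.log 4 ≤ 2 := by
      have h6 : Real.log 4 = 2 * Real.log 2 := by
        rw [show (4 : ℝ) = 2 ^ 2 by norm_num, Real.log_pow]
        norm_num
      have := Real.log_two_lt_d9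
      linarith
    rw [div_le_iff₀ hε] at hlB
    linarith
  have hconv := conv_up hRC hWE H G Q (ρ * l) ((1 / 4 - 2 * ρ) * l) ((1 - ε) * l) hΛ.le i j hij
    hlo hF1
  have hkD : k + 2 ≤ Dp N := by
    have := H.hDk
    have := H.hDD
    omega
  have hU := QIz_le Q hkD hBD ε hε hε1 hI1 hI2 (ρ * l) ((1 / 4 - 2 * ρ) * l) hL hΛ P H.hP hκP hS2
    i j hij
  have halg := up_alg k hk (VV α h N D (Dp N)) (ε / 400 * n0f A0 N) (WW D) (BD (Dp N)) (ρ * l)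
    ((1 / 4 - 2 * ρ) * l) l ρ ε Q.I1 Q.I2 hW hBD hl0 hρ hρ1 hε1 rfl rfl
  rw [← hZ] at halg
  set g : ℝ := ρ ^ 2 / (1 / 4 - 2 * ρ) * ((1 + ε) ^ 4 / (1 - ε) ^ 3) *
      ((Q.I1 + ε) ^ 4 * ((1 / 3 + ε) * (Q.I2 + ε) ^ (k - 2))) with hg
  have hpJ : ∀ t : IP P, Fintype.card (Option (Fin k)) + 1 ≤ prP P t := by
    intro t
    rw [cardJ]
    have h1 := (H.hP t.1 t.2).2
    have : prP P t = t.1 := rfl
    omega
  have hQ0 := QI_nn (prP P) (some i) hpJ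
    (cw (prP P) (zP Q k P (ρ * l) ((1 / 4 - 2 * ρ) * l) j))
  have hβ0 : 0 ≤ (1 / 2 : ℝ) ^ b := by positivity
  have hcoef : (1 + (1 / 2 : ℝ) ^ b) * (1 + ε / 8 + 60 * κi) ≤ 1 + ε := by
    have h3 : (1 + (1 / 2 : ℝ) ^ b) * (1 + ε / 8 + 60 * κi) ≤
        (1 + ε / 8) * (1 + ε / 8 + 60 * (ε / 400)) := by
      apply mul_le_mul (by linarith) (by linarith) (by positivity) (by positivity)
    refine h3.trans ?_
    nlinarith
  have hZ0 : 0 < Z := by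
    rw [hZ]
    unfold ZZ
    positivity
  have hup : (1 + (1 / 2 : ℝ) ^ b) * (1 + ε / 8 + 60 * κi) * (ε / 400 * n0f A0 N *
      (VV α h N D (Dp N) / (WW D * BD (Dp N)) * QI (some i) (prP P)
        (cw (prP P) (zP Q k P (ρ * l) ((1 / 4 - 2 * ρ) * l) j)))) ≤ Z * g * ((1 - ε) * l) := by
    rw [← halg]
    have h3 : 0 ≤ VV α h N D (Dp N) / (WW D * BD (Dp N)) := by positivity
    have h4 : 0 ≤ ε / 400 * n0f A0 N := by positivity
    apply mul_le_mul hcoef _ (by positivity) (by linarith)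
    apply mul_le_mul_of_nonneg_left _ h4
    exact mul_le_mul_of_nonneg_left hU h3
  set S := ∑ n ∈ Ns α h D (Dp N) N v N, (if (Fm α h N i n).toNat.Prime ∧
      (Fm α h N j n).toNat.Prime then lt (n0f A0 N) (ε / 400 * n0f A0 N) n *
        (wZ Q (uB α) (wB h N) P (ρ * l) n) ^ 2 else 0) with hSdef
  have hkey : (1 - ε) * l * S ≤ (1 - ε) * l * (Z * g + Z * δ) := by
    have h3 : (1 - ε) * l * S ≤ Z * g * ((1 - ε) * l) + 2 * (Z / l) := by linarith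
    have h4 : 2 * (Z / l) ≤ (1 - ε) * l * (Z * δ) := by
      have h5 : 2 / l ≤ (1 - ε) * l * δ := by
        rw [div_le_iff₀ hδ0] at hlA
        have h6 : 2 / l ≤ 1 := by rw [div_le_one hl0]; linarith
        have h7 : 2 / 3 * 3 ≤ (1 - ε) * (l * δ) :=
          mul_le_mul (by linarith) hlA (by norm_num) h1ε.le
        have h8 : (1 - ε) * (l * δ) = (1 - ε) * l * δ := by ring
        linarith
      have h6 := mul_le_mul_of_nonneg_left h5 hZ0.le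
      calc 2 * (Z / l) = Z * (2 / l) := by ring
        _ ≤ Z * ((1 - ε) * l * δ) := h6
        _ = _ := by ring
    calc (1 - ε) * l * S ≤ Z * g * ((1 - ε) * l) + 2 * (Z / l) := h3
      _ ≤ Z * g * ((1 - ε) * l) + (1 - ε) * l * (Z * δ) := by linarith
      _ = _ := by ring
  have hS3 := le_of_mul_le_mul_left hkey (by positivity : 0 < (1 - ε) * l)
  calc S ≤ Z * g + Z * δ := hS3
    _ = Z * (g + δ) := by ring
    _ ≤ Z * γc Q k ρ ε := mul_le_mul_of_nonneg_left hδ hZ0.le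

end Pool.Agent.W25.UN
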