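import Mathlib
import Pool.Agent.W25.UN.FixC

/-! Project UN: the outcome of the sieve for all large `N`. -/

set_option autoImplicit false

namespace Pool.Agent.W25.UN

open Finset Filter Topology
open Pool.Agent.H410R2 hiding GP GP_prof GP_cut_some GP_cut_none GP_lip gg_pos gg_le_one gg_anti ee_bound ee_nonneg gg_lip LB_gg LB_ee Sums exists_sums yx wx wxi Br sum_GP_none sum_GP_some sum_GP_some_ee sum_GP_some_one sum_GPr_none sum_GPr_some S1_final QI_final S2_final w_abs_le wmax gg ee I1 I2 IE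
open Pool.Agent.H361R2.GM
open Pool.Agent.H362R2.CM

variable {k : ℕ}

/-- the gap between the numerical constant of the pair bound and what is proved -/
theorem gamma_gap (Q : SPar) (k : ℕ) (ρ ε : ℝ) (hρ : 0 < ρ) (hρ1 : ρ ≤ 1 / 16) (hε : 0 < ε)
    (hε1 : ε < 1 / 3) (hI1 : 0 < Q.I1) (hI2 : 0 < Q.I2) : ∃ δ : ℝ, 0 < δ ∧
    ρ ^ 2 / (1 / 4 - 2 * ρ) * ((1 + ε) ^ 4 / (1 - ε) ^ 3) *
      ((Q.I1 + ε) ^ 4 * ((1 / 3 + ε) * (Q.I2 + ε) ^ (k - 2))) + δ ≤ γc Q k ρ ε := by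
  have h1ε : 0 < 1 - ε := by linarith
  have h14 : 0 < 1 / 4 - 2 * ρ := by linarith
  set g0 : ℝ := ρ ^ 2 / (1 / 4 - 2 * ρ) * ((Q.I1 + ε) ^ 4 * ((1 / 3 + ε) *
    (Q.I2 + ε) ^ (k - 2))) with hg0
  have hg0p : 0 < g0 := by positivity
  refine ⟨g0 * ((1 + ε) ^ 8 / (1 - ε) ^ 4 - (1 + ε) ^ 4 / (1 - ε) ^ 3), ?_, ?_⟩
  · apply mul_pos hg0p
    rw [sub_pos, div_lt_div_iff₀ (by positivity) (by positivity)]
    have e1 : (1 - ε) ^ 4 < (1 - ε) ^ 3 := by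
      have : (1 - ε) ^ 4 = (1 - ε) ^ 3 * (1 - ε) := by ring
      rw [this]
      have h3 : 0 < (1 - ε) ^ 3 := by positivity
      nlinarith
    have e2 : (1 + ε) ^ 4 ≤ (1 + ε) ^ 8 := pow_le_pow_right₀ (by linarith) (by norm_num)
    have h4 : 0 < (1 + ε) ^ 4 := by positivity
    calc (1 + ε) ^ 4 * (1 - ε) ^ 4 < (1 + ε) ^ 4 * (1 - ε) ^ 3 := by gcongr
      _ ≤ (1 + ε) ^ 8 * (1 - ε) ^ 3 := by gcongr
  · apply le_of_eq
    rw [hg0]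
    unfold γc
    ring

/-- eventual form of the prime number theorem for all forms -/
theorem pn_ev (hPN : PntT) (α h : Fin k → ℤ) (hα : ∀ i, α i ≠ 0) (A0 : ℕ) (hA0 : 1 ≤ A0)
    (hA : ∀ i, aI α i ≤ A0) (ε κ1 : ℝ) (hε : 0 < ε) (hκ1 : 0 < κ1) :
    ∀ᶠ N : ℕ in atTop, ∀ i : Fin k, ∀ κ' : ℝ, κ1 ≤ κ' → κ' ≤ 1 →
      |Mt (aI α i) (x0f α h A0 N i) κ' - ts (x0f α h A0 N i) κ'| ≤
        ε * (κ' * x0f α h A0 N i) := by
  rw [Filter.eventually_all]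
  intro i
  obtain ⟨X1, hX1⟩ := Filter.eventually_atTop.1 (hPN (aI α i) ε κ1 (aI_pos α hα i) hε hκ1)
  have h2 : ∀ᶠ N : ℕ in atTop, 2 * A0 * X1 ≤ (N : ℝ) :=
    tendsto_natCast_atTop_atTop.eventually_ge_atTop _
  have hA0R : (1 : ℝ) ≤ A0 := by exact_mod_cast hA0
  filter_upwards [h2, x0f_ev α h hα A0 hA0 hA] with N h3 h4
  apply hX1
  refine le_trans ?_ (h4 i).2.2.1
  rw [le_div_iff₀ (by positivity)]
  linarith

/-- eventual form of the error bound for all forms -/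
theorem er_ev (hER : ErrU) (hEq : Eq2) (α h : Fin k → ℤ) (hα : ∀ i, α i ≠ 0) (A0 : ℕ)
    (hA0 : 1 ≤ A0)
    (hA : ∀ i, aI α i ≤ A0) (D : ℕ) (hW : 1 ≤ WW D)
    (hdvd : ∀ p : ℕ, p.Prime → (p ∣ WW D ↔ p ≤ D)) (hAD : A0 ≤ D) (ρ κ1 : ℝ) (A1 C2 b m2 : ℕ)
    (hρ : 0 < ρ) (hρ1 : ρ ≤ 1 / 16) (hκ1 : 0 < κ1)
    (hm2 : ∀ᶠ N : ℕ in atTop, ∀ P : Finset ℕ, (∀ p ∈ P, p.Prime ∧ (p : ℝ) ≤ N) →
      ∏ t : IP P, (1 + 2 / (prP P t : ℝ)) ≤ (Real.log N) ^ m2) :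
    ∀ᶠ N : ℕ in atTop, ∀ i : Fin k, ∀ (P : Finset ℕ), (∀ p ∈ P, p.Prime ∧ (p : ℝ) ≤ N) →
      ∀ κ' : ℝ, κ1 ≤ κ' → κ' ≤ 1 → ∀ Bw : ℝ, 0 ≤ Bw →
      Bw ≤ ∏ t : IP P, (1 + 2 / (prP P t : ℝ)) →
      E2 k P (aI α i) (bI α h N i) (WW D) Bw ((1 / 4 - ρ / 2) * Real.log N)
        (x0f α h A0 N i) κ' C2 b (Jn N) ≤ N / (Real.log N) ^ A1 := by
  have hA0R : (1 : ℝ) ≤ A0 := by exact_mod_cast hA0
  have h8 : ∀ᶠ N : ℕ in atTop, 6 * (A0 : ℝ) ≤ (N : ℝ) :=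
    tendsto_natCast_atTop_atTop.eventually_ge_atTop _
  have hERi : ∀ᶠ N : ℕ in atTop, ∀ i : Fin k, ∀ (P : Finset ℕ),
      (∀ p ∈ P, p.Prime ∧ (p : ℝ) ≤ N) → ∀ (b' : ℕ) (x κ' Y : ℝ), b' ≤ aI α i →
      1 / (2 * A0) * N ≤ x → x ≤ 2 * N → κ1 ≤ κ' → κ' ≤ 1 → 0 ≤ Y →
      Y ≤ (Real.log N) ^ (7 * (C2 * b) + (2 * m2 + 8)) →
      (Real.log N) ^ (7 * (C2 * b) + (2 * m2 + 8)) *
      ((∏ t : IP P, (1 + ((k + 1 : ℕ) : ℝ) / ((prP P t : ℝ) - 1)) *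
        ((prP P t : ℝ) / ((prP P t : ℝ) - 1))) ^ 2 *
      ∑ m ∈ (Icc 1 ⌊Y * (Real.exp ((1 / 4 - ρ / 2) * Real.log N)) ^ 2⌋₊).filter Squarefree,
        (3 * ((k + 1 : ℕ) : ℝ)) ^ m.primeFactors.card * Dev (aI α i) b' x κ' (WW D * m)) ≤
      N / (Real.log N) ^ A1 := by
    rw [Filter.eventually_all]
    intro i
    exact hER k (aI α i) (WW D) ρ κ1 (1 / (2 * A0)) 2 A1 _ (aI_pos α hα i) hW hρ
      hρ1 hκ1 (by positivity)
  filter_upwards [hERi, hm2, h8, x0f_ev α h hα A0 hA0 hA, Jn_up, ev_log 1]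
    with N her hm2 h8 hx hJ hl i P hP κ' hκ' hκ'1 Bw hBw0 hBw
  obtain ⟨hb1, hb2, -⟩ := bI_spec α h hα N i
  have hlo := (hx i).2.2.1
  have hY : ((2 : ℝ) ^ 2 ^ Jn N) ^ (C2 * b) ≤
      (Real.log N) ^ (7 * (C2 * b) + (2 * m2 + 8)) := by
    calc ((2 : ℝ) ^ 2 ^ Jn N) ^ (C2 * b) ≤ ((Real.log N) ^ 7) ^ (C2 * b) :=
          pow_le_pow_left₀ (by positivity) hJ.1 _
      _ = (Real.log N) ^ (7 * (C2 * b)) := by rw [← pow_mul]
      _ ≤ _ := pow_le_pow_right₀ hl (by omega)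
  have h1 := her i P hP (bI α h N i) (x0f α h A0 N i) κ' (((2 : ℝ) ^ 2 ^ Jn N) ^ (C2 * b))
    hb2 (by
      calc 1 / (2 * (A0 : ℝ)) * N = N / (2 * A0) := by ring
        _ ≤ _ := hlo) (hx i).2.2.2 hκ' hκ'1 (by positivity) hY
  refine E2_le hEq P (aI α i) (bI α h N i) D (aI_pos α hα i) hb1 hW ?_ Bw
    (∏ t : IP P, (1 + 2 / (prP P t : ℝ))) ((1 / 4 - ρ / 2) * Real.log N) (x0f α h A0 N i) κ'
    (Real.log N) (N / (Real.log N) ^ A1) C2 b (Jn N) m2 (7 * (C2 * b) + (2 * m2 + 8)) hl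
    (by linarith) hκ'1 ?_ hBw0 hBw (hm2 P hP) hJ.2 (by omega) h1
  · intro p hp hd
    rw [hdvd p hp]
    have h1 := Nat.le_of_dvd (aI_pos α hα i) hd
    have h2 := hA i
    omega
  · refine le_trans ?_ hlo
    rw [le_div_iff₀ (by positivity)]
    linarith

/-- a large prime value is free of sieving primes -/
theorem F1_of (α h : Fin k → ℤ) (hα : ∀ i, α i ≠ 0) (A0 N D v : ℕ) (κ : ℝ)
    (G : Geo α h D (Dp N) N v (PN α h N) (n0f A0 N) (κ * n0f A0 N) N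
      (x0f α h A0 N) (fun i => ⌈3 * x0f α h A0 N i⌉₊) (vf α h D N v)) (hN : 1 ≤ N) (j : Fin k)
    (n : ℕ) (hn : |(n : ℝ) - n0f A0 N| < κ * n0f A0 N) (hp : (Fm α h N j n).toNat.Prime) :
    ∀ p ∈ PN α h N, ¬ p ∣ LZ (uB α) (wB h N) (some j) n := by
  intro p hpP hd
  have ha : (0 : ℝ) < aI α j := by exact_mod_cast aI_pos α hα j
  have hpos : 0 < Fm α h N j n := by
    by_contra hc
    rw [Int.toNat_of_nonpos (not_lt.1 hc)] at hp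
    exact Nat.not_prime_zero hp
  have e1 : LZ (uB α) (wB h N) (some j) n = (Fm α h N j n).toNat := by
    unfold LZ uB wB
    have e2 : α j * (n : ℤ) + (N + h j) = Fm α h N j n := by
      unfold Fm; ring
    rw [e2]
    omega
  rw [e1] at hd
  have h1 := (Nat.prime_dvd_prime_iff_eq (PN_spec α h N hN p hpP).1 hp).1 hd
  have h2 := G.big2 j p hpP
  have hFr : ((Fm α h N j n : ℤ) : ℝ) = aI α j * x0f α h A0 N j + α j * (n - n0f A0 N) := by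
    rw [G.hx0 j]
    unfold Fm
    push_cast
    ring
  have habs : |(α j : ℝ)| = aI α j := by
    have := aI_abs α j
    rw [← Int.cast_abs, ← this, Int.cast_natCast]
  have h3 : (aI α j : ℝ) * (x0f α h A0 N j - κ * n0f A0 N) < ((Fm α h N j n : ℤ) : ℝ) := by
    rw [hFr]
    have h2 : -(aI α j * (κ * n0f A0 N)) < α j * ((n : ℝ) - n0f A0 N) := by
      have h3 : |α j * ((n : ℝ) - n0f A0 N)| < aI α j * (κ * n0f A0 N) := by
        rw [abs_mul, habs]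
        exact mul_lt_mul_of_pos_left hn ha
      exact (abs_lt.1 h3).1
    linarith
  have h4 : (((Fm α h N j n).toNat : ℕ) : ℤ) = Fm α h N j n := Int.toNat_of_nonneg hpos.le
  have h5 : ((p : ℕ) : ℝ) = ((Fm α h N j n : ℤ) : ℝ) := by
    rw [← h4, Int.cast_natCast, ← h1]
  linarith

/-- in the support of the tent all forms are nonzero -/
theorem Fm_ne (α h : Fin k → ℤ) (hα : ∀ i, α i ≠ 0) (A0 N D v : ℕ) (κ : ℝ) (P : Finset ℕ)
    (G : Geo α h D (Dp N) N v P (n0f A0 N) (κ * n0f A0 N) N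
      (x0f α h A0 N) (fun i => ⌈3 * x0f α h A0 N i⌉₊) (vf α h D N v))
    (n : ℕ) (hn : |(n : ℝ) - n0f A0 N| < κ * n0f A0 N) :
    1 ≤ n ∧ n ≤ N ∧ ∀ i, (N : ℤ) + α i * n + h i ≠ 0 := by
  have h1 := abs_lt.1 hn
  have h2 := G.g1
  have h3 := G.nX
  refine ⟨?_, ?_, ?_⟩
  · have : (0 : ℝ) < n := by linarith
    have : 0 < n := by exact_mod_cast this
    omega
  · have : (n : ℝ) ≤ N := by linarith
    exact_mod_cast this
  · intro j hj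
    have ha : (0 : ℝ) < aI α j := by exact_mod_cast aI_pos α hα j
    have hFr : (((N : ℤ) + α j * n + h j : ℤ) : ℝ) =
        aI α j * x0f α h A0 N j + α j * (n - n0f A0 N) := by
      rw [G.hx0 j]
      push_cast
      ring
    have habs : |(α j : ℝ)| = aI α j := by
      have := aI_abs α j
      rw [← Int.cast_abs, ← this, Int.cast_natCast]
    have h5 : -(aI α j * (κ * n0f A0 N)) < α j * ((n : ℝ) - n0f A0 N) := by
      have h3 : |α j * ((n : ℝ) - n0f A0 N)| < aI α j * (κ * n0f A0 N) := by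
        rw [abs_mul, habs]
        exact mul_lt_mul_of_pos_left hn ha
      exact (abs_lt.1 h3).1
    rw [hj] at hFr
    have h6 := G.big1 j
    have h7 : (0 : ℝ) ≤ Dp N := Nat.cast_nonneg _
    push_cast at hFr
    linarith

theorem three (hPS1 : PS1) (hPS2 : PS2) (hTn : Tents) (hRC : RootsCount) (hSd : SdLZ)
    (hWE : WEq) (hEq : Eq2) (hSU : SumsU) (hCC : CLcard) (hPT : PtwU) (hPN : PntT) (hER : ErrU)
    (hS1P : S1Parts) (hQL : QLow) (hWF : WFacts) (hVL : VLow) (hS1G : S1Gen)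
    (hTail : TailBound) (Q : SPar) (ρ ε : ℝ) (hk : 2 ≤ k) (hρ : 0 < ρ) (hρ1 : ρ ≤ 1 / 16)
    (hε : 0 < ε) (hε1 : ε < 1 / 3) (hI1 : ε < Q.I1) (hI2 : ε < Q.I2) (hBr : 0 < Br Q k ε)
    (α h : Fin k → ℤ) (hα : ∀ i, α i ≠ 0) (hdist : ∀ i j, i ≠ j → ¬ (α i = α j ∧ h i = h j)) :
    ∃ A : ℕ, ∀ e : ℝ, 0 < e → ∀ᶠ N : ℕ in atTop, Adm α h N → Out Q ρ ε α h A e N := by
  classical
  obtain ⟨C1, hC1, hPS1⟩ := ps1At_of hPS1 (k + 1)
  obtain ⟨C2, hC2, hPS2⟩ := ps2At_of hPS2 (k + 1)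
  obtain ⟨DW, hWF⟩ := hWF
  obtain ⟨DQ, hQL⟩ := hQL k
  obtain ⟨DT, hT⟩ := tails hTail k ε hε
  obtain ⟨C', hCC⟩ := hCC k α h hα hdist
  obtain ⟨A0, hA0, hA⟩ : ∃ A0 : ℕ, 1 ≤ A0 ∧ ∀ i, aI α i ≤ A0 :=
    ⟨1 + ∑ i, aI α i, by omega, fun i => by
      have h1 : aI α i ≤ ∑ i, aI α i :=
        Finset.single_le_sum (f := fun i => aI α i) (fun i _ => Nat.zero_le _)
          (Finset.mem_univ i)
      omega⟩
  obtain ⟨D, hD1, hD2, hD3, hD4, hD5⟩ : ∃ D : ℕ, DW ≤ D ∧ C1 ≤ D ∧ C2 ≤ D ∧ 2 * (k + 1) ≤ D ∧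
    A0 ≤ D := ⟨DW + C1 + C2 + 2 * (k + 1) + A0, by omega, by omega, by omega, by omega, by omega⟩
  obtain ⟨hW, htot, hBDp, hdvd, hvex⟩ := hWF D hD1
  obtain ⟨b0, hb0⟩ := exists_pow_lt_of_lt_one (by positivity : 0 < ε / 8)
    (by norm_num : (1 / 2 : ℝ) < 1)
  obtain ⟨b, hb1, hb2, hβ⟩ : ∃ b : ℕ, C1 ≤ b ∧ C2 ≤ b ∧ (1 / 2 : ℝ) ^ b ≤ ε / 8 :=
    ⟨b0 + C1 + C2, by omega, by omega, by
      refine le_trans ?_ hb0.le
      exact pow_le_pow_of_le_one (by norm_num) (by norm_num) (by omega)⟩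
  have hκ : 0 < ε / 400 := by positivity
  have hκ1 : ε / 400 ≤ 1 / 64 := by linarith
  obtain ⟨m2, hm2⟩ := prods_le 2 (by norm_num)
  obtain ⟨m3, hm3⟩ := prods_le (3 * ((k + 1 : ℕ) : ℝ)) (by positivity)
  have h1ε : 0 < 1 - ε := by linarith
  have hI2p : 0 < Q.I2 := hε.trans hI2
  have hI1p : 0 < Q.I1 := hε.trans hI1
  have hI1ε : 0 < Q.I1 - ε := by linarith
  have hA0R : (1 : ℝ) ≤ A0 := by exact_mod_cast hA0
  have hWR : (0 : ℝ) < WW D := by exact_mod_cast hW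
  obtain ⟨δ, hδ0, hδ⟩ := gamma_gap Q k ρ ε hρ hρ1 hε hε1 hI1p hI2p
  refine ⟨8 * (k + 1) + 1, fun e he => ?_⟩
  have h16 : ∀ᶠ N : ℕ in atTop, 16 * (A0 : ℝ) ≤ (N : ℝ) :=
    tendsto_natCast_atTop_atTop.eventually_ge_atTop _
  filter_upwards [hCC, tendsto_log_nat.eventually (hSU Q (k + 1) ε ρ C' hε hρ hρ1),
    sz_ev α h hα A0 hA0 hA (ε / 400) hκ hκ1, geo_ev α h hα A0 hA0 hA (ε / 400) hκ hκ1 D hW,
    ev_Dp (D + DQ + DT + 1), Jn_up, hm3, hPT k α h Q e he,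
    hPT k α h Q (1 / 10) (by norm_num),
    pn_ev hPN α h hα A0 hA0 hA (ε / 8) (ε / 400 / (16 * A0)) (by positivity) (by positivity),
    er_ev hER hEq α h hα A0 hA0 hA D hW hdvd hD5 ρ (ε / 400 / (16 * A0)) (8 * (k + 1) + 2) C2 b
      m2 hρ hρ1 (by positivity) hm2,
    ev_poly (16 / (ε / 400)) (8 + 14 * (C1 * b) + 1 + 2 * m3 + (8 * (k + 1) + 2))
      (49 / 24 * ρ) 1 (by linarith),
    ev_poly 8 ((8 * (k + 1) + 2) + 1) (6 / 10) 1 (by norm_num),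
    ev_log 2, ev_log (48 * WW D / (ε / 400 / (8 * A0) * ρ ^ (k + 1))),
    ev_log (2 / (ε * ((1 / 3 + ε) * (Q.I2 + ε) ^ k))),
    ev_log ((3 / (ρ * ((1 - ε) ^ 3 * (Q.I1 - ε) ^ 2 * Br Q k ε)) + 2) / ε),
    ev_log (3 / δ), ev_log (2 / ε), eventually_ge_atTop 8, h16]
    with N hCC hsums hsz hgeo hDp hJ hm3 hpt hpt10 hpn her hpoly1 hpoly2 hl2 hl3 hl4 hl5 hl6
      hl7 hN8 h16 hadm
  have hN1 : 1 ≤ N := by omega
  have hNR : (8 : ℝ) ≤ N := by exact_mod_cast hN8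
  have hl1 : 1 ≤ Real.log N := by linarith
  obtain ⟨v, hv⟩ := hvex N k α h hadm
  have hPs := PN_spec α h N hN1
  have hPle : ∀ p ∈ PN α h N, p.Prime ∧ (p : ℝ) ≤ N :=
    fun p hp => ⟨(hPs p hp).1, (hPs p hp).2.2.2.2⟩
  have hPleN : ∀ p ∈ PN α h N, p.Prime ∧ p ≤ N := fun p hp => ⟨(hPs p hp).1, by
    exact_mod_cast (hPs p hp).2.2.2.2⟩
  have hPD : ∀ p ∈ PN α h N, p.Prime ∧ Dp N < p :=
    fun p hp => ⟨(hPs p hp).1, (hPs p hp).2.1⟩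
  have H : Hyp α h D (Dp N) N v (PN α h N) := {
    hα := hα
    hW := hW
    tot := htot
    BDpos := hBDp
    hdvd := hdvd
    hDk := hD4
    hDα := fun i => (hA i).trans hD5
    hDD := by omega
    hP := hPD
    hres := fun p hp j l hjl => CL_ndvd hCC.1 (hPs p hp).1 (hPs p hp).2.2.1 j l hjl
    hv := hv }
  have G := hgeo v
  obtain ⟨hS1, hS2⟩ := hsums (Dp N) (CL (uB α) (wB h N)) (PN α h N) rfl hCC.2 hPD
    (fun p hp hDp' hple hpC => by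
      unfold PN
      rw [Finset.mem_filter, Finset.mem_Icc]
      exact ⟨⟨hDp', Nat.le_floor hple⟩, hp, hpC⟩)
  obtain ⟨hT1, hT2, hT3⟩ := hT (Dp N) (by omega) (PN α h N) hPD
  have hDp1 : 1 ≤ Dp N := by omega
  have hVlow := hVL (k + 1) (Dp N) (QQ D (Dp N))
    (fun p => (Om (uB α) (wB h N) p).card) hDp1 (fun p hp => by
      have h1 := QQ_prime hp
      exact ⟨h1.1, by omega, h1.2.2,
        (hRC k (uB α) (wB h N) p h1.1 (fun j => H.uB_ndvd h1.1 h1.2.1 j)).2.1⟩)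
  have hZlow : N / (Real.log N) ^ (8 * (k + 1) + 1) ≤
      ZZ k (VV α h N D (Dp N)) (ε / 400 * n0f A0 N) (WW D) (BD (Dp N)) (ρ * Real.log N) := by
    apply ZZ_low k (VV α h N D (Dp N)) (ε / 400 * n0f A0 N) (WW D) (BD (Dp N))
      (ρ * Real.log N) (ε / 400 / (8 * A0)) (Real.log N) N (Dp N) ρ hl1 hWR hρ rfl
    · exact_mod_cast hDp1
    · exact Dp_le N hN1
    · exact hVlow.1
    · exact hVlow.2
    · unfold n0f
      field_simp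
    · positivity
    · positivity
    · exact hl3
  have hErr : N / (Real.log N) ^ (8 * (k + 1) + 2) ≤
      ZZ k (VV α h N D (Dp N)) (ε / 400 * n0f A0 N) (WW D) (BD (Dp N)) (ρ * Real.log N) /
        Real.log N := by
    have e1 : (N : ℝ) / (Real.log N) ^ (8 * (k + 1) + 2) =
        N / (Real.log N) ^ (8 * (k + 1) + 1) / Real.log N := by
      rw [div_div, ← pow_succ]
    rw [e1]
    exact div_le_div_of_nonneg_right hZlow (by linarith)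
  have hsd0 := H.sd0 hSd
  have hL0 : 0 < ρ * Real.log N := by positivity
  have hBz := Bz_one (PN α h N)
  refine ⟨Ns α h D (Dp N) N v N, fun n => lt (n0f A0 N) (ε / 400 * n0f A0 N) n *
      (wZ Q (uB α) (wB h N) (PN α h N) (ρ * Real.log N) n) ^ 2,
    ZZ k (VV α h N D (Dp N)) (ε / 400 * n0f A0 N) (WW D) (BD (Dp N)) (ρ * Real.log N),
    lt_of_lt_of_le (by positivity) hZlow, hZlow, ?_, ?_, ?_, ?_, ?_⟩
  · unfold Ns
    exact Finset.filter_subset _ _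
  · intro n hn
    refine ⟨mul_nonneg (lt_nonneg _ _ _) (sq_nonneg _), ?_⟩
    beta_reduce
    by_cases h0 : lt (n0f A0 N) (ε / 400 * n0f A0 N) n = 0
    · rw [h0, zero_mul]
      positivity
    · have hd := lt_pos_iff G.g0 h0
      obtain ⟨q1, q2, q3⟩ := Fm_ne α h hα A0 N D v (ε / 400) (PN α h N) G n hd
      have h1 := (hpt (PN α h N) (ρ * Real.log N) hL0 hPleN hsd0 n q1 q2 q3).1
      have h2 := lt_le_one (n0f A0 N) (ε / 400 * n0f A0 N) n G.g0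
      have h3 : 0 ≤ (wZ Q (uB α) (wB h N) (PN α h N) (ρ * Real.log N) n) ^ 2 := sq_nonneg _
      calc lt (n0f A0 N) (ε / 400 * n0f A0 N) n *
            (wZ Q (uB α) (wB h N) (PN α h N) (ρ * Real.log N) n) ^ 2
          ≤ 1 * (wZ Q (uB α) (wB h N) (PN α h N) (ρ * Real.log N) n) ^ 2 :=
            mul_le_mul_of_nonneg_right h2 h3
        _ ≤ _ := by rw [one_mul]; exact h1
  · exact fix_I hPS1 hTn hRC hSd hS1P hS1G H Q ρ ε (Real.log N) b (8 * (k + 1) + 2) A0 m3 hρ hρ1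
      hε hε1 hI2p rfl hl1 hN8 hb1 hD2 hβ hA0 (by linarith) hJ (hm3 (PN α h N) hPle) hpoly1 hS1 _
      rfl hErr hl4
  · intro i
    exact fix_II hPS2 hEq hTn hRC hSd hWE H Q ρ ε (Real.log N) b (8 * (k + 1) + 2) A0 hk hρ hρ1
      hε hε1 hI1 hBr rfl hl2 hN8 hb2 hD3 hβ hA0 G i (hsz i) (hpn i)
      (fun κ' h1 h2 => her i (PN α h N) hPle κ' h1 h2 1 zero_le_one hBz)
      (hQL (Dp N) Q ε (by omega) hε hε1 hI1 hI2 hBr (ρ * Real.log N) (PN α h N) hL0 hPD hT1 hT2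
        hS1 i)
      (fun n hd => by
        obtain ⟨q1, q2, q3⟩ := Fm_ne α h hα A0 N D v (ε / 400) (PN α h N) G n hd
        exact (hpt10 (PN α h N) (ρ * Real.log N) hL0 hPleN hsd0 n q1 q2 q3).2 i)
      hpoly2 _ rfl hErr hl5
  · intro i j hij
    exact fix_III hPS2 hEq hTn hRC hSd hWE H Q ρ ε (Real.log N) b (8 * (k + 1) + 2) A0 hk hρ hρ1
      hε hε1 hI1p hI2p rfl hl2 hN8 hb2 hD3 hβ hA0 G i j hij (hsz i) (hpn i)
      (fun κ' h1 h2 => her i (PN α h N) hPle κ' h1 h2 _ (by linarith) le_rfl)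
      hT3 hS2 (fun n hd hp => F1_of α h hα A0 N D v (ε / 400) G hN1 j n hd hp) _ rfl hErr δ hδ0
      hδ hl6 hl7

end Pool.Agent.W25.UN
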