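import Mathlib
import Pool.Agent.W25.UN.ThreeB
import Pool.Agent.H732R3.CMQ

/-! Project UN: the uniform coloured theorem from the outcome of the sieve. -/

set_option autoImplicit false

namespace Pool.Agent.W25.UN

open Finset Filter Topology
open Pool.Agent.H410R2 hiding GP GP_prof GP_cut_some GP_cut_none GP_lip gg_pos gg_le_one gg_anti ee_bound ee_nonneg gg_lip LB_gg LB_ee Sums exists_sums yx wx wxi Br sum_GP_none sum_GP_some sum_GP_some_ee sum_GP_some_one sum_GPr_none sum_GPr_some S1_final QI_final S2_final w_abs_le wmax gg ee I1 I2 IE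
open Pool.Agent.H361R2.GM
open Pool.Agent.H362R2.CM
open Pool.Agent.H732R3.CMQ

open Classical in
/-- the counting argument at one `N` -/
theorem count_at (T M K k : ℕ) (hT0 : 0 < T) (hK : 2 ≤ K) (Q : SPar) (ρ ε : ℝ) (hρ : 0 < ρ)
    (hρ1 : ρ ≤ 1 / 16) (hε : 0 < ε)
    (hε1 : ε < 1 / 3) (hI1 : ε < Q.I1) (hI2 : ε < Q.I2) (hBr : 0 < Br Q k ε)
    (hnum : (M * (1 + ε) + ε) * Ac Q k ε *
        (K * (ρ * βc Q k ε) + (K : ℝ) ^ 2 * γc Q k ρ ε) <
      T * (K * (ρ * βc Q k ε)) ^ 2)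
    (α h : Fin k → ℤ) (cl : Fin k → Fin T)
    (hcl : ∀ g, (univ.filter (fun i => cl i = g)).card = K) (A : ℕ) (η : ℝ) (hη : 0 < η) (N : ℕ)
    (hout : Out Q ρ ε α h A (η / 4) N) (hN : 1 < N)
    (hpl : (T : ℝ) / (ε * Ac Q k ε) * (Real.log N) ^ A * (N : ℝ) ^ (1 - η + η / 4) ≤ (N : ℝ) ^ (1 : ℝ)) :
    (N : ℝ) ^ (1 - η) ≤ (((Icc 1 N).filter (fun n : ℕ =>
        M + 1 ≤ (univ.filter (fun g : Fin T => ∃ i, cl i = g ∧
          (Fm α h N i n).toNat.Prime)).card)).card : ℝ) := by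
  have hI2p : 0 < Q.I2 := hε.trans hI2
  have hI1p : 0 < Q.I1 := hε.trans hI1
  have h1ε : 0 < 1 - ε := by linarith
  have hI1ε : 0 < Q.I1 - ε := by linarith
  have h14 : 0 < 1 / 4 - 2 * ρ := by linarith
  have hKp : (0 : ℝ) < K := by exact_mod_cast (by omega : 0 < K)
  have hAc : 0 < Ac Q k ε := by unfold Ac; positivity
  have hβc : 0 < βc Q k ε := by unfold βc; positivity
  have hγc : 0 < γc Q k ρ ε := by unfold γc; positivity
  have hNR : (1 : ℝ) < N := by exact_mod_cast hN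
  have hN0 : (0 : ℝ) < N := by linarith
  have hl : 0 < Real.log N := Real.log_pos hNR
  set E : Finset ℕ := (Icc 1 N).filter (fun n : ℕ =>
    M + 1 ≤ (univ.filter (fun g : Fin T => ∃ i, cl i = g ∧ (Fm α h N i n).toNat.Prime)).card) with hE
  by_contra hcon
  push Not at hcon
  obtain ⟨S, u, Z, hZ0, hZl, hS, hu, hS1, hsingle, hpair⟩ := hout
  have hu0 : ∀ n ∈ S, 0 ≤ u n := fun n hn => (hu n hn).1
  -- classes
  have hclass : ∀ g : Fin T, (K * (Z * (ρ * βc Q k ε))) ^ 2 ≤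
      (∑ n ∈ S, if ∃ i ∈ univ.filter (fun i => cl i = g), (Fm α h N i n).toNat.Prime then u n else 0) *
      (K * (Z * (ρ * βc Q k ε)) + (K : ℝ) ^ 2 * (Z * γc Q k ρ ε)) := by
    intro g
    have h1 := cs_class S u hu0 (univ.filter (fun i => cl i = g))
      (fun i n => (Fm α h N i n).toNat.Prime) (Z * (ρ * βc Q k ε)) (Z * γc Q k ρ ε) (by positivity)
      (by positivity) (by
        intro i _
        refine (hsingle i).trans (le_of_eq ?_)
        exact Finset.sum_congr rfl fun n _ => by congr) (by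
        intro i _ j _ hij
        refine le_trans (le_of_eq ?_) (hpair i j hij)
        exact Finset.sum_congr rfl fun n _ => by congr) (by rw [hcl g]; omega)
    rw [hcl g] at h1
    convert h1 using 2
  have hcount := count_exc cl S u hu0 (fun i n => (Fm α h N i n).toNat.Prime) M E (by
    intro n hn hnE
    by_contra hc
    apply hnE
    rw [hE, Finset.mem_filter]
    refine ⟨hS hn, ?_⟩
    have h2 := Nat.succ_le_of_lt (not_le.1 hc)
    refine le_trans h2 (le_of_eq ?_)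
    congr)
  -- small `n`
  have hsmall : T * ∑ n ∈ S.filter (fun n => n ∈ E), u n ≤ Z * (ε * Ac Q k ε) := by
    have h1 : ∑ n ∈ S.filter (fun n => n ∈ E), u n ≤ (N : ℝ) ^ (1 - η) * (N : ℝ) ^ (η / 4) := by
      have h2 : ∑ n ∈ S.filter (fun n => n ∈ E), u n ≤
          ∑ _n ∈ S.filter (fun n => n ∈ E), (N : ℝ) ^ (η / 4) :=
        Finset.sum_le_sum fun n hn => (hu n (Finset.mem_filter.1 hn).1).2
      refine h2.trans ?_
      rw [Finset.sum_const, nsmul_eq_mul]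
      apply mul_le_mul_of_nonneg_right _ (by positivity)
      have h3 : S.filter (fun n => n ∈ E) ⊆ E := fun n hn => (Finset.mem_filter.1 hn).2
      have h4 : ((S.filter (fun n => n ∈ E)).card : ℝ) ≤ E.card := by
        exact_mod_cast Finset.card_le_card h3
      exact h4.trans hcon.le
    have h5 : 0 < ε * Ac Q k ε := by positivity
    have h6 : 0 < (Real.log N) ^ A := by positivity
    calc T * ∑ n ∈ S.filter (fun n => n ∈ E), u n
        ≤ T * ((N : ℝ) ^ (1 - η) * (N : ℝ) ^ (η / 4)) := by gcongr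
      _ = T * (N : ℝ) ^ (1 - η + η / 4) := by rw [Real.rpow_add hN0]
      _ = ((T : ℝ) / (ε * Ac Q k ε) * (Real.log N) ^ A * (N : ℝ) ^ (1 - η + η / 4)) /
            (Real.log N) ^ A * (ε * Ac Q k ε) := by field_simp
      _ ≤ ((N : ℝ) ^ (1 : ℝ)) / (Real.log N) ^ A * (ε * Ac Q k ε) := by gcongr
      _ = (N : ℝ) / (Real.log N) ^ A * (ε * Ac Q k ε) := by rw [Real.rpow_one]
      _ ≤ Z * (ε * Ac Q k ε) := by gcongr
  -- combine
  set q : Fin T → ℝ := fun g =>
    ∑ n ∈ S, if ∃ i ∈ univ.filter (fun i => cl i = g), (Fm α h N i n).toNat.Prime then u n else 0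
    with hq
  set a : ℝ := K * (ρ * βc Q k ε) with ha
  set G : ℝ := (K : ℝ) ^ 2 * γc Q k ρ ε with hG
  have hap : 0 < a := by positivity
  have hGp : 0 < G := by positivity
  have hclass' : ∀ g : Fin T, Z * a ^ 2 ≤ q g * (a + G) := by
    intro g
    have h1 := hclass g
    have e1 : (K * (Z * (ρ * βc Q k ε))) ^ 2 = Z * (Z * a ^ 2) := by rw [ha]; ring
    have e2 : (K * (Z * (ρ * βc Q k ε)) + (K : ℝ) ^ 2 * (Z * γc Q k ρ ε)) = Z * (a + G) := by
      rw [ha, hG]; ring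
    rw [e1, e2] at h1
    have h2 : Z * (Z * a ^ 2) ≤ Z * (q g * (a + G)) := by
      refine h1.trans (le_of_eq ?_)
      simp only [hq]
      ring
    exact le_of_mul_le_mul_left h2 hZ0
  have hsumq : T * (Z * a ^ 2) ≤ (∑ g, q g) * (a + G) := by
    rw [Finset.sum_mul]
    have h1 := Finset.card_nsmul_le_sum (univ : Finset (Fin T)) (fun g => q g * (a + G))
      (Z * a ^ 2) (fun g _ => hclass' g)
    rw [Finset.card_univ, Fintype.card_fin, nsmul_eq_mul] at h1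
    exact h1
  have hq2 : ∑ g, q g ≤ Z * ((M * (1 + ε) + ε) * Ac Q k ε) := by
    have h1 : (M : ℝ) * ∑ n ∈ S, u n ≤ M * (Z * Ac Q k ε) :=
      mul_le_mul_of_nonneg_left hS1 (Nat.cast_nonneg _)
    have h2 : (0 : ℝ) ≤ M * ε * (Z * Ac Q k ε) := by positivity
    have hcount' : ∑ g, q g ≤ M * ∑ n ∈ S, u n + T * ∑ n ∈ S.filter (fun n => n ∈ E), u n := by
      refine le_trans (le_of_eq ?_) hcount
      simp only [hq]
    calc ∑ g, q g ≤ M * ∑ n ∈ S, u n + T * ∑ n ∈ S.filter (fun n => n ∈ E), u n := hcount'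
      _ ≤ M * (Z * Ac Q k ε) + Z * (ε * Ac Q k ε) := by linarith
      _ ≤ M * (Z * Ac Q k ε) + Z * (ε * Ac Q k ε) + M * ε * (Z * Ac Q k ε) := by linarith
      _ = _ := by ring
  have hfin : T * (Z * a ^ 2) ≤ Z * ((M * (1 + ε) + ε) * Ac Q k ε) * (a + G) :=
    hsumq.trans (mul_le_mul_of_nonneg_right hq2 (by positivity))
  have hfin2 : Z * (T * a ^ 2) ≤ Z * ((M * (1 + ε) + ε) * Ac Q k ε * (a + G)) := by
    calc Z * (T * a ^ 2) = T * (Z * a ^ 2) := by ring
      _ ≤ _ := hfin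
      _ = _ := by ring
  have hfin3 := le_of_mul_le_mul_left hfin2 hZ0
  linarith

/-- from the outcome of the sieve to the uniform coloured theorem -/
theorem thmU_of
    (H : ∀ (k : ℕ) (Q : SPar) (ρ ε : ℝ), 2 ≤ k → 0 < ρ → ρ ≤ 1 / 16 → 0 < ε → ε < 1 / 3 →
      ε < Q.I1 → ε < Q.I2 → 0 < Br Q k ε → ∀ (α h : Fin k → ℤ), (∀ i, α i ≠ 0) →
      (∀ i j, i ≠ j → ¬ (α i = α j ∧ h i = h j)) →
      ∃ A : ℕ, ∀ e : ℝ, 0 < e → ∀ᶠ N : ℕ in atTop, Adm α h N → Out Q ρ ε α h A e N) : ThmU := by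
  classical
  intro T M hTM
  obtain ⟨K, Q, ρ, ε, hK, hρ, hρ1, hε, hε1, hI1, hI2, hBr, hnum⟩ := num_all T M hTM
  refine ⟨K, hK, ?_⟩
  intro α h cl hcl hα hdist η hη
  have hT0 : 0 < T := by omega
  have hk2 : 2 ≤ T * K := by nlinarith
  obtain ⟨A, hA⟩ := H (T * K) Q ρ ε hk2 hρ hρ1 hε hε1 hI1 hI2 hBr α h hα hdist
  filter_upwards [hA (η / 4) (by linarith), eventually_gt_atTop 1,
    ev_poly ((T : ℝ) / (ε * Ac Q (T * K) ε)) A (1 - η + η / 4) 1 (by linarith)]
    with N hout hN hpl hadm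
  convert count_at T M K (T * K) hT0 hK Q ρ ε hρ hρ1 hε hε1 hI1 hI2 hBr hnum α h cl hcl A η hη N
    (hout hadm) hN hpl using 4

end Pool.Agent.W25.UN
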