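import Mathlib
import Pool.Agent.W25.UN.Final0
import Pool.Agent.W612.UNOneDimU
import Pool.Agent.W21.UN.S1Gen
import Pool.Agent.W924.UNS2G
import Pool.Agent.W45.UNFLA
import Pool.Agent.W776.UNTents
import Pool.Agent.W991.UN.PS1
import Pool.Agent.W334.UN.PS2
import Pool.Agent.W310.UN.VL
import Pool.Agent.W959.UN.E5
import Pool.Agent.W976.UNSU
import Pool.Agent.W398.UNFO
import Pool.Agent.W293.UN.Cc
import Pool.Agent.W714.UN.Pt
import Pool.Agent.W143.UN.WE
import Pool.Agent.W293.UN.Pn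
import Pool.Agent.W410.UNEQ
import Pool.Agent.W493.UN.ER
import Pool.Agent.W493.UN.S1P
import Pool.Agent.W493.UN.QL
import Pool.Agent.W493.UN.WD
import Pool.Agent.H20R2.EN.FLem

/-! Project UN: the uniform coloured theorem, unconditionally. -/

set_option autoImplicit false

namespace Pool.Agent.W25.UN

theorem hFLA : FLA := Pool.Agent.W45.UNFLA.main Pool.Agent.H20R2.fLem

theorem thmU : ThmU :=
  thmU_of fun _ Q ρ ε hk hρ hρ1 hε hε1 hI1 hI2 hBr α h hα hd =>
    three (Pool.Agent.W991.UN.main hFLA Pool.Agent.W21.UN.main)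
      (Pool.Agent.W334.UNPS2.main hFLA Pool.Agent.W924.UNS2G.main)
      Pool.Agent.W776.UNTents.main Pool.Agent.W398.UNFO.rc Pool.Agent.W398.UNFO.sd
      Pool.Agent.W143.UN.WE.main (Pool.Agent.W410.UNEQ.main Pool.Agent.W776.UNTents.main)
      (Pool.Agent.W976.UN.main (Pool.Agent.W612.UNOneDimU.main Pool.Agent.H399R2.oneDim))
      Pool.Agent.W293.UN.Cc.main Pool.Agent.W714.UN.Pt.main
      (Pool.Agent.W293.UN.Pn.main Pool.Agent.H732R2.pntLog)
      (Pool.Agent.W493.UN.ER.main Pool.Agent.H410R2.bvap)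
      Pool.Agent.W493.UN.S1P.main Pool.Agent.W493.UN.QL.main Pool.Agent.W493.UN.WD.main
      W310.UN.VL.main Pool.Agent.W21.UN.main Pool.Agent.H361R2.tailBound Q ρ ε hk hρ hρ1 hε hε1
      hI1 hI2 hBr α h hα hd

theorem fiveEq : FiveEq := Pool.Agent.W959.UN.main thmU

end Pool.Agent.W25.UN

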